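import Pool.Agent.Lib.MP_938ce2_ag_h99v.PlD

/-!
Auxiliary primes with prescribed quadratic symbols (Dirichlet).
-/

set_option autoImplicit false
set_option linter.style.haveILetI false
set_option linter.unusedSectionVars false

open Finset

namespace Pool.Agent.Lib.MP_938ce2_ag_h99v

open Pool.Agent.Lib.MP_938ce2_ag_h99 Pool.Agent.Lib.MP_938ce2_ag_h6
open Pool.Agent.Lib.MP_938ce2_ag_h99t

/-- One prime `1 mod 4`: `Nat.setOf_prime_and_eq_mod_infinite` or `Nat.forall_exists_prime_gt_and_eq_mod`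
modulo `4 p`, with a non-residue modulo `p`. -/
theorem exists_aux_one {p : ℕ} (hp : p.Prime) (hp4 : p % 4 = 1) (N : ℕ) :
    ∃ q0 : ℕ, q0.Prime ∧ q0 % 4 = 3 ∧ ch p q0 = -1 ∧ N < q0 := by
  haveI : Fact p.Prime := ⟨hp⟩
  have hp2 : p ≠ 2 := by
    rintro rfl
    norm_num at hp4
  have hchar : ringChar (ZMod p) ≠ 2 := by
    rw [ZMod.ringChar_zmod_n]
    exact hp2
  obtain ⟨a, ha⟩ := FiniteField.exists_nonsquare hchar
  have ha0 : a ≠ 0 := by
    rintro rfl
    exact ha (IsSquare.zero)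
  have hcop : Nat.Coprime 4 p := by
    have h2 : Nat.Coprime 2 p := (Nat.coprime_primes Nat.prime_two hp).mpr (Ne.symm hp2)
    have : Nat.Coprime (2 ^ 2) p := Nat.Coprime.pow_left 2 h2
    simpa using this
  obtain ⟨x, hx4, hxp⟩ := Nat.chineseRemainder hcop 3 a.val
  have hxu : Nat.Coprime x (4 * p) := by
    apply Nat.Coprime.mul_right
    · have h3 : Nat.gcd x 4 = Nat.gcd 3 4 := hx4.gcd_eq
      unfold Nat.Coprime
      rw [h3]
      norm_num
    · rw [Nat.coprime_comm, Nat.Prime.coprime_iff_not_dvd hp]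
      intro hdiv
      have h1 : a.val % p = 0 := by
        rw [← hxp]
        exact Nat.mod_eq_zero_of_dvd hdiv
      have h2 : a.val = 0 := by
        rw [Nat.mod_eq_of_lt (ZMod.val_lt a)] at h1
        exact h1
      exact ha0 ((ZMod.val_eq_zero a).mp h2)
  haveI : NeZero (4 * p) := ⟨by have := hp.pos; omega⟩
  have hu : IsUnit ((x : ℕ) : ZMod (4 * p)) := (ZMod.isUnit_iff_coprime x (4 * p)).mpr hxu
  obtain ⟨q, hqN, hqp, hqm⟩ := Nat.forall_exists_prime_gt_and_eq_mod hu N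
  have hmod : q ≡ x [MOD (4 * p)] := (ZMod.natCast_eq_natCast_iff _ _ _).mp hqm
  have hm4 : q ≡ 3 [MOD 4] := (hmod.of_mul_right p).trans hx4
  have hmp : q ≡ a.val [MOD p] := (hmod.of_mul_left 4).trans hxp
  refine ⟨q, hqp, ?_, ?_, hqN⟩
  · have : q % 4 = 3 % 4 := hm4
    simpa using this
  · unfold ch
    rw [if_neg hp2]
    have hqa : ((q : ℤ) : ZMod p) = a := by
      have h1 : ((q : ℕ) : ZMod p) = ((a.val : ℕ) : ZMod p) :=
        (ZMod.natCast_eq_natCast_iff _ _ _).mpr hmp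
      rw [ZMod.natCast_zmod_val] at h1
      simpa using h1
    rw [← jacobiSym.legendreSym.to_jacobiSym]
    rw [legendreSym.eq_neg_one_iff]
    rw [hqa]
    exact ha

end Pool.Agent.Lib.MP_938ce2_ag_h99v
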