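import Pool.Agent.Lib.MP_938ce2_ag_h99v.PlD

/-!
Auxiliary primes with prescribed quadratic symbols (Dirichlet).
-/

set_option autoImplicit false
set_option linter.style.haveILetI false
set_option linter.unusedSectionVars false

open Finset

namespace Pool.Agent.Lib.MP_938ce2_ag_h99v

open Pool.Agent.Lib.MP_938ce2_ag_h99 Pool.Agent.Lib.MP_938ce2_ag_h6
open Pool.Agent.Lib.MP_938ce2_ag_h99t

private lemma dir {n x : ℕ} (hn : n ≠ 0) (hx : x.Coprime n) (N : ℕ) :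
    ∃ q : ℕ, q.Prime ∧ q ≡ x [MOD n] ∧ N < q := by
  have : NeZero n := ⟨hn⟩
  have hu : IsUnit (x : ZMod n) := by
    rw [ZMod.isUnit_iff_coprime]; exact hx
  obtain ⟨q, hq, hqp, hqe⟩ := Nat.forall_exists_prime_gt_and_eq_mod hu N
  exact ⟨q, hqp, (ZMod.natCast_eq_natCast_iff _ _ _).1 hqe, hq⟩

private lemma jac_congr {p n q x : ℕ} (hpn : p ∣ n) (h : q ≡ x [MOD n]) :
    jacobiSym (q : ℤ) p = jacobiSym (x : ℤ) p := by
  have h' : q ≡ x [MOD p] := h.of_dvd hpn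
  rw [jacobiSym.mod_left (q : ℤ), jacobiSym.mod_left (x : ℤ)]
  have : ((q : ℤ) % (p : ℤ)) = (x : ℤ) % (p : ℤ) := by
    exact_mod_cast h'
  rw [this]

private lemma nonres {p : ℕ} (hp : p.Prime) (hp2 : p ≠ 2) :
    ∃ u : ℕ, jacobiSym (u : ℤ) p = -1 ∧ u.Coprime p := by
  have : Fact p.Prime := ⟨hp⟩
  have hc : ringChar (ZMod p) ≠ 2 := by
    rw [ZMod.ringChar_zmod_n]; exact hp2
  obtain ⟨a, ha⟩ := FiniteField.exists_nonsquare hc
  refine ⟨a.val, ?_, ?_⟩
  · rw [← jacobiSym.legendreSym.to_jacobiSym, legendreSym.eq_neg_one_iff]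
    simpa using ha
  · have ha0 : a ≠ 0 := by
      rintro rfl
      exact ha ⟨0, by simp⟩
    have : IsUnit a := isUnit_iff_ne_zero.2 ha0
    rw [← ZMod.isUnit_iff_coprime]
    simpa using this

private lemma ch_odd {p : ℕ} (hp2 : p ≠ 2) (a : ℤ) : ch p a = jacobiSym a p := by
  unfold ch; rw [if_neg hp2]

/-- Two primes `1 mod 4`: `q0` modulo `4 p p'`, then `q1` modulo `4 p p' q0`, a residue modulo
`q0`. -/
theorem exists_aux_two {p p' : ℕ} (hp : p.Prime) (hp' : p'.Prime) (hp4 : p % 4 = 1)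
    (hp4' : p' % 4 = 1) (hpp : p ≠ p') (N : ℕ) :
    ∃ q0 q1 : ℕ, q0.Prime ∧ q1.Prime ∧ q0 % 4 = 3 ∧ q1 % 4 = 3 ∧ q0 ≠ q1 ∧ N < q0 ∧ N < q1 ∧
      ch p q0 = -1 ∧ ch p' q0 = 1 ∧ ch p q1 = 1 ∧ ch p' q1 = -1 ∧ ch q0 q1 = 1 := by
  have hp2 : p ≠ 2 := by rintro rfl; omega
  have hp2' : p' ≠ 2 := by rintro rfl; omega
  obtain ⟨u, hu, huc⟩ := nonres hp hp2
  obtain ⟨u', hu', huc'⟩ := nonres hp' hp2'
  have c4 : Nat.Coprime 4 p := by
    have : Nat.Coprime 2 p := (Nat.coprime_primes Nat.prime_two hp).2 (Ne.symm hp2)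
    exact Nat.Coprime.pow_left 2 this
  have c4' : Nat.Coprime 4 p' := by
    have : Nat.Coprime 2 p' := (Nat.coprime_primes Nat.prime_two hp').2 (Ne.symm hp2')
    exact Nat.Coprime.pow_left 2 this
  have cpp : Nat.Coprime p p' := (Nat.coprime_primes hp hp').2 hpp
  have c4p : Nat.Coprime (4 * p) p' := Nat.Coprime.mul_left c4' cpp
  have hn : 4 * p * p' ≠ 0 := by
    have := hp.ne_zero; have := hp'.ne_zero; positivity
  -- `q0`
  obtain ⟨x1, hx1, hx1'⟩ := Nat.chineseRemainder c4 3 u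
  obtain ⟨x, hx, hx'⟩ := Nat.chineseRemainder c4p x1 1
  have hx3 : x ≡ 3 [MOD 4] := (hx.of_dvd (Dvd.intro _ rfl)).trans hx1
  have hxu : x ≡ u [MOD p] := (hx.of_dvd (Dvd.intro_left _ rfl)).trans hx1'
  have hxc : x.Coprime (4 * p * p') := by
    have e1 : x.Coprime 4 := by
      have := hx3.gcd_eq
      unfold Nat.Coprime
      rw [this]
      rfl
    have e2 : x.Coprime p := by
      have := hxu.gcd_eq
      unfold Nat.Coprime
      rw [this]
      exact huc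
    have e3 : x.Coprime p' := by
      have := hx'.gcd_eq
      unfold Nat.Coprime
      rw [this]
      simp
    exact Nat.Coprime.mul_right (Nat.Coprime.mul_right e1 e2) e3
  obtain ⟨q0, hq0, hq0x, hq0N⟩ := dir hn hxc (max N (max p (max p' 4)))
  have hq0N' : N < q0 ∧ p < q0 ∧ p' < q0 ∧ 4 < q0 := by
    simp only [max_lt_iff] at hq0N; exact hq0N
  obtain ⟨g1, g2, g3, g4⟩ := hq0N'
  have hq03 : q0 % 4 = 3 := by
    have : q0 ≡ 3 [MOD 4] :=
      (hq0x.of_dvd (Dvd.intro (p * p') (by ring))).trans hx3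
    simpa [Nat.ModEq] using this
  have hq0p : jacobiSym (q0 : ℤ) p = -1 := by
    rw [jac_congr (Dvd.intro (4 * p') (by ring)) hq0x, jac_congr (dvd_refl p) hxu, hu]
  have hq0p' : jacobiSym (q0 : ℤ) p' = 1 := by
    rw [jac_congr (Dvd.intro_left _ rfl) hq0x, jac_congr (dvd_refl p') hx']
    simp
  -- `q1`
  have cq : Nat.Coprime (4 * p * p') q0 := by
    have e1 : Nat.Coprime 4 q0 := by
      have : Nat.Coprime 2 q0 := (Nat.coprime_primes Nat.prime_two hq0).2 (by omega)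
      exact Nat.Coprime.pow_left 2 this
    have e2 : Nat.Coprime p q0 := (Nat.coprime_primes hp hq0).2 (by omega)
    have e3 : Nat.Coprime p' q0 := (Nat.coprime_primes hp' hq0).2 (by omega)
    exact Nat.Coprime.mul_left (Nat.Coprime.mul_left e1 e2) e3
  obtain ⟨y1, hy1, hy1'⟩ := Nat.chineseRemainder c4 3 1
  obtain ⟨y2, hy2, hy2'⟩ := Nat.chineseRemainder c4p y1 u'
  obtain ⟨y, hy, hy'⟩ := Nat.chineseRemainder cq y2 1
  have hyy : y ≡ y1 [MOD 4 * p] := (hy.of_dvd (Dvd.intro _ rfl)).trans hy2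
  have hy3 : y ≡ 3 [MOD 4] := (hyy.of_dvd (Dvd.intro _ rfl)).trans hy1
  have hyp : y ≡ 1 [MOD p] := (hyy.of_dvd (Dvd.intro_left _ rfl)).trans hy1'
  have hyp' : y ≡ u' [MOD p'] := (hy.of_dvd (Dvd.intro_left _ rfl)).trans hy2'
  have hyc : y.Coprime (4 * p * p' * q0) := by
    have e1 : y.Coprime 4 := by
      have := hy3.gcd_eq
      unfold Nat.Coprime
      rw [this]
      rfl
    have e2 : y.Coprime p := by
      have := hyp.gcd_eq
      unfold Nat.Coprime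
      rw [this]
      simp
    have e3 : y.Coprime p' := by
      have := hyp'.gcd_eq
      unfold Nat.Coprime
      rw [this]
      exact huc'
    have e4 : y.Coprime q0 := by
      have := hy'.gcd_eq
      unfold Nat.Coprime
      rw [this]
      simp
    exact Nat.Coprime.mul_right (Nat.Coprime.mul_right (Nat.Coprime.mul_right e1 e2) e3) e4
  obtain ⟨q1, hq1, hq1y, hq1N⟩ := dir (mul_ne_zero hn hq0.ne_zero) hyc (max N q0)
  obtain ⟨k1, k2⟩ := max_lt_iff.1 hq1N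
  have hq13 : q1 % 4 = 3 := by
    have : q1 ≡ 3 [MOD 4] :=
      (hq1y.of_dvd (Dvd.intro (p * p' * q0) (by ring))).trans hy3
    simpa [Nat.ModEq] using this
  have hq1p : jacobiSym (q1 : ℤ) p = 1 := by
    rw [jac_congr (Dvd.intro (4 * p' * q0) (by ring)) hq1y, jac_congr (dvd_refl p) hyp]
    simp
  have hq1p' : jacobiSym (q1 : ℤ) p' = -1 := by
    rw [jac_congr (Dvd.intro (4 * p * q0) (by ring)) hq1y, jac_congr (dvd_refl p') hyp', hu']
  have hq1q : jacobiSym (q1 : ℤ) q0 = 1 := by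
    rw [jac_congr (Dvd.intro_left _ rfl) hq1y, jac_congr (dvd_refl q0) hy']
    simp
  refine ⟨q0, q1, hq0, hq1, hq03, hq13, by omega, g1, k1, ?_, ?_, ?_, ?_, ?_⟩
  · rw [ch_odd hp2, hq0p]
  · rw [ch_odd hp2', hq0p']
  · rw [ch_odd hp2, hq1p]
  · rw [ch_odd hp2', hq1p']
  · rw [ch_odd (by omega), hq1q]

end Pool.Agent.Lib.MP_938ce2_ag_h99v
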