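import Pool.Agent.Lib.MP_938ce2_ag_h99v.PlD

/-!
Reciprocity.
-/

set_option autoImplicit false
set_option linter.style.haveILetI false
set_option linter.unusedSectionVars false

open Finset

namespace Pool.Agent.Lib.MP_938ce2_ag_h99v

open Pool.Agent.Lib.MP_938ce2_ag_h99 Pool.Agent.Lib.MP_938ce2_ag_h6
open Pool.Agent.Lib.MP_938ce2_ag_h99t

/-- reciprocity when one of the primes is `1 mod 4` -/
theorem ch_symm {p q : ℕ} (hp : p.Prime) (hq : q.Prime) (hp2 : p ≠ 2) (hq2 : q ≠ 2)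
    (h : p % 4 = 1 ∨ q % 4 = 1) : ch p q = ch q p := by
  unfold ch
  rw [if_neg hp2, if_neg hq2]
  rcases h with h | h
  · exact (jacobiSym.quadratic_reciprocity_one_mod_four h (hq.odd_of_ne_two hq2)).symm
  · exact jacobiSym.quadratic_reciprocity_one_mod_four h (hp.odd_of_ne_two hp2)

/-- reciprocity for two primes `3 mod 4` -/
theorem ch_anti {p q : ℕ} (hp : p.Prime) (hq : q.Prime) (hp4 : p % 4 = 3) (hq4 : q % 4 = 3)
    (hpq : p ≠ q) : ch p q = - ch q p := by
  have hp2 : p ≠ 2 := by omega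
  have hq2 : q ≠ 2 := by omega
  unfold ch
  rw [if_neg hp2, if_neg hq2]
  exact jacobiSym.quadratic_reciprocity_three_mod_four hq4 hp4

end Pool.Agent.Lib.MP_938ce2_ag_h99v
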