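import Pool.Agent.Lib.MP_938ce2_ag_h99t.Span

/-!
Sums of quadratic characters, for arbitrary sets of primes.
-/

set_option autoImplicit false
set_option linter.unusedSectionVars false

open Finset

namespace Pool.Agent.Lib.MP_938ce2_ag_h99v

open Pool.Agent.Lib.MP_938ce2_ag_h99 Pool.Agent.Lib.MP_938ce2_ag_h99t

/-- sets of primes -/
def PJ (J : Finset ℕ) : Prop := ∀ p ∈ J, p.Prime

lemma PJ.mono {I J : Finset ℕ} (h : PJ J) (hIJ : I ⊆ J) : PJ I := fun p hp => h p (hIJ hp)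

lemma ch_neg_one_four {p : ℕ} (hp : p.Prime) (h : p % 4 = 1) : ch p (-1) = 1 := by
  unfold ch
  rw [if_neg (by rintro rfl; omega), jacobiSym.at_neg_one (hp.odd_of_ne_two (by rintro rfl; omega)),
    ZMod.χ₄_nat_one_mod_four h]

lemma fJ_pos {J : Finset ℕ} (h : PJ J) : 0 < fJ J :=
  Finset.prod_pos fun p hp => ep_pos (h p hp)

lemma two_lt_fJ {J : Finset ℕ} (h : PJ J) (hne : J.Nonempty) : 2 < fJ J := by
  obtain ⟨p, hp⟩ := hne
  exact (two_lt_ep (h p hp)).trans_le (Nat.le_of_dvd (fJ_pos h) (ep_dvd_fJ hp))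

lemma coprime_fJ_iff {J : Finset ℕ} (h : PJ J) {k : ℕ} :
    Nat.Coprime k (fJ J) ↔ ∀ p ∈ J, ¬ p ∣ k := by
  unfold fJ
  rw [Nat.coprime_prod_right_iff]
  exact forall₂_congr fun p hp => coprime_ep_iff (h p hp)

lemma ch_sign_of_coprime {J : Finset ℕ} (h : PJ J) {k : ℕ} (hk : Nat.Coprime k (fJ J)) {q : ℕ}
    (hq : q ∈ J) : ch q k = 1 ∨ ch q k = -1 := by
  apply ch_sign (h q hq)
  intro h1
  exact (coprime_fJ_iff h).mp hk q hq (Int.natCast_dvd_natCast.mp h1)

lemma C_dist {n : ℕ} (hn : 0 < n) {J I : Finset ℕ} (hJ : PJ J) (hIJ : I ⊆ J) :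
    C n J I = C 1 J I := by
  have hf : (fJ J : ℚ) ≠ 0 := by
    have := fJ_pos hJ
    positivity
  have hn' : (n : ℚ) ≠ 0 := by positivity
  unfold C
  rw [sum_range_mul_add, sum_comm, one_mul]
  refine sum_congr rfl fun y _ => ?_
  have h1 : ∀ j, Nat.Coprime (j * fJ J + y) (fJ J) ↔ Nat.Coprime y (fJ J) := fun j => by
    rw [Nat.add_comm, Nat.coprime_add_mul_right_left]
  have h2 : ∀ j : ℕ, cI I ((j * fJ J + y : ℕ) : ℤ) = cI I (y : ℤ) := fun j =>
    cI_congr hIJ ⟨j, by push_cast; ring⟩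
  by_cases hy : Nat.Coprime y (fJ J)
  · simp only [h1, h2, if_pos hy]
    rw [← mul_sum]
    congr 1
    push_cast
    rw [sum_sub_distrib, sum_const, card_range, nsmul_eq_mul]
    have h3 : ∑ j ∈ range n, ((j : ℚ) * fJ J + y) / (n * fJ J)
        = ((n : ℚ) * (n - 1) / 2 * fJ J + n * y) / (n * fJ J) := by
      rw [← sum_div, sum_add_distrib, ← sum_mul, sum_const, card_range, nsmul_eq_mul]
      congr 3
      have := Finset.sum_range_id_mul_two n
      have h4 : ((∑ i ∈ range n, i : ℕ) : ℚ) * 2 = n * ((n - 1 : ℕ) : ℚ) := by exact_mod_cast this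
      rw [Nat.cast_sub hn, Nat.cast_sum] at h4
      push_cast at h4
      linarith
    rw [h3]
    field_simp
    ring
  · simp only [h1, hy, if_false, sum_const_zero]

lemma C_erase {J I : Finset ℕ} (hJ : PJ J) (hIJ : I ⊆ J) {p : ℕ} (hp : p ∈ J) (hpI : p ∉ I) :
    C 1 J I = (1 - (cI I p : ℚ)) * C 1 (J.erase p) I := by
  have hpp := (hJ p hp)
  have hJ' : PJ (J.erase p) := hJ.mono (erase_subset p J)
  have hIJ' : I ⊆ J.erase p := fun q hq => mem_erase.mpr ⟨fun h => hpI (h ▸ hq), hIJ hq⟩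
  obtain ⟨e, he⟩ := p_dvd_ep (p := p)
  have he0 : 0 < e := Nat.pos_of_ne_zero fun h => by
    rw [h, mul_zero] at he
    exact (ep_pos hpp).ne' he
  have hpf' : ¬ p ∣ fJ (J.erase p) := by
    have h1 : Nat.Coprime p (fJ (J.erase p)) := by
      rw [coprime_fJ_iff hJ']
      intro q hq h2
      have hqp := (Nat.prime_dvd_prime_iff_eq (hJ' q hq) hpp).mp h2
      exact (mem_erase.mp hq).1 hqp
    intro h2
    exact hpp.one_lt.ne' (Nat.Coprime.eq_one_of_dvd h1 h2)
  have hcop : ∀ k, Nat.Coprime k (fJ J) ↔ Nat.Coprime k (fJ (J.erase p)) ∧ ¬ p ∣ k := fun k => by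
    rw [fJ_erase hp, Nat.coprime_mul_iff_right, coprime_ep_iff hpp]
    exact and_comm
  have hf : (fJ (J.erase p) : ℚ) ≠ 0 := by
    have := fJ_pos hJ'
    positivity
  have hp0 : (p : ℚ) ≠ 0 := by
    have := hpp.pos
    positivity
  have he0' : (e : ℚ) ≠ 0 := by positivity
  have h1 : C 1 J I = C (ep p) (J.erase p) I
      - ∑ k ∈ range (e * fJ (J.erase p) * p), if p ∣ k then
        (if Nat.Coprime k (fJ (J.erase p)) then
          (cI I k : ℚ) * ((k : ℚ) / (ep p * fJ (J.erase p) : ℕ) - 1 / 2) else 0) else 0 := by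
    unfold C
    rw [one_mul, fJ_erase hp]
    have h2 : e * fJ (J.erase p) * p = ep p * fJ (J.erase p) := by rw [he]; ring
    rw [h2, ← sum_sub_distrib]
    refine sum_congr rfl fun k _ => ?_
    rw [← fJ_erase hp]
    by_cases h3 : p ∣ k
    · rw [if_neg (fun h => ((hcop k).mp h).2 h3), if_pos h3, sub_self]
    · rw [if_neg h3, sub_zero]
      exact if_congr ((hcop k).trans (and_iff_left h3)) rfl rfl
  rw [h1, C_dist (ep_pos hpp) hJ' hIJ', sum_multiples _ hpp.pos]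
  have h4 : ∑ k ∈ range (e * fJ (J.erase p)), (if Nat.Coprime (p * k) (fJ (J.erase p)) then
      (cI I ((p * k : ℕ) : ℤ) : ℚ) * (((p * k : ℕ) : ℚ) / (ep p * fJ (J.erase p) : ℕ) - 1 / 2)
        else 0) = cI I p * C e (J.erase p) I := by
    unfold C
    rw [mul_sum]
    refine sum_congr rfl fun k _ => ?_
    have h5 : Nat.Coprime (p * k) (fJ (J.erase p)) ↔ Nat.Coprime k (fJ (J.erase p)) := by
      rw [Nat.coprime_mul_iff_left]
      exact and_iff_right ((Nat.Prime.coprime_iff_not_dvd hpp).mpr hpf')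
    rw [if_congr h5 rfl rfl, mul_ite, mul_zero]
    congr 1
    rw [he]
    push_cast
    rw [cI_mul]
    push_cast
    have h6 : (p : ℚ) * k / (p * e * fJ (J.erase p)) = k / (e * fJ (J.erase p)) := by
      rw [mul_assoc (p : ℚ) e, mul_div_mul_left _ _ hp0]
    rw [h6]
    ring
  rw [h4, C_dist he0 hJ' hIJ']
  ring

/-- reduction to the primitive sum -/
lemma C_red {I : Finset ℕ} : ∀ (n : ℕ) (J : Finset ℕ), PJ J → I ⊆ J → (J \ I).card = n →
    C 1 J I = (∏ p ∈ J \ I, (1 - (cI I p : ℚ))) * C 1 I I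
  | 0, J, _, hIJ, hn => by
    have h1 : J \ I = ∅ := card_eq_zero.mp hn
    have h2 : J = I := (sdiff_eq_empty_iff_subset.mp h1).antisymm hIJ
    subst h2
    simp
  | n + 1, J, hJ, hIJ, hn => by
    have h1 : (J \ I).Nonempty := card_pos.mp (by omega)
    obtain ⟨p, hp⟩ := h1
    have hp' := mem_sdiff.mp hp
    have h2 : J.erase p \ I = (J \ I).erase p := by
      ext q
      simp only [mem_sdiff, mem_erase]
      tauto
    rw [C_erase hJ hIJ hp'.1 hp'.2, C_red n (J.erase p) (hJ.mono (erase_subset p J))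
      (fun q hq => mem_erase.mpr ⟨fun h => hp'.2 (h ▸ hq), hIJ hq⟩) (by
        rw [h2, card_erase_of_mem hp, hn]; rfl), h2, ← mul_assoc,
        Finset.mul_prod_erase (J \ I) (fun p => (1 - (cI I p : ℚ))) hp]

lemma C_even {J I : Finset ℕ} (hJ : PJ J) (hne : J.Nonempty) (hIJ : I ⊆ J) (hI : cI I (-1) = 1) :
    C 1 J I = 0 := by
  have hf2 := two_lt_fJ hJ hne
  have hf : (fJ J : ℚ) ≠ 0 := by
    have := fJ_pos hJ
    positivity
  unfold C
  rw [one_mul, ← sum_filter]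
  set s := (range (fJ J)).filter fun k => Nat.Coprime k (fJ J) with hs
  set g : ℕ → ℚ := fun k => (cI I k : ℚ) * ((k : ℚ) / (fJ J : ℕ) - 1 / 2) with hg
  have hk : ∀ k ∈ s, 0 < k ∧ k < fJ J ∧ Nat.Coprime k (fJ J) := by
    intro k hk
    rw [hs, mem_filter, mem_range] at hk
    refine ⟨Nat.pos_of_ne_zero ?_, hk⟩
    rintro rfl
    have := hk.2
    rw [Nat.coprime_zero_left] at this
    omega
  have hmem : ∀ k ∈ s, fJ J - k ∈ s := by
    intro k h
    obtain ⟨h1, h2, h3⟩ := hk k h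
    rw [hs, mem_filter, mem_range]
    refine ⟨by omega, ?_⟩
    exact (Nat.coprime_self_sub_left h2.le).mpr h3
  have h1 : ∑ k ∈ s, g k = ∑ k ∈ s, g (fJ J - k) := by
    refine sum_nbij' (fun k => fJ J - k) (fun k => fJ J - k) hmem hmem ?_ ?_ ?_
    · intro k h
      have := (hk k h).2.1
      show fJ J - (fJ J - k) = k
      omega
    · intro k h
      have := (hk k h).2.1
      show fJ J - (fJ J - k) = k
      omega
    · intro k h
      have := (hk k h).2.1
      show g k = g (fJ J - (fJ J - k))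
      congr 1
      omega
  have h2 : ∀ k ∈ s, g (fJ J - k) = - g k := by
    intro k h
    have h3 := (hk k h).2.1
    have h4 : cI I ((fJ J - k : ℕ) : ℤ) = cI I (k : ℤ) := by
      rw [cI_congr (b := -1 * (k : ℤ)) hIJ ⟨1, by rw [Nat.cast_sub h3.le]; ring⟩, cI_mul]
      rw [hI, one_mul]
    rw [hg]
    simp only
    rw [h4, Nat.cast_sub h3.le]
    field_simp
    ring
  have h3 : ∑ k ∈ s, g k = - ∑ k ∈ s, g k := by
    conv_lhs => rw [h1, sum_congr rfl h2, sum_neg_distrib]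
  have h4 : ∑ k ∈ s, g k = 0 := by linarith
  exact h4

end Pool.Agent.Lib.MP_938ce2_ag_h99v
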