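import Pool.Agent.Lib.MP_938ce2_ag_h99v.PlD

/-!
Sums over sets of signs for four primes.
-/

set_option autoImplicit false
set_option linter.style.haveILetI false
set_option linter.unusedSectionVars false

open Finset

namespace Pool.Agent.Lib.MP_938ce2_ag_h99v

open Pool.Agent.Lib.MP_938ce2_ag_h99 Pool.Agent.Lib.MP_938ce2_ag_h6
open Pool.Agent.Lib.MP_938ce2_ag_h99t

/-- Sum over the sets with at most two primes. By `Sf_eq` the difference is the combination of the
`hh I` with `cI I (-1) = -1`, coefficient `dd {q0, q1, p, p'} I - dd {q0, p, p'} I` (or only the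
first for `q1 ∈ I`); the sets `I` with three elements are `{q0, p, p'}` (both coefficients are one)
and `{q1, p, p'}` (coefficient zero); the others are in the closure by `hh_mem`. -/
lemma Sf_four {q0 q1 p p' : ℕ} (hq0 : q0.Prime) (hq1 : q1.Prime) (hp : p.Prime) (hp' : p'.Prime)
    (h0 : q0 % 4 = 3) (h1 : q1 % 4 = 3) (hp4 : p % 4 = 1) (hp4' : p' % 4 = 1) (h01 : q0 ≠ q1)
    (hpp : p ≠ p') (s1 : ch p q0 = -1) (s2 : ch p' q0 = 1) (s3 : ch p q1 = 1)
    (s4 : ch p' q1 = -1) (s5 : ch q0 q1 = 1) :
    Sf {q0, q1, p, p'} - Sf {q0, p, p'} ∈ AddSubgroup.closure {g : (ℕ → ℤˣ) → ℚ |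
      ∃ J : Finset ℕ, (J ⊆ {q0, q1, p, p'} ∧ cI J (-1) = -1 ∧ J.card ≤ 2) ∧ g = Sf J} := by
  classical
  have hT : PJ {q0, q1, p, p'} := by
    intro r hr
    simp only [mem_insert, mem_singleton] at hr
    rcases hr with rfl | rfl | rfl | rfl <;> assumption
  have hT' : PJ {q0, p, p'} := by
    intro r hr
    simp only [mem_insert, mem_singleton] at hr
    rcases hr with rfl | rfl | rfl <;> assumption
  have n0p : q0 ≠ p := by rintro rfl; omega
  have n0p' : q0 ≠ p' := by rintro rfl; omega
  have n1p : q1 ≠ p := by rintro rfl; omega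
  have n1p' : q1 ≠ p' := by rintro rfl; omega
  have e0 : ch q0 (-1) = -1 := ch_neg_one hq0 (Or.inr h0)
  have e1 : ch q1 (-1) = -1 := ch_neg_one hq1 (Or.inr h1)
  have e2 : ch p (-1) = 1 := ch_neg_one_four hp hp4
  have e3 : ch p' (-1) = 1 := ch_neg_one_four hp' hp4'
  have s6 : ch q1 q0 = -1 := by
    have k0 : q0 ≠ 2 := by omega
    have k1 : q1 ≠ 2 := by omega
    unfold ch at s5 ⊢
    rw [if_neg k0] at s5
    rw [if_neg k1, jacobiSym.quadratic_reciprocity_three_mod_four h0 h1, s5]
  have hsub : ({q0, p, p'} : Finset ℕ) ⊆ {q0, q1, p, p'} := by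
    intro r hr
    simp only [mem_insert, mem_singleton] at hr ⊢
    tauto
  have hq1n : q1 ∉ ({q0, p, p'} : Finset ℕ) := by
    simp only [mem_insert, mem_singleton, not_or]
    exact ⟨h01.symm, n1p, n1p'⟩
  have key : Sf {q0, q1, p, p'} - Sf {q0, p, p'} =
      ∑ I ∈ ({q0, q1, p, p'} : Finset ℕ).powerset.filter (fun I => cI I (-1) = -1),
        (dd {q0, q1, p, p'} I - if I ⊆ {q0, p, p'} then dd {q0, p, p'} I else 0) • hh I := by
    rw [Sf_eq hT (insert_nonempty _ _), Sf_eq hT' (insert_nonempty _ _)]
    have h2 : ∑ I ∈ ({q0, p, p'} : Finset ℕ).powerset.filter (fun I => cI I (-1) = -1),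
        dd {q0, p, p'} I • hh I =
        ∑ I ∈ ({q0, q1, p, p'} : Finset ℕ).powerset.filter (fun I => cI I (-1) = -1),
        (if I ⊆ {q0, p, p'} then dd {q0, p, p'} I else 0) • hh I := by
      symm
      rw [← sum_subset (s₁ := ({q0, p, p'} : Finset ℕ).powerset.filter
        (fun I => cI I (-1) = -1))]
      · refine sum_congr rfl fun I hI => ?_
        rw [if_pos (mem_powerset.mp (mem_filter.mp hI).1)]
      · intro I hI
        rw [mem_filter, mem_powerset] at hI ⊢
        exact ⟨hI.1.trans hsub, hI.2⟩
      · intro I hI hI'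
        rw [mem_filter, mem_powerset] at hI hI'
        rw [if_neg (fun h => hI' ⟨h, hI.2⟩), zero_smul]
    rw [h2, ← sum_sub_distrib]
    refine sum_congr rfl fun I _ => ?_
    rw [sub_smul]
  rw [key]
  apply AddSubgroup.sum_mem
  intro I hI
  rw [mem_filter, mem_powerset] at hI
  obtain ⟨hIT, hodd⟩ := hI
  by_cases hc : I.card ≤ 2
  · apply AddSubgroup.zsmul_mem
    refine AddSubgroup.closure_mono ?_ (hh_mem (hT.mono hIT) _ I rfl (Subset.refl I) hodd)
    rintro g ⟨J, hJ1, hJ2, rfl⟩
    exact ⟨J, ⟨hJ1.trans hIT, hJ2, (card_le_card hJ1).trans hc⟩, rfl⟩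
  · have hcT : ({q0, q1, p, p'} : Finset ℕ).card ≤ 4 := card_le_four
    have hcd : (({q0, q1, p, p'} : Finset ℕ) \ I).card ≤ 1 := by
      have := card_sdiff_add_card_eq_card hIT
      omega
    suffices h : dd {q0, q1, p, p'} I - (if I ⊆ {q0, p, p'} then dd {q0, p, p'} I else 0) = 0 by
      rw [h, zero_smul]
      exact AddSubgroup.zero_mem _
    have hsd := Finset.sdiff_sdiff_eq_self hIT
    rcases Nat.le_one_iff_eq_zero_or_eq_one.mp hcd with h | h
    · rw [card_eq_zero] at h
      rw [h, sdiff_empty] at hsd
      exfalso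
      rw [← hsd] at hodd
      unfold cI at hodd
      rw [prod_insert (by simp [h01, n0p, n0p']), prod_insert (by simp [n1p, n1p']),
        prod_insert (by simp [hpp]), prod_singleton, e0, e1, e2, e3] at hodd
      norm_num at hodd
    · obtain ⟨x, hx⟩ := card_eq_one.mp h
      have hxT : x ∈ ({q0, q1, p, p'} : Finset ℕ) := by
        have : x ∈ ({q0, q1, p, p'} : Finset ℕ) \ I := by rw [hx]; exact mem_singleton_self x
        exact (mem_sdiff.mp this).1
      rw [hx] at hsd
      simp only [mem_insert, mem_singleton] at hxT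
      rcases hxT with rfl | rfl | rfl | rfl
      · have hI : I = {q1, p, p'} := by
          rw [← hsd]
          ext r
          simp only [mem_sdiff, mem_insert, mem_singleton]
          constructor
          · rintro ⟨h3, h4⟩
            tauto
          · rintro (rfl | rfl | rfl)
            · exact ⟨by tauto, h01.symm⟩
            · exact ⟨by tauto, n0p.symm⟩
            · exact ⟨by tauto, n0p'.symm⟩
        have hns : ¬ I ⊆ {x, p, p'} := fun h3 => hq1n (h3 (by rw [hI]; simp))
        rw [if_neg hns, sub_zero]
        unfold dd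
        rw [hx, prod_singleton, hI]
        unfold cI
        rw [prod_insert (by simp [n1p, n1p']), prod_insert (by simp [hpp]), prod_singleton, s6, s1,
          s2]
        norm_num
      · have hI : I = {q0, p, p'} := by
          rw [← hsd]
          ext r
          simp only [mem_sdiff, mem_insert, mem_singleton]
          constructor
          · rintro ⟨h3, h4⟩
            tauto
          · rintro (rfl | rfl | rfl)
            · exact ⟨by tauto, h01⟩
            · exact ⟨by tauto, n1p.symm⟩
            · exact ⟨by tauto, n1p'.symm⟩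
        rw [if_pos hI.subset]
        have h5 : dd {q0, p, p'} I = 1 := by rw [hI]; exact dd_self _
        rw [h5]
        unfold dd
        rw [hx, prod_singleton, hI]
        unfold cI
        rw [prod_insert (by simp [n0p, n0p']), prod_insert (by simp [hpp]), prod_singleton, s5, s3,
          s4]
        norm_num
      · exfalso
        have hI : I = {q0, q1, p'} := by
          rw [← hsd]
          ext r
          simp only [mem_sdiff, mem_insert, mem_singleton]
          constructor
          · rintro ⟨h3, h4⟩
            tauto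
          · rintro (rfl | rfl | rfl)
            · exact ⟨by tauto, n0p⟩
            · exact ⟨by tauto, n1p⟩
            · exact ⟨by tauto, hpp.symm⟩
        rw [hI] at hodd
        unfold cI at hodd
        rw [prod_insert (by simp [h01, n0p']), prod_insert (by simp [n1p']), prod_singleton, e0,
          e1, e3] at hodd
        norm_num at hodd
      · exfalso
        have hI : I = {q0, q1, p} := by
          rw [← hsd]
          ext r
          simp only [mem_sdiff, mem_insert, mem_singleton]
          constructor
          · rintro ⟨h3, h4⟩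
            tauto
          · rintro (rfl | rfl | rfl)
            · exact ⟨by tauto, n0p'⟩
            · exact ⟨by tauto, n1p'⟩
            · exact ⟨by tauto, hpp⟩
        rw [hI] at hodd
        unfold cI at hodd
        rw [prod_insert (by simp [h01, n0p]), prod_insert (by simp [n1p]), prod_singleton, e0,
          e1, e2] at hodd
        norm_num at hodd

end Pool.Agent.Lib.MP_938ce2_ag_h99v
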