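import Pool.Agent.Lib.MP_938ce2_ag_h99v.TD

/-!
Indicator functions of integers.
-/

set_option autoImplicit false
set_option linter.style.haveILetI false
set_option linter.unusedSectionVars false

open Finset

namespace Pool.Agent.Lib.MP_938ce2_ag_h99v

open Pool.Agent.Lib.MP_938ce2_ag_h99 Pool.Agent.Lib.MP_938ce2_ag_h6
open Pool.Agent.Lib.MP_938ce2_ag_h99t

private lemma t01_flip {p : ℕ} (hp : p.Prime) {x y : ℤ} (hy : ¬ (p : ℤ) ∣ y)
    (h : ch p x = - ch p y) : th p x = 1 - th p y := by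
  unfold th
  rcases ch_sign hp hy with h1 | h1
  · rw [h, h1, if_neg (by norm_num), if_pos rfl]
    norm_num
  · rw [h, h1, if_pos (by norm_num), if_neg (by norm_num)]
    norm_num

lemma th_per (p : ℕ) : Per (ep p) (th p) := by
  intro a b h
  unfold th
  rw [ch_congr h]

lemma hf_per (p : ℕ) : Per (ep p) (hf p) := by
  intro a b h
  unfold hf
  have h1 : a % (ep p : ℤ) = b % (ep p : ℤ) :=
    (Int.modEq_iff_dvd.mpr h : b ≡ a [ZMOD (ep p : ℤ)]).symm
  rw [h1]

lemma th_neg_one {p : ℕ} (hp : p.Prime) (h : p % 4 = 1) (k : ℤ) : th p (-k) = th p k := by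
  unfold th
  have h1 : ch p (-k) = ch p k := by
    rw [neg_eq_neg_one_mul, ch_mul, ch_neg_one_four hp h, one_mul]
  rw [h1]

lemma th_neg_three {p : ℕ} (hp : p.Prime) (h : p = 2 ∨ p % 4 = 3) {k : ℤ}
    (hk : ¬ (p : ℤ) ∣ k) : th p (-k) = 1 - th p k :=
  t01_flip hp hk (ch_neg hp h k)

lemma hf_neg {p : ℕ} (hp : p.Prime) (h : p ≠ 2) {k : ℤ} (hk : ¬ (p : ℤ) ∣ k) :
    hf p (-k) = 1 - hf p k := by
  have hep : ep p = p := by unfold ep; rw [if_neg h]
  unfold hf
  rw [hep]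
  have h2 : p % 2 = 1 := hp.eq_two_or_odd.resolve_left h
  have hp0 : 0 < (p : ℤ) := by exact_mod_cast hp.pos
  have h3 : (p : ℤ) % 2 = 1 := by exact_mod_cast h2
  have h4 : 0 ≤ k % (p : ℤ) := Int.emod_nonneg _ hp0.ne'
  have h5 : k % (p : ℤ) < p := Int.emod_lt_of_pos _ hp0
  have h6 : k % (p : ℤ) ≠ 0 := fun h0 => hk (Int.dvd_of_emod_eq_zero h0)
  have h7 : (-k) % (p : ℤ) = p - k % (p : ℤ) := by
    have h8 : (-k) % (p : ℤ) = (p - k % (p : ℤ)) % (p : ℤ) := by
      have : (p - k % (p : ℤ)) ≡ -k [ZMOD (p : ℤ)] := by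
        rw [Int.modEq_iff_dvd]
        refine ⟨-(k / (p : ℤ)) - 1, ?_⟩
        have := Int.emod_add_mul_ediv k (p : ℤ)
        linear_combination this
      exact this.symm
    rw [h8]
    exact Int.emod_eq_of_lt (by omega) (by omega)
  rw [h7]
  split_ifs <;> omega

/-- multiplication by an integer with character value one or minus one -/
lemma th_mul {p : ℕ} (hp : p.Prime) {a k : ℤ} (hk : ¬ (p : ℤ) ∣ k) :
    (ch p a = 1 → th p (a * k) = th p k) ∧ (ch p a = -1 → th p (a * k) = 1 - th p k) := by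
  constructor
  · intro h
    unfold th
    rw [ch_mul, h, one_mul]
  · intro h
    refine t01_flip hp hk ?_
    rw [ch_mul, h, neg_one_mul]

end Pool.Agent.Lib.MP_938ce2_ag_h99v
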