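import Pool.Agent.Lib.MP_938ce2_ag_h99v.F4D
import Pool.Agent.Lib.MP_938ce2_ag_h99v.T01

/-!
Identities between the functions for four primes.
-/

set_option autoImplicit false
set_option linter.style.haveILetI false
set_option linter.unusedSectionVars false

open Finset

namespace Pool.Agent.Lib.MP_938ce2_ag_h99v

open Pool.Agent.Lib.MP_938ce2_ag_h99 Pool.Agent.Lib.MP_938ce2_ag_h6
open Pool.Agent.Lib.MP_938ce2_ag_h99t

/-- the difference of the first function, minus the set with three primes -/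
lemma four_C {q0 q1 p p' : ℕ} (hq0 : q0.Prime) (hp : p.Prime) (hp' : p'.Prime)
    (s3 : ch p q1 = 1) (s4 : ch p' q1 = -1) (s5 : ch q0 q1 = 1) {k : ℤ}
    (k0 : ¬ (q0 : ℤ) ∣ k) (k2 : ¬ (p : ℤ) ∣ k) (k3 : ¬ (p' : ℤ) ∣ k) :
    A4 q0 p p' k - A4 q0 p p' (q1 * k) - (2 * th q0 k - 1) * th p k * th p' k
      = P4 q0 p k + R4 q1 p p' k := by
  have e1 : th q0 (q1 * k) = th q0 k := (th_mul hq0 k0).1 s5
  have e2 : th p (q1 * k) = th p k := (th_mul hp k2).1 s3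
  have e3 : th p' (q1 * k) = 1 - th p' k := (th_mul hp' k3).2 s4
  unfold A4 P4 R4
  rw [e1, e2, e3]
  ring

/-- the difference of the second function -/
lemma four_D {q0 q1 p p' : ℕ} (hq1 : q1.Prime) (hp : p.Prime) (hp' : p'.Prime)
    (s1 : ch p q0 = -1) (s2 : ch p' q0 = 1) (s6 : ch q1 q0 = -1) {k : ℤ}
    (k1 : ¬ (q1 : ℤ) ∣ k) (k2 : ¬ (p : ℤ) ∣ k) (k3 : ¬ (p' : ℤ) ∣ k) :
    B4 q1 p p' k - B4 q1 p p' (q0 * k) = Q4 q1 p' k + U4 q0 p p' k := by
  have e1 : th q1 (q0 * k) = 1 - th q1 k := (th_mul hq1 k1).2 s6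
  have e2 : th p (q0 * k) = 1 - th p k := (th_mul hp k2).2 s1
  have e3 : th p' (q0 * k) = th p' k := (th_mul hp' k3).1 s2
  unfold B4 Q4 U4
  rw [e1, e2, e3]
  ring

end Pool.Agent.Lib.MP_938ce2_ag_h99v
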