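import Pool.Agent.Lib.MP_938ce2_ag_h99v.F4D
import Pool.Agent.Lib.MP_938ce2_ag_h99v.T01

/-!
Periodicity and oddness of the functions for four primes.
-/

set_option autoImplicit false
set_option linter.style.haveILetI false
set_option linter.unusedSectionVars false

open Finset

namespace Pool.Agent.Lib.MP_938ce2_ag_h99v

open Pool.Agent.Lib.MP_938ce2_ag_h99 Pool.Agent.Lib.MP_938ce2_ag_h6
open Pool.Agent.Lib.MP_938ce2_ag_h99t

private lemma F3_th {f r : ℕ} (h : ep r ∣ f) {a b : ℤ} (hab : (f : ℤ) ∣ a - b) : th r a = th r b :=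
  th_per r a b ((Int.natCast_dvd_natCast.mpr h).trans hab)

private lemma F3_hf {f r : ℕ} (h : ep r ∣ f) {a b : ℤ} (hab : (f : ℤ) ∣ a - b) : hf r a = hf r b :=
  hf_per r a b ((Int.natCast_dvd_natCast.mpr h).trans hab)

private lemma F3_mul {f : ℕ} {a b : ℤ} (q : ℤ) (hab : (f : ℤ) ∣ a - b) :
    (f : ℤ) ∣ q * a - q * b := by
  rw [← mul_sub]
  exact hab.mul_left q

private lemma F3_ndvd {r f : ℕ} (hr : r.Prime) (h : r ∣ f) {k : ℤ} (hk : IsCoprime k (f : ℤ)) :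
    ¬ (r : ℤ) ∣ k := by
  intro h1
  have h2 := hk.isUnit_of_dvd' h1 (Int.natCast_dvd_natCast.mpr h)
  exact (Nat.prime_iff_prime_int.mp hr).not_isUnit h2

private lemma F3_qk {p : ℕ} {q : ℕ} (hp : p.Prime) (h : ch p q ≠ 0) {k : ℤ} (hk : ¬ (p : ℤ) ∣ k) :
    ¬ (p : ℤ) ∣ (q : ℤ) * k := by
  intro h1
  rcases (Nat.prime_iff_prime_int.mp hp).dvd_or_dvd h1 with h2 | h2
  · exact h (ch_zero hp (Int.natCast_dvd_natCast.mp h2))
  · exact hk h2

lemma four_per {f q p p' : ℕ} (h1 : ep q ∣ f) (h2 : ep p ∣ f) (h3 : ep p' ∣ f) :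
    Per f (A4 q p p') ∧ Per f (B4 q p p') := by
  constructor
  · intro a b hab
    unfold A4
    rw [F3_th h1 hab, F3_th h2 hab, F3_th h3 hab, F3_hf h2 hab]
  · intro a b hab
    unfold B4
    rw [F3_th h1 hab, F3_th h2 hab, F3_th h3 hab, F3_hf h2 hab]

lemma four_per2 {f q p p' : ℕ} (h2 : ep p ∣ f) (h3 : ep p' ∣ f) :
    Per f (R4 q p p') ∧ Per f (U4 q p p') := by
  constructor
  · intro a b hab
    have hab' := F3_mul (q : ℤ) hab
    unfold R4
    rw [F3_th h2 hab, F3_th h3 hab, F3_hf h2 hab, F3_th h2 hab', F3_hf h2 hab']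
  · intro a b hab
    have hab' := F3_mul (q : ℤ) hab
    unfold U4
    rw [F3_th h2 hab, F3_th h3 hab, F3_hf h2 hab, F3_th h2 hab', F3_hf h2 hab', F3_hf h3 hab]

lemma four_per3 {f q p : ℕ} (h1 : ep q ∣ f) (h2 : ep p ∣ f) :
    Per f (P4 q p) ∧ Per f (Q4 q p) := by
  constructor
  · intro a b hab
    unfold P4
    rw [F3_th h1 hab, F3_th h2 hab, F3_hf h2 hab]
  · intro a b hab
    unfold Q4
    rw [F3_th h1 hab, F3_th h2 hab, F3_hf h2 hab]

lemma A4_odd {q p p' : ℕ} (hq : q.Prime) (hp : p.Prime) (hp' : p'.Prime) (h0 : q % 4 = 3)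
    (hp4 : p % 4 = 1) (hp4' : p' % 4 = 1) : OddA (q * p * p') (A4 q p p') := by
  intro k hk
  have k0 := F3_ndvd hq ⟨p * p', by ring⟩ hk
  have k1 := F3_ndvd hp ⟨q * p', by ring⟩ hk
  unfold A4
  rw [th_neg_three hq (Or.inr h0) k0, th_neg_one hp hp4, th_neg_one hp' hp4',
    hf_neg hp (by omega) k1]
  ring

lemma B4_odd {q p p' : ℕ} (hq : q.Prime) (hp : p.Prime) (hp' : p'.Prime) (h0 : q % 4 = 3)
    (hp4 : p % 4 = 1) (hp4' : p' % 4 = 1) : OddA (q * p * p') (B4 q p p') := by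
  intro k hk
  have k0 := F3_ndvd hq ⟨p * p', by ring⟩ hk
  have k1 := F3_ndvd hp ⟨q * p', by ring⟩ hk
  unfold B4
  rw [th_neg_three hq (Or.inr h0) k0, th_neg_one hp hp4, th_neg_one hp' hp4',
    hf_neg hp (by omega) k1]
  ring

lemma P4_odd {q p : ℕ} (hq : q.Prime) (hp : p.Prime) (h0 : q % 4 = 3) (hp4 : p % 4 = 1) :
    OddA (q * p) (P4 q p) := by
  intro k hk
  have k0 := F3_ndvd hq (Nat.dvd_mul_right _ _) hk
  have k1 := F3_ndvd hp (Nat.dvd_mul_left _ _) hk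
  unfold P4
  rw [th_neg_three hq (Or.inr h0) k0, th_neg_one hp hp4, hf_neg hp (by omega) k1]
  ring

lemma Q4_odd {q p : ℕ} (hq : q.Prime) (hp : p.Prime) (h0 : q % 4 = 3) (hp4 : p % 4 = 1) :
    OddA (q * p) (Q4 q p) := by
  intro k hk
  have k0 := F3_ndvd hq (Nat.dvd_mul_right _ _) hk
  have k1 := F3_ndvd hp (Nat.dvd_mul_left _ _) hk
  unfold Q4
  rw [th_neg_three hq (Or.inr h0) k0, th_neg_one hp hp4, hf_neg hp (by omega) k1]
  ring

/-- `q` prime to `p`, `ch p q = 1` -/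
lemma R4_odd {q p p' : ℕ} (hp : p.Prime) (hp' : p'.Prime) (hp4 : p % 4 = 1) (hp4' : p' % 4 = 1)
    (s3 : ch p q = 1) : OddA (p * p') (R4 q p p') := by
  intro k hk
  have k0 := F3_ndvd hp (Nat.dvd_mul_right _ _) hk
  have k1 := F3_qk hp (by rw [s3]; norm_num) k0 (q := q)
  have e : (q : ℤ) * -k = -((q : ℤ) * k) := by ring
  unfold R4
  rw [e, th_neg_one hp hp4, th_neg_one hp hp4, th_neg_one hp' hp4', hf_neg hp (by omega) k0,
    hf_neg hp (by omega) k1, (th_mul hp k0).1 s3]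
  ring

/-- `q` prime to `p`, `ch p q = -1` -/
lemma U4_odd {q p p' : ℕ} (hp : p.Prime) (hp' : p'.Prime) (hp4 : p % 4 = 1) (hp4' : p' % 4 = 1)
    (s1 : ch p q = -1) : OddA (p * p') (U4 q p p') := by
  intro k hk
  have k0 := F3_ndvd hp (Nat.dvd_mul_right _ _) hk
  have k2 := F3_ndvd hp' (Nat.dvd_mul_left _ _) hk
  have k1 := F3_qk hp (by rw [s1]; norm_num) k0 (q := q)
  have e : (q : ℤ) * -k = -((q : ℤ) * k) := by ring
  unfold U4
  rw [e, th_neg_one hp hp4, th_neg_one hp hp4, th_neg_one hp' hp4', hf_neg hp (by omega) k0,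
    hf_neg hp (by omega) k1, hf_neg hp' (by omega) k2, (th_mul hp k0).2 s1]
  ring

end Pool.Agent.Lib.MP_938ce2_ag_h99v
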