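import Pool.Agent.Lib.MP_938ce2_ag_h99v.P02

/-!
The sets `BJ` as functions of integers (`BJ` is in h99t/Theta.lean, use `mem_BE_iff`, `BJ_supp`, `BJ_eq`).
-/

set_option autoImplicit false
set_option linter.style.haveILetI false
set_option linter.unusedSectionVars false

open Finset

namespace Pool.Agent.Lib.MP_938ce2_ag_h99v

open Pool.Agent.Lib.MP_938ce2_ag_h99 Pool.Agent.Lib.MP_938ce2_ag_h6
open Pool.Agent.Lib.MP_938ce2_ag_h99t

variable {m : ℕ} [NeZero m]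

private lemma pt_mem_BE {J : Finset ℕ} (hm : fJ J ∣ m) (k : ℤ) :
    pt m (fJ J) k ∈ BE m J 1 ↔ ∀ q ∈ J, ch q k = 1 := by
  haveI : NeZero (fJ J) := ⟨f_ne_zero hm⟩
  set n : ℕ := (k : ZMod (fJ J)).val with hn
  have h0 : ((fJ J : ℕ) : ℤ) ∣ (n : ℤ) - k := by
    rw [← ZMod.intCast_zmod_eq_zero_iff_dvd]
    push_cast
    rw [hn, ZMod.natCast_zmod_val, sub_self]
  have h1 : pt m (fJ J) k = ((m / fJ J * n : ℕ) : ZMod m) := by
    rw [← pt_congr hm h0, pt_eq_jj hm, Int.cast_natCast, jj_natCast hm]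
  rw [h1, mem_BE_iff hm]
  refine forall₂_congr fun q hq => ?_
  have h2 : ch q (n : ℤ) = ch q k :=
    ch_congr ((Int.natCast_dvd_natCast.mpr (ep_dvd_fJ hq)).trans h0)
  rw [h2]
  simp

/-- `BJ` as a function of integers -/
lemma BJ_pl {J : Finset ℕ} (hJ : PJ J) (hne : J.Nonempty) (hm : fJ J ∣ m) :
    oddPart (BJ m J) = pl m (fJ J) (fun k => (if ∀ p ∈ J, ch p k = 1 then 1 else 0)
      - (if ∀ p ∈ J, ch p (-k) = 1 then 1 else 0)) := by
  classical
  funext a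
  by_cases ha : addOrderOf a = fJ J
  · obtain ⟨k, hk, rfl⟩ := exists_pt ha
    have hper : Per (fJ J) (fun k => ((if ∀ p ∈ J, ch p k = 1 then 1 else 0)
      - (if ∀ p ∈ J, ch p (-k) = 1 then 1 else 0) : ℤ)) := by
      intro a b hab
      have h1 : (∀ p ∈ J, ch p a = 1) ↔ ∀ p ∈ J, ch p b = 1 := by
        refine forall₂_congr fun q hq => ?_
        rw [ch_congr ((Int.natCast_dvd_natCast.mpr (ep_dvd_fJ hq)).trans hab)]
      have h2 : (∀ p ∈ J, ch p (-a) = 1) ↔ ∀ p ∈ J, ch p (-b) = 1 := by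
        refine forall₂_congr fun q hq => ?_
        have h3 : ((fJ J : ℕ) : ℤ) ∣ -a - -b := by
          have h4 := (dvd_neg (α := ℤ)).mpr hab
          rwa [neg_sub, ← neg_sub_neg] at h4
        rw [ch_congr ((Int.natCast_dvd_natCast.mpr (ep_dvd_fJ hq)).trans h3)]
      simp only [h1, h2]
    rw [pl_pt hm hper hk]
    unfold oddPart
    rw [BJ_eq, ← pt_neg, Multiset.count_eq_of_nodup (BE m J 1).nodup,
      Multiset.count_eq_of_nodup (BE m J 1).nodup]
    have e1 : (pt m (fJ J) k ∈ (BE m J 1).val) ↔ ∀ p ∈ J, ch p k = 1 := pt_mem_BE hm k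
    have e2 : (pt m (fJ J) (-k) ∈ (BE m J 1).val) ↔ ∀ p ∈ J, ch p (-k) = 1 := pt_mem_BE hm (-k)
    simp only [e1, e2]
    push_cast
    rfl
  · rw [pl_of_ne ha]
    by_contra h
    exact ha (BJ_supp hJ hm h)

end Pool.Agent.Lib.MP_938ce2_ag_h99v
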