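import Pool.Agent.Lib.MP_938ce2_ag_h99v.P02

/-!
One prime is removed from the level of a function of integers.
-/

set_option autoImplicit false
set_option linter.style.haveILetI false
set_option linter.unusedSectionVars false

open Finset

namespace Pool.Agent.Lib.MP_938ce2_ag_h99v

open Pool.Agent.Lib.MP_938ce2_ag_h99 Pool.Agent.Lib.MP_938ce2_ag_h6
open Pool.Agent.Lib.MP_938ce2_ag_h99t

variable {m : ℕ} [NeZero m]

private lemma p04_mul_pt {r f : ℕ} (hr : r ≠ 0) (hm : r * f ∣ m) (k : ℤ) :
    (r : ZMod m) * pt m (r * f) k = pt m f k := by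
  have hm0 : m ≠ 0 := NeZero.ne m
  have hf0 : f ≠ 0 := by
    rintro rfl
    rw [mul_zero] at hm
    exact hm0 (Nat.eq_zero_of_zero_dvd hm)
  unfold pt
  have h1 : m / f = r * (m / (r * f)) := by
    obtain ⟨c, rfl⟩ := hm
    rw [Nat.mul_div_cancel_left c (Nat.pos_of_ne_zero (mul_ne_zero hr hf0))]
    rw [show r * f * c = f * (r * c) by ring, Nat.mul_div_cancel_left _ (Nat.pos_of_ne_zero hf0)]
  rw [h1]
  push_cast
  ring

private lemma p04_mul_pt' {f : ℕ} (r : ℕ) (k : ℤ) :
    (r : ZMod m) * pt m f k = pt m f (r * k) := by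
  unfold pt
  push_cast
  ring

private lemma p04_order (r : ℕ) (b : ZMod m) :
    addOrderOf ((r : ZMod m) * b) = addOrderOf b / Nat.gcd (addOrderOf b) r := by
  rw [← nsmul_eq_mul]
  exact addOrderOf_nsmul b

private lemma p04_rel {r f : ℕ} (hr : r.Prime) (hm : r * f ∣ m) {A : ℤ → ℤ} (hA : Per f A) :
    rel r (pl m f A) = pl m (r * f) A +
      (if r ∣ f then 0 else pl m f (fun k => A (r * k))) - pl m f A := by
  have hf : f ∣ m := (Dvd.intro_left r rfl).trans hm
  have hm0 : m ≠ 0 := NeZero.ne m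
  have hf0 : f ≠ 0 := by
    rintro rfl
    exact hm0 (Nat.eq_zero_of_zero_dvd hf)
  have hrf : r * f ≠ f := by
    intro h
    have h2 := hr.two_le
    have h3 : 0 < f := Nat.pos_of_ne_zero hf0
    nlinarith
  have hA' : Per (r * f) A := by
    intro a b h
    refine hA a b (dvd_trans ?_ h)
    push_cast
    exact Dvd.intro_left _ rfl
  have hAr : Per f (fun k => A (r * k)) := by
    intro a b h
    refine hA _ _ ?_
    rw [← mul_sub]
    exact dvd_mul_of_dvd_right h _
  funext b
  simp only [Pool.Agent.Lib.MP_938ce2_ag_h99.rel, Pi.add_apply, Pi.sub_apply]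
  by_cases h1 : addOrderOf b = r * f
  · obtain ⟨k, hk, rfl⟩ := exists_pt h1
    have hk' : IsCoprime k (f : ℤ) := by
      refine hk.of_isCoprime_of_dvd_right ?_
      push_cast
      exact Dvd.intro_left _ rfl
    rw [p04_mul_pt hr.ne_zero hm, pl_pt hf hA hk', pl_pt hm hA' hk]
    have h2 : pl m f A (pt m (r * f) k) = 0 := pl_of_ne (by rw [h1]; exact hrf)
    have h3 : (if r ∣ f then 0 else pl m f (fun k => A (r * k))) (pt m (r * f) k) = 0 := by
      split_ifs
      · rfl
      · exact pl_of_ne (by rw [h1]; exact hrf)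
    rw [h2, h3]
    ring
  · have h2 : pl m (r * f) A b = 0 := pl_of_ne h1
    rw [h2]
    by_cases h3 : addOrderOf b = f
    · by_cases h4 : r ∣ f
      · rw [if_pos h4]
        have h5 : pl m f A ((r : ZMod m) * b) = 0 := by
          refine pl_of_ne ?_
          rw [p04_order, h3, Nat.gcd_eq_right h4]
          exact (Nat.div_lt_self (Nat.pos_of_ne_zero hf0) hr.one_lt).ne
        rw [h5]
        simp
      · rw [if_neg h4]
        obtain ⟨k, hk, rfl⟩ := exists_pt h3
        have hrk : IsCoprime ((r : ℤ) * k) (f : ℤ) := by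
          refine IsCoprime.mul_left ?_ hk
          rw [Nat.isCoprime_iff_coprime]
          exact (Nat.Prime.coprime_iff_not_dvd hr).2 h4
        rw [p04_mul_pt', pl_pt hf hA hrk, pl_pt hf hAr hk]
        ring
    · have h4 : pl m f A b = 0 := pl_of_ne h3
      have h5 : (if r ∣ f then 0 else pl m f (fun k => A (r * k))) b = 0 := by
        split_ifs
        · rfl
        · exact pl_of_ne h3
      have h6 : pl m f A ((r : ZMod m) * b) = 0 := by
        refine pl_of_ne ?_
        rw [p04_order]
        intro h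
        by_cases h7 : r ∣ addOrderOf b
        · rw [Nat.gcd_eq_right h7] at h
          exact h1 (by rw [← h, Nat.mul_div_cancel' h7])
        · have h8 : Nat.gcd (addOrderOf b) r = 1 := by
            rw [Nat.gcd_comm]
            exact (Nat.Prime.coprime_iff_not_dvd hr).2 h7
          rw [h8, Nat.div_one] at h
          exact h3 h
      rw [h4, h5, h6]
      ring

private lemma p04_mem {r f : ℕ} (hr : r.Prime) (hm : r * f ∣ m) {A : ℤ → ℤ} (hA : Per f A)
    (ho : OddA f A) (hs : ∀ a : ZMod m, addOrderOf a = f → ∃ b, a = (r : ZMod m) * b) :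
    rel r (pl m f A) ∈ relSub m := by
  have hf : f ∣ m := (Dvd.intro_left r rfl).trans hm
  exact AddSubgroup.subset_closure ⟨r, pl m f A, hr, (Dvd.intro _ rfl).trans hm, pl_odd hf hA ho,
    fun a ha => hs a (pl_supp ha), rfl⟩

/-- The relation at `r`. For odd `r` it is `rel r (pl m f' A)`, with values `A k` at `k / (r f')`
and `A (r k) - A k` at `k / f'`. For `r = 2` it is the sum of `rel 2 (pl m (2 f') A)` (values `A k`
at `k / (4 f')` and `- A k` at `k / (2 f')`) and of `rel 2 (pl m f' A)` (values `A k` at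
`k / (2 f')` and `A (2 k) - A k` at `k / f'`). -/
theorem peel_pl {r f' : ℕ} (hr : r.Prime) (hrf : ¬ r ∣ f') (hm : ep r * f' ∣ m) {A : ℤ → ℤ}
    (hA : Per f' A) (ho : OddA f' A) :
    pl m (ep r * f') A - pl m f' (fun k => A k - A (r * k)) ∈ relSub m := by
  have hm0 : m ≠ 0 := NeZero.ne m
  have hrm : r * f' ∣ m := by
    refine dvd_trans ?_ hm
    refine Nat.mul_dvd_mul_right ?_ f'
    unfold ep
    split_ifs with h
    · rw [h]; norm_num
    · exact dvd_rfl
  -- every element of order `f'` is divisible by `r`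
  have hs : ∀ a : ZMod m, addOrderOf a = f' → ∃ b, a = (r : ZMod m) * b := by
    intro a ha
    obtain ⟨k, hk, rfl⟩ := exists_pt ha
    have hc : IsCoprime (r : ℤ) (f' : ℤ) := by
      rw [Nat.isCoprime_iff_coprime]
      exact (Nat.Prime.coprime_iff_not_dvd hr).2 hrf
    obtain ⟨x, y, hxy⟩ := hc
    refine ⟨pt m f' (x * k), ?_⟩
    rw [p04_mul_pt']
    refine pt_congr ((Dvd.intro_left r rfl).trans hrm) ?_
    refine ⟨y * k, ?_⟩
    linear_combination (-k) * hxy
  have h0 := p04_rel hr hrm hA
  rw [if_neg hrf] at h0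
  have hmem0 := p04_mem hr hrm hA ho hs
  by_cases h2 : r = 2
  · subst h2
    have he : ep 2 = 4 := rfl
    rw [he] at hm ⊢
    have hm4 : 2 * (2 * f') ∣ m := by
      rw [← mul_assoc]
      exact hm
    have hA2 : Per (2 * f') A := by
      intro a b h
      refine hA a b (dvd_trans ?_ h)
      push_cast
      exact Dvd.intro_left _ rfl
    have ho2 : OddA (2 * f') A := by
      intro k hk
      refine ho k (hk.of_isCoprime_of_dvd_right ?_)
      push_cast
      exact Dvd.intro_left _ rfl
    have h1 := p04_rel Nat.prime_two hm4 hA2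
    rw [if_pos (Dvd.intro _ rfl)] at h1
    have hs2 : ∀ a : ZMod m, addOrderOf a = 2 * f' → ∃ b, a = ((2 : ℕ) : ZMod m) * b := by
      intro a ha
      obtain ⟨k, hk, rfl⟩ := exists_pt ha
      exact ⟨pt m (2 * (2 * f')) k, (p04_mul_pt two_ne_zero hm4 k).symm⟩
    have hmem1 := p04_mem Nat.prime_two hm4 hA2 ho2 hs2
    have hsum := (relSub m).add_mem hmem1 hmem0
    rw [h1, h0] at hsum
    have e1 : 2 * (2 * f') = 4 * f' := by ring
    rw [e1] at hsum
    rw [pl_sub]
    convert hsum using 1
    abel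
  · have he : ep r = r := if_neg h2
    rw [he, pl_sub]
    rw [h0] at hmem0
    convert hmem0 using 1
    abel

end Pool.Agent.Lib.MP_938ce2_ag_h99v
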