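import Pool.Agent.Lib.MP_938ce2_ag_h99v.F02
import Pool.Agent.Lib.MP_938ce2_ag_h99v.F03
import Pool.Agent.Lib.MP_938ce2_ag_h99v.P03
import Pool.Agent.Lib.MP_938ce2_ag_h99v.P04

/-!
The sets with four and three primes and the pairs.
-/

set_option autoImplicit false
set_option linter.style.haveILetI false
set_option linter.unusedSectionVars false

open Finset

namespace Pool.Agent.Lib.MP_938ce2_ag_h99v

open Pool.Agent.Lib.MP_938ce2_ag_h99 Pool.Agent.Lib.MP_938ce2_ag_h6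
open Pool.Agent.Lib.MP_938ce2_ag_h99t

variable {m : ℕ} [NeZero m]

private lemma F4_mono {f g : ℕ} (h : f ∣ g) {A : ℤ → ℤ} (hA : Per f A) : Per g A := fun a b hab =>
  hA a b ((Int.natCast_dvd_natCast.mpr h).trans hab)

private lemma F4_comp {f : ℕ} {A : ℤ → ℤ} (hA : Per f A) (c : ℤ) : Per f (fun k => A (c * k)) := by
  intro a b hab
  apply hA
  rw [← mul_sub]
  exact hab.mul_left c

private lemma F4_sub {f : ℕ} {A B : ℤ → ℤ} (hA : Per f A) (hB : Per f B) :
    Per f (fun k => A k - B k) := by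
  intro a b hab
  show A a - B a = A b - B b
  rw [hA a b hab, hB a b hab]

private lemma F4_add {f : ℕ} {A B : ℤ → ℤ} (hA : Per f A) (hB : Per f B) :
    Per f (fun k => A k + B k) := by
  intro a b hab
  show A a + B a = A b + B b
  rw [hA a b hab, hB a b hab]

private lemma F4_mul {f : ℕ} {A B : ℤ → ℤ} (hA : Per f A) (hB : Per f B) :
    Per f (fun k => A k * B k) := by
  intro a b hab
  show A a * B a = A b * B b
  rw [hA a b hab, hB a b hab]

private lemma F4_ndvd {r f : ℕ} (hr : r.Prime) (h : r ∣ f) {k : ℤ} (hk : IsCoprime k (f : ℤ)) :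
    ¬ (r : ℤ) ∣ k := by
  intro h1
  have h2 := hk.isUnit_of_dvd' h1 (Int.natCast_dvd_natCast.mpr h)
  exact (Nat.prime_iff_prime_int.mp hr).not_isUnit h2

private lemma F4_ep {r : ℕ} (h : r % 2 = 1) : ep r = r := by
  unfold ep
  rw [if_neg (by omega)]

private lemma F4_th (p : ℕ) (k : ℤ) : th p k = 0 ∨ th p k = 1 := by
  unfold th
  split_ifs
  · exact Or.inr rfl
  · exact Or.inl rfl

private lemma F4_peel {r f g : ℕ} (hr : r.Prime) (h2 : r % 2 = 1) (hrf : ¬ r ∣ f) (hg : g = r * f)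
    (hm : g ∣ m) {A : ℤ → ℤ} (hA : Per f A) (ho : OddA f A) :
    pl m g A - pl m f (fun k => A k - A (r * k)) ∈ relSub m := by
  have h := peel_pl (m := m) hr hrf (by rw [F4_ep h2, ← hg]; exact hm) hA ho
  rw [F4_ep h2, ← hg] at h
  exact h

private lemma F4_four {q0 q1 p p' : ℕ} (hq0 : q0.Prime) (hq1 : q1.Prime) (hp : p.Prime)
    (hp' : p'.Prime) (h0 : q0 % 4 = 3) (h1 : q1 % 4 = 3) (hp4 : p % 4 = 1) (hp4' : p' % 4 = 1)
    (h01 : q0 ≠ q1) (hpp : p ≠ p') (hm : q0 * q1 * p * p' ∣ m) :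
    oddPart (BJ m {q0, q1, p, p'}) = pl m (q0 * q1 * p * p') (A4 q0 p p')
      + pl m (q0 * q1 * p * p') (B4 q1 p p') := by
  have hn1 : q0 ∉ ({q1, p, p'} : Finset ℕ) := by
    simp only [mem_insert, mem_singleton, not_or]
    exact ⟨h01, by rintro rfl; omega, by rintro rfl; omega⟩
  have hn2 : q1 ∉ ({p, p'} : Finset ℕ) := by
    simp only [mem_insert, mem_singleton, not_or]
    exact ⟨by rintro rfl; omega, by rintro rfl; omega⟩
  have hn3 : p ∉ ({p'} : Finset ℕ) := by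
    rw [mem_singleton]
    exact hpp
  have hf : fJ ({q0, q1, p, p'} : Finset ℕ) = q0 * q1 * p * p' := by
    unfold fJ
    rw [prod_insert hn1, prod_insert hn2, prod_insert hn3, prod_singleton, F4_ep (by omega),
      F4_ep (by omega), F4_ep (by omega), F4_ep (by omega)]
    ring
  have hJ : PJ ({q0, q1, p, p'} : Finset ℕ) := by
    intro r hr
    simp only [mem_insert, mem_singleton] at hr
    rcases hr with rfl | rfl | rfl | rfl <;> assumption
  have d0 : q0 ∣ q0 * q1 * p * p' := ⟨q1 * p * p', by ring⟩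
  have d1 : q1 ∣ q0 * q1 * p * p' := ⟨q0 * p * p', by ring⟩
  have d2 : p ∣ q0 * q1 * p * p' := ⟨q0 * q1 * p', by ring⟩
  have d3 : p' ∣ q0 * q1 * p * p' := ⟨q0 * q1 * p, by ring⟩
  have e0 := F4_ep (r := q0) (by omega)
  have e1 := F4_ep (r := q1) (by omega)
  have e2 := F4_ep (r := p) (by omega)
  have e3 := F4_ep (r := p') (by omega)
  have hP0 := four_per (f := q0 * q1 * p * p') (q := q0) (p := p) (p' := p') (by rw [e0]; exact d0)
    (by rw [e2]; exact d2) (by rw [e3]; exact d3)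
  have hP1 := four_per (f := q0 * q1 * p * p') (q := q1) (p := p) (p' := p') (by rw [e1]; exact d1)
    (by rw [e2]; exact d2) (by rw [e3]; exact d3)
  have hfun : (fun k => (if ∀ r ∈ ({q0, q1, p, p'} : Finset ℕ), ch r k = 1 then (1 : ℤ) else 0)
      - (if ∀ r ∈ ({q0, q1, p, p'} : Finset ℕ), ch r (-k) = 1 then 1 else 0)) =
      fun k => th q0 k * (th q1 k * (th p k * th p' k)) -
        th q0 (-k) * (th q1 (-k) * (th p (-k) * th p' (-k))) := by
    have key : ∀ k : ℤ, (if ∀ r ∈ ({q0, q1, p, p'} : Finset ℕ), ch r k = 1 then (1 : ℤ) else 0) =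
        th q0 k * (th q1 k * (th p k * th p' k)) := by
      intro k
      simp only [forall_mem_insert, mem_singleton, forall_eq]
      unfold th
      by_cases c0 : ch q0 k = 1 <;> by_cases c1 : ch q1 k = 1 <;> by_cases c2 : ch p k = 1 <;>
        by_cases c3 : ch p' k = 1 <;> simp [c0, c1, c2, c3]
    funext k
    rw [key, key]
  rw [BJ_pl hJ ⟨q0, by simp⟩ (by rw [hf]; exact hm), hf, hfun, ← pl_add]
  have hneg : ∀ {r : ℕ}, r ∣ q0 * q1 * p * p' → ep r = r →
      Per (q0 * q1 * p * p') (th r) ∧ Per (q0 * q1 * p * p') (fun k => th r (-k)) := by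
    intro r hr er
    have h3 : Per (q0 * q1 * p * p') (th r) := F4_mono (by rw [er]; exact hr) (th_per r)
    refine ⟨h3, fun a b hab => ?_⟩
    apply h3
    have h4 : -a - -b = -(a - b) := by ring
    rw [h4]
    exact (dvd_neg).mpr hab
  have a0 := hneg d0 e0
  have a1 := hneg d1 e1
  have a2 := hneg d2 e2
  have a3 := hneg d3 e3
  refine pl_congr hm (F4_sub (F4_mul a0.1 (F4_mul a1.1 (F4_mul a2.1 a3.1)))
    (F4_mul a0.2 (F4_mul a1.2 (F4_mul a2.2 a3.2)))) (F4_add hP0.1 hP1.2) ?_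
  intro k hk
  have k0 := F4_ndvd hq0 d0 hk
  have k1 := F4_ndvd hq1 d1 hk
  show th q0 k * (th q1 k * (th p k * th p' k)) -
        th q0 (-k) * (th q1 (-k) * (th p (-k) * th p' (-k))) = A4 q0 p p' k + B4 q1 p p' k
  rw [th_neg_three hq0 (Or.inr h0) k0, th_neg_three hq1 (Or.inr h1) k1, th_neg_one hp hp4,
    th_neg_one hp' hp4']
  unfold A4 B4
  ring

private lemma F4_three {q0 p p' : ℕ} (hq0 : q0.Prime) (hp : p.Prime)
    (hp' : p'.Prime) (h0 : q0 % 4 = 3) (hp4 : p % 4 = 1) (hp4' : p' % 4 = 1)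
    (hpp : p ≠ p') (hm : q0 * p * p' ∣ m) :
    oddPart (BJ m {q0, p, p'}) =
      pl m (q0 * p * p') (fun k => (2 * th q0 k - 1) * th p k * th p' k) := by
  have hn2 : q0 ∉ ({p, p'} : Finset ℕ) := by
    simp only [mem_insert, mem_singleton, not_or]
    exact ⟨by rintro rfl; omega, by rintro rfl; omega⟩
  have hn3 : p ∉ ({p'} : Finset ℕ) := by
    rw [mem_singleton]
    exact hpp
  have hf : fJ ({q0, p, p'} : Finset ℕ) = q0 * p * p' := by
    unfold fJ
    rw [prod_insert hn2, prod_insert hn3, prod_singleton, F4_ep (by omega),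
      F4_ep (by omega), F4_ep (by omega)]
    ring
  have hJ : PJ ({q0, p, p'} : Finset ℕ) := by
    intro r hr
    simp only [mem_insert, mem_singleton] at hr
    rcases hr with rfl | rfl | rfl <;> assumption
  have d0 : q0 ∣ q0 * p * p' := ⟨p * p', by ring⟩
  have d2 : p ∣ q0 * p * p' := ⟨q0 * p', by ring⟩
  have d3 : p' ∣ q0 * p * p' := ⟨q0 * p, by ring⟩
  have e0 := F4_ep (r := q0) (by omega)
  have e2 := F4_ep (r := p) (by omega)
  have e3 := F4_ep (r := p') (by omega)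
  have hfun : (fun k => (if ∀ r ∈ ({q0, p, p'} : Finset ℕ), ch r k = 1 then (1 : ℤ) else 0)
      - (if ∀ r ∈ ({q0, p, p'} : Finset ℕ), ch r (-k) = 1 then 1 else 0)) =
      fun k => th q0 k * (th p k * th p' k) -
        th q0 (-k) * (th p (-k) * th p' (-k)) := by
    have key : ∀ k : ℤ, (if ∀ r ∈ ({q0, p, p'} : Finset ℕ), ch r k = 1 then (1 : ℤ) else 0) =
        th q0 k * (th p k * th p' k) := by
      intro k
      simp only [forall_mem_insert, mem_singleton, forall_eq]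
      unfold th
      by_cases c0 : ch q0 k = 1 <;> by_cases c2 : ch p k = 1 <;>
        by_cases c3 : ch p' k = 1 <;> simp [c0, c2, c3]
    funext k
    rw [key, key]
  rw [BJ_pl hJ ⟨q0, by simp⟩ (by rw [hf]; exact hm), hf, hfun]
  have hneg : ∀ {r : ℕ}, r ∣ q0 * p * p' → ep r = r →
      Per (q0 * p * p') (th r) ∧ Per (q0 * p * p') (fun k => th r (-k)) := by
    intro r hr er
    have h3 : Per (q0 * p * p') (th r) := F4_mono (by rw [er]; exact hr) (th_per r)
    refine ⟨h3, fun a b hab => ?_⟩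
    apply h3
    have h4 : -a - -b = -(a - b) := by ring
    rw [h4]
    exact (dvd_neg).mpr hab
  have a0 := hneg d0 e0
  have a2 := hneg d2 e2
  have a3 := hneg d3 e3
  have hR : Per (q0 * p * p') (fun k => (2 * th q0 k - 1) * th p k * th p' k) := by
    intro a b hab
    show (2 * th q0 a - 1) * th p a * th p' a = (2 * th q0 b - 1) * th p b * th p' b
    rw [a0.1 a b hab, a2.1 a b hab, a3.1 a b hab]
  refine pl_congr hm (F4_sub (F4_mul a0.1 (F4_mul a2.1 a3.1))
    (F4_mul a0.2 (F4_mul a2.2 a3.2))) hR ?_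
  intro k hk
  have k0 := F4_ndvd hq0 d0 hk
  show th q0 k * (th p k * th p' k) -
        th q0 (-k) * (th p (-k) * th p' (-k)) = (2 * th q0 k - 1) * th p k * th p' k
  rw [th_neg_three hq0 (Or.inr h0) k0, th_neg_one hp hp4, th_neg_one hp' hp4']
  ring

/-- Up to relations. `oddPart (BJ m {q0, q1, p, p'})` is
`pl m (q0 q1 p p') (A4 q0 p p') + pl m (q0 q1 p p') (B4 q1 p p')` (`BJ_pl`, `pl_congr`); `peel_pl` at
`q1` and at `q0`; `oddPart (BJ m {q0, p, p'})` is `pl m (q0 p p') ((2 th q0 k - 1) th p k th p' k)`;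
use `four_C`, `four_D` with `pl_congr`, and again `peel_pl`: at `p'` for `P4`, at `q0` for `R4`, at
`p` for `Q4`, at `q1` for `U4`. -/
theorem four_peel {q0 q1 p p' : ℕ} (hq0 : q0.Prime) (hq1 : q1.Prime) (hp : p.Prime)
    (hp' : p'.Prime) (h0 : q0 % 4 = 3) (h1 : q1 % 4 = 3) (hp4 : p % 4 = 1) (hp4' : p' % 4 = 1)
    (h01 : q0 ≠ q1) (hpp : p ≠ p') (s1 : ch p q0 = -1) (s2 : ch p' q0 = 1) (s3 : ch p q1 = 1)
    (s4 : ch p' q1 = -1) (s5 : ch q0 q1 = 1) (s6 : ch q1 q0 = -1) (hm : q0 * q1 * p * p' ∣ m) :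
    oddPart (BJ m {q0, q1, p, p'}) - oddPart (BJ m {q0, p, p'})
      - (pl m (q0 * p) (fun k => P4 q0 p k - P4 q0 p (p' * k))
        + pl m (p * p') (fun k => R4 q1 p p' k - R4 q1 p p' (q0 * k)
          + (U4 q0 p p' k - U4 q0 p p' (q1 * k)))
        + pl m (q1 * p') (fun k => Q4 q1 p' k - Q4 q1 p' (p * k))) ∈ relSub m := by
  have hodd0 : q0 % 2 = 1 := by omega
  have hodd1 : q1 % 2 = 1 := by omega
  have hoddp : p % 2 = 1 := by omega
  have hoddp' : p' % 2 = 1 := by omega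
  have e0 := F4_ep hodd0
  have e1 := F4_ep hodd1
  have e2 := F4_ep hoddp
  have e3 := F4_ep hoddp'
  have n0p : q0 ≠ p := by rintro rfl; omega
  have n0p' : q0 ≠ p' := by rintro rfl; omega
  have n1p : q1 ≠ p := by rintro rfl; omega
  have n1p' : q1 ≠ p' := by rintro rfl; omega
  have hm3 : q0 * p * p' ∣ m := (Dvd.intro q1 (by ring)).trans hm
  have hm3' : q1 * p * p' ∣ m := (Dvd.intro q0 (by ring)).trans hm
  have nd : ∀ {r a b c : ℕ}, r.Prime → a.Prime → b.Prime → c.Prime → r ≠ a → r ≠ b → r ≠ c →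
      ¬ r ∣ a * b * c := by
    intro r a b c hr ha hb hc h1 h2 h3 h
    rcases (Nat.Prime.dvd_mul hr).mp h with h | h
    · rcases (Nat.Prime.dvd_mul hr).mp h with h | h
      · exact h1 ((Nat.prime_dvd_prime_iff_eq hr ha).mp h)
      · exact h2 ((Nat.prime_dvd_prime_iff_eq hr hb).mp h)
    · exact h3 ((Nat.prime_dvd_prime_iff_eq hr hc).mp h)
  have nd2 : ∀ {r a b : ℕ}, r.Prime → a.Prime → b.Prime → r ≠ a → r ≠ b → ¬ r ∣ a * b := by
    intro r a b hr ha hb h1 h2 h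
    rcases (Nat.Prime.dvd_mul hr).mp h with h | h
    · exact h1 ((Nat.prime_dvd_prime_iff_eq hr ha).mp h)
    · exact h2 ((Nat.prime_dvd_prime_iff_eq hr hb).mp h)
  -- periodicity at the level q0 p p'
  have d0 : q0 ∣ q0 * p * p' := ⟨p * p', by ring⟩
  have d2 : p ∣ q0 * p * p' := ⟨q0 * p', by ring⟩
  have d3 : p' ∣ q0 * p * p' := ⟨q0 * p, by ring⟩
  have f1 : q1 ∣ q1 * p * p' := ⟨p * p', by ring⟩
  have f2 : p ∣ q1 * p * p' := ⟨q1 * p', by ring⟩
  have f3 : p' ∣ q1 * p * p' := ⟨q1 * p, by ring⟩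
  have PA := four_per (f := q0 * p * p') (q := q0) (p := p) (p' := p') (by rw [e0]; exact d0)
    (by rw [e2]; exact d2) (by rw [e3]; exact d3)
  have PB := four_per (f := q1 * p * p') (q := q1) (p := p) (p' := p') (by rw [e1]; exact f1)
    (by rw [e2]; exact f2) (by rw [e3]; exact f3)
  have PP := four_per3 (f := q0 * p) (q := q0) (p := p) (by rw [e0]; exact Nat.dvd_mul_right _ _)
    (by rw [e2]; exact Nat.dvd_mul_left _ _)
  have PQ := four_per3 (f := q1 * p') (q := q1) (p := p') (by rw [e1]; exact Nat.dvd_mul_right _ _)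
    (by rw [e3]; exact Nat.dvd_mul_left _ _)
  have PR := four_per2 (f := p * p') (q := q1) (p := p) (p' := p')
    (by rw [e2]; exact Nat.dvd_mul_right _ _) (by rw [e3]; exact Nat.dvd_mul_left _ _)
  have PU := four_per2 (f := p * p') (q := q0) (p := p) (p' := p')
    (by rw [e2]; exact Nat.dvd_mul_right _ _) (by rw [e3]; exact Nat.dvd_mul_left _ _)
  -- the relations
  have r1 := F4_peel (m := m) (g := q0 * q1 * p * p') hq1 hodd1
    (nd hq1 hq0 hp hp' h01.symm n1p n1p') (by ring) hm PA.1 (A4_odd hq0 hp hp' h0 hp4 hp4')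
  have r2 := F4_peel (m := m) (g := q0 * q1 * p * p') hq0 hodd0
    (nd hq0 hq1 hp hp' h01 n0p n0p') (by ring) hm PB.2 (B4_odd hq1 hp hp' h1 hp4 hp4')
  have r3 := F4_peel (m := m) (g := q0 * p * p') hp' hoddp'
    (nd2 hp' hq0 hp n0p'.symm hpp.symm) (by ring) hm3 PP.1 (P4_odd hq0 hp h0 hp4)
  have r4 := F4_peel (m := m) (g := q0 * p * p') hq0 hodd0
    (nd2 hq0 hp hp' n0p n0p') (by ring) hm3 PR.1 (R4_odd hp hp' hp4 hp4' s3)
  have r5 := F4_peel (m := m) (g := q1 * p * p') hp hoddp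
    (nd2 hp hq1 hp' n1p.symm hpp) (by ring) hm3' PQ.2 (Q4_odd hq1 hp' h1 hp4')
  have r6 := F4_peel (m := m) (g := q1 * p * p') hq1 hodd1
    (nd2 hq1 hp hp' n1p n1p') (by ring) hm3' PU.2 (U4_odd hp hp' hp4 hp4' s1)
  -- the identities
  have PA' : Per (q0 * p * p') (fun k => A4 q0 p p' k - A4 q0 p p' (q1 * k)) :=
    F4_sub PA.1 (F4_comp PA.1 _)
  have hth3 : Per (q0 * p * p') (fun k => (2 * th q0 k - 1) * th p k * th p' k) := by
    intro a b hab
    show (2 * th q0 a - 1) * th p a * th p' a = (2 * th q0 b - 1) * th p b * th p' b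
    rw [F4_mono (g := q0 * p * p') (by rw [e0]; exact d0) (th_per q0) a b hab,
      F4_mono (g := q0 * p * p') (by rw [e2]; exact d2) (th_per p) a b hab,
      F4_mono (g := q0 * p * p') (by rw [e3]; exact d3) (th_per p') a b hab]
  have i1 : pl m (q0 * p * p') (fun k => A4 q0 p p' k - A4 q0 p p' (q1 * k)
      - (2 * th q0 k - 1) * th p k * th p' k)
      = pl m (q0 * p * p') (fun k => P4 q0 p k + R4 q1 p p' k) := by
    refine pl_congr hm3 (F4_sub PA' hth3) (F4_add (F4_mono ⟨p', by ring⟩ PP.1)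
      (F4_mono ⟨q0, by ring⟩ PR.1)) ?_
    intro k hk
    exact four_C hq0 hp hp' s3 s4 s5 (F4_ndvd hq0 d0 hk) (F4_ndvd hp d2 hk) (F4_ndvd hp' d3 hk)
  have i2 : pl m (q1 * p * p') (fun k => B4 q1 p p' k - B4 q1 p p' (q0 * k))
      = pl m (q1 * p * p') (fun k => Q4 q1 p' k + U4 q0 p p' k) := by
    refine pl_congr hm3' (F4_sub PB.2 (F4_comp PB.2 _)) (F4_add (F4_mono ⟨p, by ring⟩ PQ.2)
      (F4_mono ⟨q1, by ring⟩ PU.2)) ?_
    intro k hk
    exact four_D hq1 hp hp' s1 s2 s6 (F4_ndvd hq1 f1 hk) (F4_ndvd hp f2 hk) (F4_ndvd hp' f3 hk)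
  rw [pl_sub (q0 * p * p') (fun k => A4 q0 p p' k - A4 q0 p p' (q1 * k)), pl_add] at i1
  rw [pl_add] at i2
  have hsum := (relSub m).add_mem ((relSub m).add_mem ((relSub m).add_mem r1 r2)
    ((relSub m).add_mem r3 r4)) ((relSub m).add_mem r5 r6)
  rw [F4_four hq0 hq1 hp hp' h0 h1 hp4 hp4' h01 hpp hm, F4_three hq0 hp hp' h0 hp4 hp4' hpp hm3,
    pl_add (p * p') (fun k => R4 q1 p p' k - R4 q1 p p' (q0 * k))]
  convert hsum using 1
  have i1' : pl m (q0 * p * p') (fun k => A4 q0 p p' k - A4 q0 p p' (q1 * k)) =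
      pl m (q0 * p * p') (P4 q0 p) + pl m (q0 * p * p') (R4 q1 p p') +
        pl m (q0 * p * p') (fun k => (2 * th q0 k - 1) * th p k * th p' k) := by
    rw [← i1]
    abel
  rw [i1', i2]
  abel

end Pool.Agent.Lib.MP_938ce2_ag_h99v
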