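import Pool.Agent.Lib.MP_938ce2_ag_h99v.F03

/-!
Parities of the functions for four primes.
-/

set_option autoImplicit false
set_option linter.style.haveILetI false
set_option linter.unusedSectionVars false

open Finset

namespace Pool.Agent.Lib.MP_938ce2_ag_h99v

open Pool.Agent.Lib.MP_938ce2_ag_h99 Pool.Agent.Lib.MP_938ce2_ag_h6
open Pool.Agent.Lib.MP_938ce2_ag_h99t

private lemma ep_odd' {p : ℕ} (h : p ≠ 2) : ep p = p := by
  unfold ep
  rw [if_neg h]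

private lemma ch_one'' (q : ℕ) : ch q 1 = 1 := by
  unfold ch
  split_ifs
  · simp
  · exact jacobiSym.one_left q

private lemma th_one' (q : ℕ) : th q 1 = 1 := by
  unfold th
  rw [if_pos (ch_one'' q)]

private lemma not_dvd_one' {p : ℕ} (hp : p.Prime) : ¬ (p : ℤ) ∣ 1 := by
  intro h
  have h1 : (p : ℤ) ∣ ((1 : ℕ) : ℤ) := by exact_mod_cast h
  exact hp.one_lt.ne' (Nat.dvd_one.mp (Int.natCast_dvd_natCast.mp h1))

private lemma hf_one' {p : ℕ} (hp : p.Prime) (h : p ≠ 2) : hf p 1 = 1 := by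
  unfold hf
  rw [ep_odd' h]
  have h3 : 3 ≤ p := by
    have := hp.two_le
    omega
  have h1 : (1 : ℤ) % (p : ℤ) = 1 := Int.emod_eq_of_lt (by norm_num) (by exact_mod_cast hp.one_lt)
  rw [h1, if_pos]
  have : (3 : ℤ) ≤ (p : ℤ) := by exact_mod_cast h3
  linarith

private lemma hf_neg_one' {p : ℕ} (hp : p.Prime) (h : p ≠ 2) : hf p (-1) = 0 := by
  rw [hf_neg hp h (not_dvd_one' hp), hf_one' hp h]
  norm_num

/-- values at an integer which is one modulo `p` -/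
private lemma at_one {p : ℕ} (h : p ≠ 2) {a b : ℤ} (hab : (p : ℤ) ∣ a - b) :
    th p a = th p b ∧ hf p a = hf p b := by
  have h1 : (ep p : ℤ) ∣ a - b := by rwa [ep_odd' h]
  exact ⟨th_per p a b h1, hf_per p a b h1⟩

private lemma th_of_ch {p : ℕ} {k : ℤ} (h : ch p k = 1) : th p k = 1 := by
  unfold th
  rw [if_pos h]

private lemma th_of_ch' {p : ℕ} {k : ℤ} (h : ch p k = -1) : th p k = 0 := by
  unfold th
  rw [if_neg (by rw [h]; norm_num)]

private lemma dvd_mul_sub {p : ℕ} {c a b : ℤ} (h : (p : ℤ) ∣ a - b) : (p : ℤ) ∣ c * a - c * b := by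
  rw [← mul_sub]
  exact h.mul_left c

private lemma sub_neg' {p : ℕ} {k : ℤ} (h : (p : ℤ) ∣ k + 1) : (p : ℤ) ∣ k - (-1) := by
  rwa [sub_neg_eq_add]

private lemma ch_neg' {p : ℕ} (hp : p.Prime) (h : p % 4 = 1) (k : ℤ) :
    ch p (k * -1) = ch p k := by
  rw [ch_mul, ch_neg_one_four hp h, mul_one]

/-- the pair `p, p'`: odd -/
lemma par_pp {q0 q1 p p' : ℕ} (hq0 : q0.Prime) (hq1 : q1.Prime) (hp : p.Prime) (hp' : p'.Prime)
    (h0 : q0 % 4 = 3) (h1 : q1 % 4 = 3) (hp4 : p % 4 = 1) (hp4' : p' % 4 = 1)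
    (s1 : ch p q0 = -1) (s2 : ch p' q0 = 1) (s3 : ch p q1 = 1) (s4 : ch p' q1 = -1) {k : ℤ}
    (hk1 : (p : ℤ) ∣ k - 1) (hk2 : (p' : ℤ) ∣ k + 1) :
    Odd ((R4 q1 p p' 1 - R4 q1 p p' (q0 * 1) + (U4 q0 p p' 1 - U4 q0 p p' (q1 * 1)))
      + (R4 q1 p p' k - R4 q1 p p' (q0 * k) + (U4 q0 p p' k - U4 q0 p p' (q1 * k)))) := by
  have n2 : p ≠ 2 := by omega
  have n2' : p' ≠ 2 := by omega
  have hk2' := sub_neg' hk2
  -- values at one
  have a1 := th_one' p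
  have a2 := th_one' p'
  have a3 := hf_one' hp n2
  have a4 := hf_one' hp' n2'
  have b1 : th p (q0 : ℤ) = 0 := th_of_ch' s1
  have b2 : th p' (q0 : ℤ) = 1 := th_of_ch s2
  have b4 : th p' (q1 : ℤ) = 0 := th_of_ch' s4
  -- values at `k`
  have c1 : th p k = 1 := by rw [(at_one n2 hk1).1, a1]
  have c2 : th p' k = 1 := by
    rw [(at_one n2' hk2').1]
    exact th_of_ch (ch_neg_one_four hp' hp4')
  have c3 : hf p k = 1 := by rw [(at_one n2 hk1).2, a3]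
  have c4 : hf p' k = 0 := by rw [(at_one n2' hk2').2, hf_neg_one' hp' n2']
  have d1 : th p (q0 * k) = 0 := by
    rw [(at_one n2 (dvd_mul_sub hk1)).1, mul_one, b1]
  have d2 : th p' (q0 * k) = 1 := by
    rw [(at_one n2' (dvd_mul_sub hk2')).1]
    apply th_of_ch
    rw [ch_neg' hp' hp4', s2]
  have d4 : th p' (q1 * k) = 0 := by
    rw [(at_one n2' (dvd_mul_sub hk2')).1]
    apply th_of_ch'
    rw [ch_neg' hp' hp4', s4]
  unfold R4 U4
  simp only [mul_one, a1, a2, a3, a4, b1, b2, b4, c1, c2, c3, c4, d1, d2, d4]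
  norm_num

private lemma par_aux {q p p' : ℕ} (hp : p.Prime) (hp4 : p % 4 = 1) (hq2 : q ≠ 2)
    (s : ch p p' = 1) {k : ℤ} (hk1 : (q : ℤ) ∣ k - 1) (hk2 : (p : ℤ) ∣ k + 1) :
    ((th p 1 * hf p 1 - th q 1 * th p 1)
        - (th p (p' * 1) * hf p (p' * 1) - th q (p' * 1) * th p (p' * 1)))
      + ((th p k * hf p k - th q k * th p k)
        - (th p (p' * k) * hf p (p' * k) - th q (p' * k) * th p (p' * k)))
      = 2 * (th q p' - 1) := by
  have n2 : p ≠ 2 := by omega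
  have hk2' := sub_neg' hk2
  have a1 := th_one' p
  have a2 := th_one' q
  have a3 := hf_one' hp n2
  have b1 : th p (p' : ℤ) = 1 := th_of_ch s
  have c1 : th p k = 1 := by
    rw [(at_one n2 hk2').1]
    exact th_of_ch (ch_neg_one_four hp hp4)
  have c2 : hf p k = 0 := by rw [(at_one n2 hk2').2, hf_neg_one' hp n2]
  have c3 : th q k = 1 := by rw [(at_one hq2 hk1).1, a2]
  have d1 : th p (p' * k) = 1 := by
    rw [(at_one n2 (dvd_mul_sub hk2')).1]
    apply th_of_ch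
    rw [ch_neg' hp hp4, s]
  have hnd : ¬ (p : ℤ) ∣ (p' : ℤ) := by
    intro h
    have h1 : ch p (p' : ℤ) = 0 := by
      unfold ch
      rw [if_neg n2]
      rw [jacobiSym.eq_zero_iff]
      refine ⟨hp.ne_zero, ?_⟩
      intro h2
      have h3 : (p : ℤ) ∣ 1 := by
        have := Int.dvd_gcd h (dvd_refl (p : ℤ))
        rw [h2] at this
        exact_mod_cast this
      exact not_dvd_one' hp h3
    rw [h1] at s
    norm_num at s
  have d2 : hf p (p' * k) = 1 - hf p p' := by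
    rw [(at_one n2 (dvd_mul_sub hk2')).2]
    have : (p' : ℤ) * -1 = -(p' : ℤ) := by ring
    rw [this, hf_neg hp n2 hnd]
  have d3 : th q (p' * k) = th q p' := by
    rw [(at_one hq2 (dvd_mul_sub hk1)).1, mul_one]
  rw [mul_one, a1, a2, a3, b1, c1, c2, c3, d1, d2, d3]
  ring

/-- the pair `q0, p`: even if `ch p p' = 1` -/
lemma par_qp {q0 p p' : ℕ} (hq0 : q0.Prime) (hp : p.Prime) (hp' : p'.Prime)
    (h0 : q0 % 4 = 3) (hp4 : p % 4 = 1) (hp4' : p' % 4 = 1) (s : ch p p' = 1) {k : ℤ}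
    (hk1 : (q0 : ℤ) ∣ k - 1) (hk2 : (p : ℤ) ∣ k + 1) :
    Even ((P4 q0 p 1 - P4 q0 p (p' * 1)) + (P4 q0 p k - P4 q0 p (p' * k))) := by
  have h := par_aux hp hp4 (show q0 ≠ 2 by omega) s hk1 hk2
  unfold P4
  rw [h]
  exact even_two_mul _

/-- the pair `q1, p'`: even if `ch p' p = 1` -/
lemma par_qp' {q1 p p' : ℕ} (hq1 : q1.Prime) (hp : p.Prime) (hp' : p'.Prime)
    (h1 : q1 % 4 = 3) (hp4 : p % 4 = 1) (hp4' : p' % 4 = 1) (s : ch p' p = 1) {k : ℤ}
    (hk1 : (q1 : ℤ) ∣ k - 1) (hk2 : (p' : ℤ) ∣ k + 1) :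
    Even ((Q4 q1 p' 1 - Q4 q1 p' (p * 1)) + (Q4 q1 p' k - Q4 q1 p' (p * k))) := by
  have h := par_aux hp' hp4' (show q1 ≠ 2 by omega) s hk1 hk2
  unfold Q4
  refine ⟨1 - th q1 p, ?_⟩
  linear_combination -h

end Pool.Agent.Lib.MP_938ce2_ag_h99v
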