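import Pool.Agent.Lib.MP_938ce2_ag_h99v.PlD

/-!
Levels with one or two primes: definitions.
-/

set_option autoImplicit false
set_option linter.style.haveILetI false
set_option linter.unusedSectionVars false

open Finset

namespace Pool.Agent.Lib.MP_938ce2_ag_h99v

open Pool.Agent.Lib.MP_938ce2_ag_h99 Pool.Agent.Lib.MP_938ce2_ag_h6
open Pool.Agent.Lib.MP_938ce2_ag_h99t

variable {m : ℕ} [NeZero m]

/-- odd Tate functions in `X ⊔ relSub m` -/
structure InX (X : AddSubgroup (ZMod m → ℤ)) (F : ZMod m → ℤ) : Prop where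
  mem : F ∈ X ⊔ relSub m
  odd : OddF F
  tate : TateF F

/-- the result of removing the order `f` -/
structure Rem (X : AddSubgroup (ZMod m → ℤ)) (f : ℕ) (F F' : ZMod m → ℤ) : Prop where
  inX : InX X F'
  top : ∀ a, addOrderOf a = f → F' a = 0
  dvd : ∀ a, F' a ≠ F a → addOrderOf a ∣ f

/-- the class of the pair `p, q` belongs to `X` -/
def PX (X : AddSubgroup (ZMod m → ℤ)) (p q : ℕ) : Prop :=
  ∃ E : ZMod m → ℤ, InX X E ∧
    (∀ a, E a ≠ 0 → addOrderOf a ∣ Nat.lcm 2 (ep p * ep q) ∧ addOrderOf a ≤ ep p * ep q) ∧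
    ∃ k : ℤ, (ep p : ℤ) ∣ k - 1 ∧ (ep q : ℤ) ∣ k + 1 ∧
      Odd (E (pt m (ep p * ep q) 1) + E (pt m (ep p * ep q) k))

/-- even parity at the pair `a, b` -/
def ParE (F : ZMod m → ℤ) (a b : ℕ) : Prop :=
  ∀ k : ℤ, (ep a : ℤ) ∣ k - 1 → (ep b : ℤ) ∣ k + 1 →
    Even (F (pt m (ep a * ep b) 1) + F (pt m (ep a * ep b) k))

/-- odd parity at the pair `a, b` -/
def ParO (F : ZMod m → ℤ) (a b : ℕ) : Prop :=
  ∀ k : ℤ, (ep a : ℤ) ∣ k - 1 → (ep b : ℤ) ∣ k + 1 →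
    Odd (F (pt m (ep a * ep b) 1) + F (pt m (ep a * ep b) k))

end Pool.Agent.Lib.MP_938ce2_ag_h99v
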