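import Pool.Agent.Lib.MP_938ce2_ag_h99v.P01

/-!
Invariance of the combinations of the sets.
-/

set_option autoImplicit false
set_option linter.style.haveILetI false
set_option linter.unusedSectionVars false

open Finset

namespace Pool.Agent.Lib.MP_938ce2_ag_h99v

open Pool.Agent.Lib.MP_938ce2_ag_h99 Pool.Agent.Lib.MP_938ce2_ag_h6
open Pool.Agent.Lib.MP_938ce2_ag_h99t

variable {m : ℕ} [NeZero m]

private lemma ch_one' (q : ℕ) : ch q 1 = 1 := by
  unfold ch
  split_ifs
  · simp
  · exact jacobiSym.one_left q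

private lemma prime_dvd_ep {q a : ℕ} (hq : q.Prime) (ha : a.Prime) (h : q ∣ ep a) : q = a := by
  unfold ep at h
  split_ifs at h with h2
  · subst h2
    have h3 : q ∣ 2 := hq.dvd_of_dvd_pow (show q ∣ 2 ^ 2 from h)
    exact (Nat.prime_dvd_prime_iff_eq hq Nat.prime_two).mp h3
  · exact (Nat.prime_dvd_prime_iff_eq hq ha).mp h

/-- The values at `1` and at `k` agree: there is a unit `z` of `ZMod m` with `z = k` modulo
`ep a * ep p` and `z = 1` modulo `ep q` for the other elements `q` of `T` (Chinese remainder theorem,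
`ZMod.unitsMap_surjective`), and `ch q z = 1` for all `q` in `T` since `ch p (-1) = 1`. -/
lemma flip_E {T : Finset ℕ} (hT : PJ T) (hm : fJ T ∣ m) {E : ZMod m → ℤ}
    (hE : ∀ z : (ZMod m)ˣ, (∀ q ∈ T, ch q ((z : ZMod m).val : ℤ) = 1) →
      ∀ a, E ((z : ZMod m) * a) = E a) {a p : ℕ} (ha : a ∈ T) (hp : p ∈ T) (hap : a ≠ p)
    (hp4 : p % 4 = 1) {k : ℤ} (hk1 : (ep a : ℤ) ∣ k - 1) (hk2 : (ep p : ℤ) ∣ k + 1) :
    E (pt m (ep a * ep p) k) = E (pt m (ep a * ep p) 1) := by
  classical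
  haveI : NeZero (fJ T) := ⟨(fJ_pos hT).ne'⟩
  have hS : ({a, p} : Finset ℕ) ⊆ T := by
    intro x hx
    rcases mem_insert.mp hx with rfl | hx
    · exact ha
    · rw [mem_singleton.mp hx]; exact hp
  set g : ℕ := fJ (T \ {a, p}) with hg
  set f : ℕ := ep a * ep p with hf
  have hfg : fJ T = g * f := by
    rw [hg, hf]
    unfold fJ
    rw [← prod_sdiff hS, prod_pair hap]
  have hco : Nat.Coprime f g := by
    rw [hg, coprime_fJ_iff (hT.mono sdiff_subset)]
    intro q hq hqf
    rw [mem_sdiff, mem_insert, mem_singleton, not_or] at hq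
    rcases (hT q hq.1).dvd_mul.mp hqf with h | h
    · exact hq.2.1 (prime_dvd_ep (hT q hq.1) (hT a ha) h)
    · exact hq.2.2 (prime_dvd_ep (hT q hq.1) (hT p hp) h)
  obtain ⟨u, v, huv⟩ := Nat.isCoprime_iff_coprime.mpr hco
  set w : ℤ := k * (v * g) + u * f with hw
  have hwf : (f : ℤ) ∣ w - k := ⟨u * (1 - k), by rw [hw]; linear_combination k * huv⟩
  have hwg : (g : ℤ) ∣ w - 1 := ⟨v * (k - 1), by rw [hw]; linear_combination huv⟩
  have hka : IsCoprime k (ep a : ℤ) := by
    obtain ⟨c, hc⟩ := hk1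
    exact ⟨1, -c, by linear_combination hc⟩
  have hkp : IsCoprime k (ep p : ℤ) := by
    obtain ⟨c, hc⟩ := hk2
    exact ⟨-1, c, by linear_combination -hc⟩
  have hkf : IsCoprime k (f : ℤ) := by
    rw [hf]
    push_cast
    exact hka.mul_right hkp
  have hwf' : IsCoprime w (f : ℤ) := by
    obtain ⟨c, hc⟩ := hwf
    have : w = k + f * c := by linear_combination hc
    rw [this]
    exact hkf.add_mul_left_left c
  have hwg' : IsCoprime w (g : ℤ) := by
    obtain ⟨c, hc⟩ := hwg
    exact ⟨1, -c, by linear_combination hc⟩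
  have hwT : IsCoprime w (fJ T : ℤ) := by
    rw [hfg]
    push_cast
    exact hwg'.mul_right hwf'
  obtain ⟨z, hz⟩ := ZMod.unitsMap_surjective hm (ZMod.unitOfIsCoprime w hwT)
  have hzw : ((fJ T : ℕ) : ℤ) ∣ ((z : ZMod m).val : ℤ) - w := by
    rw [← ZMod.intCast_zmod_eq_zero_iff_dvd]
    have h1 := congrArg (fun y : (ZMod (fJ T))ˣ => (y : ZMod (fJ T))) hz
    simp only [ZMod.unitsMap_val, ZMod.coe_unitOfIsCoprime] at h1
    push_cast
    rw [← h1, ZMod.cast_eq_val, sub_self]
  have hEz := hE z (by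
    intro q hq
    rw [ch_congr ((Int.natCast_dvd_natCast.mpr (ep_dvd_fJ hq)).trans hzw)]
    by_cases hqa : q = a
    · subst hqa
      have h1 : (ep q : ℤ) ∣ w - 1 := by
        have h2 : (ep q : ℤ) ∣ (f : ℤ) := ⟨ep p, by rw [hf]; push_cast; ring⟩
        have h3 := dvd_add (h2.trans hwf) hk1
        rwa [sub_add_sub_cancel] at h3
      rw [ch_congr h1, ch_one']
    · by_cases hqp : q = p
      · subst hqp
        have h1 : (ep q : ℤ) ∣ w - (-1) := by
          have h2 : (ep q : ℤ) ∣ (f : ℤ) := ⟨ep a, by rw [hf]; push_cast; ring⟩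
          have h3 := dvd_add (h2.trans hwf) hk2
          have h4 : w - k + (k + 1) = w - (-1) := by ring
          rwa [h4] at h3
        rw [ch_congr h1, ch_neg_one_four (hT q hq) hp4]
      · have h1 : (ep q : ℤ) ∣ w - 1 := by
          refine (Int.natCast_dvd_natCast.mpr ?_).trans hwg
          rw [hg]
          apply ep_dvd_fJ
          rw [mem_sdiff, mem_insert, mem_singleton, not_or]
          exact ⟨hq, hqa, hqp⟩
        rw [ch_congr h1, ch_one']) (pt m f 1)
  have hfm : f ∣ m := (Dvd.intro_left g hfg.symm).trans hm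
  have h5 : (z : ZMod m) * pt m f 1 = pt m f k := by
    rw [pt_eq_jj hfm, pt_eq_jj hfm, jj_mul]
    congr 1
    have h6 : ZMod.castHom hfm (ZMod f) (z : ZMod m) = (k : ZMod f) := by
      conv_lhs => rw [← ZMod.natCast_zmod_val (z : ZMod m)]
      rw [map_natCast]
      have h7 : (f : ℤ) ∣ ((z : ZMod m).val : ℤ) - k := by
        have h8 : (f : ℤ) ∣ ((fJ T : ℕ) : ℤ) := ⟨g, by rw [hfg]; push_cast; ring⟩
        have h9 := dvd_add (h8.trans hzw) hwf
        rwa [sub_add_sub_cancel] at h9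
      have h10 := (ZMod.intCast_eq_intCast_iff_dvd_sub k ((z : ZMod m).val : ℤ) f).mpr h7
      rw [h10]
      push_cast
      rfl
    rw [h6]
    simp
  rw [← h5, hEz]

end Pool.Agent.Lib.MP_938ce2_ag_h99v
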