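import Pool.Agent.Lib.MP_938ce2_ag_h99v.F01
import Pool.Agent.Lib.MP_938ce2_ag_h99v.F04
import Pool.Agent.Lib.MP_938ce2_ag_h99v.F05
import Pool.Agent.Lib.MP_938ce2_ag_h99v.A03
import Pool.Agent.Lib.MP_938ce2_ag_h99v.T02
import Pool.Agent.Lib.MP_938ce2_ag_h99v.LD

/-!
The explicit function for four primes.
-/

set_option autoImplicit false
set_option linter.style.haveILetI false
set_option linter.unusedSectionVars false

open Finset

namespace Pool.Agent.Lib.MP_938ce2_ag_h99v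

open Pool.Agent.Lib.MP_938ce2_ag_h99 Pool.Agent.Lib.MP_938ce2_ag_h6
open Pool.Agent.Lib.MP_938ce2_ag_h99t

variable {m : ℕ} [NeZero m]

private lemma f06_rel_odd {F : ZMod m → ℤ} (h : F ∈ relSub m) : OddF F := by
  unfold relSub at h
  induction h using AddSubgroup.closure_induction with
  | mem x hx =>
    obtain ⟨p, g, -, -, hg, -, rfl⟩ := hx
    exact hg.rel p
  | zero => intro a; simp
  | add x y _ _ hx hy =>
    intro a
    rw [Pi.add_apply, Pi.add_apply, hx a, hy a]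
    ring
  | neg x _ hx =>
    intro a
    rw [Pi.neg_apply, Pi.neg_apply, hx a]

private lemma f06_ep {p : ℕ} (h : p ≠ 2) : ep p = p := by
  unfold ep
  rw [if_neg h]

private lemma f06_sub {J : Finset ℕ} {a b c d : ℕ} (hJ : J ⊆ {a, b, c, d}) (ha : a ∈ J)
    (hb : b ∉ J) (hc : J.card ≤ 2) (hac : a ≠ c) (had : a ≠ d) (hcd : c ≠ d) :
    J ⊆ {a, c} ∨ J ⊆ {a, d} := by
  by_contra hcon
  rw [not_or] at hcon
  obtain ⟨h1, h2⟩ := hcon
  rw [not_subset] at h1 h2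
  obtain ⟨x, hx, hx'⟩ := h1
  obtain ⟨y, hy, hy'⟩ := h2
  have hxm := hJ hx
  have hym := hJ hy
  simp only [mem_insert, mem_singleton, not_or] at hxm hym hx' hy'
  have hxd : x = d := by
    rcases hxm with h | h | h | h
    · exact absurd h hx'.1
    · exact absurd (h ▸ hx) hb
    · exact absurd h hx'.2
    · exact h
  have hyc : y = c := by
    rcases hym with h | h | h | h
    · exact absurd h hy'.1
    · exact absurd (h ▸ hy) hb
    · exact h
    · exact absurd h hy'.2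
  subst hxd
  subst hyc
  have h3 : ({a, y, x} : Finset ℕ) ⊆ J := by
    intro z hz
    simp only [mem_insert, mem_singleton] at hz
    rcases hz with rfl | rfl | rfl
    · exact ha
    · exact hy
    · exact hx
  have h4 := card_le_card h3
  rw [card_eq_three.mpr ⟨a, y, x, hac, had, hcd, rfl⟩] at h4
  omega

/-- the sets with at most two elements and an odd character -/
private lemma f06_class {q0 q1 p p' : ℕ} (hq0 : q0.Prime)
    (hq1 : q1.Prime) (hp : p.Prime) (hp' : p'.Prime) (h0 : q0 % 4 = 3) (h1 : q1 % 4 = 3)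
    (hp4 : p % 4 = 1) (hp4' : p' % 4 = 1) (h01 : q0 ≠ q1) (hpp : p ≠ p') {J : Finset ℕ}
    (hJ : J ⊆ {q0, q1, p, p'}) (hodd : cI J (-1) = -1) (hc : J.card ≤ 2) :
    (q0 ∈ J ∧ (J ⊆ {q0, p} ∨ J ⊆ {q0, p'})) ∨ (q1 ∈ J ∧ (J ⊆ {q1, p} ∨ J ⊆ {q1, p'})) := by
  have e0p : q0 ≠ p := by rintro rfl; omega
  have e0p' : q0 ≠ p' := by rintro rfl; omega
  have e1p : q1 ≠ p := by rintro rfl; omega
  have e1p' : q1 ≠ p' := by rintro rfl; omega
  by_cases c0 : q0 ∈ J
  · by_cases c1 : q1 ∈ J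
    · exfalso
      have h2 : ({q0, q1} : Finset ℕ) ⊆ J := by
        intro z hz
        simp only [mem_insert, mem_singleton] at hz
        rcases hz with rfl | rfl
        · exact c0
        · exact c1
      have h3 : ({q0, q1} : Finset ℕ) = J := by
        apply eq_of_subset_of_card_le h2
        rw [card_pair h01]
        exact hc
      rw [← h3] at hodd
      unfold cI at hodd
      rw [prod_pair h01, ch_neg_one hq0 (Or.inr h0), ch_neg_one hq1 (Or.inr h1)] at hodd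
      norm_num at hodd
    · exact Or.inl ⟨c0, f06_sub hJ c0 c1 hc e0p e0p' hpp⟩
  · by_cases c1 : q1 ∈ J
    · refine Or.inr ⟨c1, f06_sub (b := q0) ?_ c1 c0 hc e1p e1p' hpp⟩
      intro z hz
      have := hJ hz
      simp only [mem_insert, mem_singleton] at this ⊢
      tauto
    · exfalso
      have h2 : cI J (-1) = 1 := by
        unfold cI
        apply prod_eq_one
        intro z hz
        have := hJ hz
        simp only [mem_insert, mem_singleton] at this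
        rcases this with rfl | rfl | rfl | rfl
        · exact absurd hz c0
        · exact absurd hz c1
        · exact ch_neg_one_four hp hp4
        · exact ch_neg_one_four hp' hp4'
      rw [h2] at hodd
      norm_num at hodd

private lemma f06_cop {a b : ℕ} {k : ℤ} (h1 : (a : ℤ) ∣ k - 1) (h2 : (b : ℤ) ∣ k + 1) :
    IsCoprime k ((a * b : ℕ) : ℤ) := by
  push_cast
  refine IsCoprime.mul_right ?_ ?_
  · obtain ⟨s, hs⟩ := h1
    exact ⟨1, -s, by linear_combination hs⟩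
  · obtain ⟨s, hs⟩ := h2
    exact ⟨-1, s, by linear_combination -hs⟩

private lemma f06_dl {a b : ℕ} {x y : ℤ} (h : ((a * b : ℕ) : ℤ) ∣ x - y) (c : ℤ) :
    (a : ℤ) ∣ c * x - c * y ∧ (b : ℤ) ∣ c * x - c * y := by
  rw [← mul_sub]
  push_cast at h
  exact ⟨Dvd.dvd.mul_left ((Dvd.intro _ rfl).trans h) c,
    Dvd.dvd.mul_left ((Dvd.intro_left _ rfl).trans h) c⟩

private lemma f06_dl1 {a b : ℕ} {x y : ℤ} (h : ((a * b : ℕ) : ℤ) ∣ x - y) :
    (a : ℤ) ∣ x - y ∧ (b : ℤ) ∣ x - y := by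
  have := f06_dl h 1
  rwa [one_mul, one_mul] at this

private lemma f06_th {p : ℕ} (hp : p ≠ 2) {x y : ℤ} (h : (p : ℤ) ∣ x - y) : th p x = th p y := by
  apply th_per p
  rw [f06_ep hp]
  exact h

private lemma f06_hf {p : ℕ} (hp : p ≠ 2) {x y : ℤ} (h : (p : ℤ) ∣ x - y) : hf p x = hf p y := by
  apply hf_per p
  rw [f06_ep hp]
  exact h

private lemma f06_P {q p : ℕ} (hq : q ≠ 2) (hp : p ≠ 2) (c : ℤ) :
    Per (q * p) (fun k => P4 q p k - P4 q p (c * k)) := by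
  intro x y h
  obtain ⟨a1, a2⟩ := f06_dl1 h
  obtain ⟨b1, b2⟩ := f06_dl h c
  simp only [P4]
  rw [f06_th hq a1, f06_th hp a2, f06_hf hp a2, f06_th hq b1, f06_th hp b2, f06_hf hp b2]

private lemma f06_Q {q p : ℕ} (hq : q ≠ 2) (hp : p ≠ 2) (c : ℤ) :
    Per (q * p) (fun k => Q4 q p k - Q4 q p (c * k)) := by
  intro x y h
  obtain ⟨a1, a2⟩ := f06_dl1 h
  obtain ⟨b1, b2⟩ := f06_dl h c
  simp only [Q4]
  rw [f06_th hq a1, f06_th hp a2, f06_hf hp a2, f06_th hq b1, f06_th hp b2, f06_hf hp b2]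

private lemma f06_R {q0 q1 p p' : ℕ} (hp : p ≠ 2) (hp' : p' ≠ 2) :
    Per (p * p') (fun k => R4 q1 p p' k - R4 q1 p p' (q0 * k)
          + (U4 q0 p p' k - U4 q0 p p' (q1 * k))) := by
  intro x y h
  obtain ⟨a1, a2⟩ := f06_dl1 h
  obtain ⟨b1, b2⟩ := f06_dl h q0
  obtain ⟨c1, c2⟩ := f06_dl h q1
  have d1 := (f06_dl h ((q1 : ℤ) * q0)).1
  have e1 := (f06_dl h ((q0 : ℤ) * q1)).1
  rw [mul_assoc, mul_assoc] at d1 e1
  simp only [R4, U4]
  rw [f06_th hp a1, f06_th hp' a2, f06_hf hp a1, f06_hf hp' a2, f06_th hp b1, f06_th hp' b2,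
    f06_hf hp b1, f06_th hp c1, f06_th hp' c2, f06_hf hp c1, f06_hf hp' c2,
    f06_th hp d1, f06_hf hp d1, f06_th hp e1, f06_hf hp e1]

/-- The explicit function: `E0` from `exists_E1` for `T = {q0, q1, p, p'}`,
`S J := J ⊆ T ∧ cI J (-1) = -1 ∧ J.card ≤ 2` and `g = Sf T - Sf {q0, p, p'}` (`Sf_four`); `F` is the
sum of the three functions in `four_peel` minus `E0`. Parities: `par_pp`, `par_qp`, `par_qp'`,
`flip_E`. -/
theorem theta_four {X : AddSubgroup (ZMod m → ℤ)}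
    (hX : ∀ F ∈ thetaSub1 m, TateF F → F ∈ X) {q0 q1 p p' : ℕ} (hq0 : q0.Prime)
    (hq1 : q1.Prime) (hp : p.Prime) (hp' : p'.Prime) (h0 : q0 % 4 = 3) (h1 : q1 % 4 = 3)
    (hp4 : p % 4 = 1) (hp4' : p' % 4 = 1) (h01 : q0 ≠ q1) (hpp : p ≠ p') (s1 : ch p q0 = -1)
    (s2 : ch p' q0 = 1) (s3 : ch p q1 = 1) (s4 : ch p' q1 = -1) (s5 : ch q0 q1 = 1)
    (hm : q0 * q1 * p * p' ∣ m) :
    ∃ F : ZMod m → ℤ, InX X F ∧
      (∀ a, F a ≠ 0 → addOrderOf a ∣ p * p' ∨ addOrderOf a ∣ q0 * p ∨ addOrderOf a ∣ q0 * p' ∨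
        addOrderOf a ∣ q1 * p ∨ addOrderOf a ∣ q1 * p') ∧
      ParO F p p' ∧ ParE F q0 p' ∧ ParE F q1 p ∧
      (ch p p' = 1 → ParE F q0 p ∧ ParE F q1 p') := by
  have e0p : q0 ≠ p := by rintro rfl; omega
  have e0p' : q0 ≠ p' := by rintro rfl; omega
  have e1p : q1 ≠ p := by rintro rfl; omega
  have e1p' : q1 ≠ p' := by rintro rfl; omega
  have n0 : q0 ≠ 2 := by rintro rfl; omega
  have n1 : q1 ≠ 2 := by rintro rfl; omega
  have n2 : p ≠ 2 := by rintro rfl; omega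
  have n3 : p' ≠ 2 := by rintro rfl; omega
  have s6 : ch q1 q0 = -1 := by
    have := ch_anti hq0 hq1 h0 h1 h01
    rw [s5] at this
    linarith
  have hT : PJ ({q0, q1, p, p'} : Finset ℕ) := by
    intro x hx
    simp only [mem_insert, mem_singleton] at hx
    rcases hx with rfl | rfl | rfl | rfl <;> assumption
  have hfT : fJ ({q0, q1, p, p'} : Finset ℕ) = q0 * q1 * p * p' := by
    unfold fJ
    rw [prod_insert (by simp [h01, e0p, e0p']), prod_insert (by simp [e1p, e1p']),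
      prod_pair hpp, f06_ep n0, f06_ep n1, f06_ep n2, f06_ep n3]
    ring
  have hTm : fJ ({q0, q1, p, p'} : Finset ℕ) ∣ m := by rw [hfT]; exact hm
  have hsub : ({q0, p, p'} : Finset ℕ) ⊆ {q0, q1, p, p'} := by
    intro x hx
    simp only [mem_insert, mem_singleton] at hx ⊢
    tauto
  have hT' : PJ ({q0, p, p'} : Finset ℕ) := hT.mono hsub
  have hTm' : fJ ({q0, p, p'} : Finset ℕ) ∣ m := (fJ_dvd hsub).trans hTm
  obtain ⟨E0, hE1, hE2, hE3, hE4, hE5⟩ := exists_E1 hT hTm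
    (S := fun J => J ⊆ {q0, q1, p, p'} ∧ cI J (-1) = -1 ∧ J.card ≤ 2)
    (fun J hJ => ⟨hJ.1, hJ.2.1⟩)
    (Sf_four hq0 hq1 hp hp' h0 h1 hp4 hp4' h01 hpp s1 s2 s3 s4 s5)
  set H : ZMod m → ℤ := oddPart (BJ m {q0, q1, p, p'}) - oddPart (BJ m {q0, p, p'}) with hH
  set G : ZMod m → ℤ := pl m (q0 * p) (fun k => P4 q0 p k - P4 q0 p (p' * k))
        + pl m (p * p') (fun k => R4 q1 p p' k - R4 q1 p p' (q0 * k)
          + (U4 q0 p p' k - U4 q0 p p' (q1 * k)))
        + pl m (q1 * p') (fun k => Q4 q1 p' k - Q4 q1 p' (p * k)) with hG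
  have hHG : H - G ∈ relSub m :=
    four_peel hq0 hq1 hp hp' h0 h1 hp4 hp4' h01 hpp s1 s2 s3 s4 s5 s6 hm
  have hHodd : OddF H := (oddPart_odd _).sub (oddPart_odd _)
  have hHmem : H ∈ thetaSub1 m :=
    AddSubgroup.sub_mem _ (oddPart_BJ_mem1 hT hTm) (oddPart_BJ_mem1 hT' hTm')
  have hHE : TateF (H - E0) := by
    intro t
    have a1 := sum_BJ hT ⟨q0, by simp⟩ hTm t
    have a2 := sum_BJ hT' ⟨q0, by simp⟩ hTm' t
    have a3 := hE3 t
    have a4 : ((∑ a, (H - E0) a * (((t : ZMod m) * a).val : ℤ) : ℤ) : ℚ) = 0 := by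
      have a5 : (∑ a, (H - E0) a * (((t : ZMod m) * a).val : ℤ) : ℤ)
          = (∑ a, oddPart (BJ m {q0, q1, p, p'}) a * (((t : ZMod m) * a).val : ℤ))
            - (∑ a, oddPart (BJ m {q0, p, p'}) a * (((t : ZMod m) * a).val : ℤ))
            - ∑ a, E0 a * (((t : ZMod m) * a).val : ℤ) := by
        rw [← sum_sub_distrib, ← sum_sub_distrib]
        refine sum_congr rfl fun a _ => ?_
        rw [hH, Pi.sub_apply, Pi.sub_apply]
        ring
      rw [a5]
      rw [Int.cast_sub, Int.cast_sub, a1, a2, a3, Pi.sub_apply]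
      ring
    exact_mod_cast a4
  have hXm : H - E0 ∈ X := hX _ (AddSubgroup.sub_mem _ hHmem hE1) hHE
  have hFeq : G - E0 = (H - E0) - (H - G) := by abel
  have hEsupp : ∀ a, E0 a ≠ 0 → ∃ J : Finset ℕ, addOrderOf a = fJ J ∧
      ((q0 ∈ J ∧ (J ⊆ {q0, p} ∨ J ⊆ {q0, p'})) ∨ (q1 ∈ J ∧ (J ⊆ {q1, p} ∨ J ⊆ {q1, p'}))) := by
    intro a ha
    obtain ⟨J, ⟨b1, b2, b3⟩, b4⟩ := hE4 a ha
    exact ⟨J, b4, f06_class hq0 hq1 hp hp' h0 h1 hp4 hp4' h01 hpp b1 b2 b3⟩
  have hE0pp : ∀ a, addOrderOf a = p * p' → E0 a = 0 := by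
    intro a ha
    by_contra hne
    obtain ⟨J, b1, b2⟩ := hEsupp a hne
    rw [ha] at b1
    have key : ∀ q : ℕ, q.Prime → q ≠ p → q ≠ p' → q ∉ J := by
      intro q hq c1 c2 hqJ
      have c3 : q ∣ p * p' := by
        rw [b1]
        exact (p_dvd_ep (p := q)).trans (ep_dvd_fJ hqJ)
      rcases (Nat.Prime.dvd_mul hq).mp c3 with c4 | c4
      · exact c1 ((Nat.prime_dvd_prime_iff_eq hq hp).mp c4)
      · exact c2 ((Nat.prime_dvd_prime_iff_eq hq hp').mp c4)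
    rcases b2 with b2 | b2
    · exact key q0 hq0 e0p e0p' b2.1
    · exact key q1 hq1 e1p e1p' b2.1
  have hpair : ∀ {a b : ℕ}, a ≠ b → a ≠ 2 → b ≠ 2 → ∀ {J : Finset ℕ}, J ⊆ {a, b} → fJ J ∣ a * b := by
    intro a b hab ha hb J hJ
    have c1 := fJ_dvd hJ
    have c2 : fJ ({a, b} : Finset ℕ) = a * b := by
      unfold fJ
      rw [prod_pair hab, f06_ep ha, f06_ep hb]
    rwa [c2] at c1
  -- values
  have hm1 : q0 * p ∣ m := by
    refine Dvd.dvd.trans ⟨q1 * p', by ring⟩ hm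
  have hm2 : p * p' ∣ m := by
    refine Dvd.dvd.trans ⟨q0 * q1, by ring⟩ hm
  have hm3 : q1 * p' ∣ m := by
    refine Dvd.dvd.trans ⟨q0 * p, by ring⟩ hm
  have hm4 : q0 * p' ∣ m := by
    refine Dvd.dvd.trans ⟨q1 * p, by ring⟩ hm
  have hm5 : q1 * p ∣ m := by
    refine Dvd.dvd.trans ⟨q0 * p', by ring⟩ hm
  have p0 := hq0.pos
  have p1 := hq1.pos
  have p2 := hp.pos
  have p3 := hp'.pos
  have m1 : q0 * p ≠ p * p' := by
    rw [mul_comm q0 p]
    intro h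
    exact e0p' (Nat.eq_of_mul_eq_mul_left p2 h)
  have m2 : q0 * p ≠ q1 * p' := by
    intro h
    have c1 : q0 ∣ q1 * p' := ⟨p, h.symm⟩
    rcases (Nat.Prime.dvd_mul hq0).mp c1 with c4 | c4
    · exact h01 ((Nat.prime_dvd_prime_iff_eq hq0 hq1).mp c4)
    · exact e0p' ((Nat.prime_dvd_prime_iff_eq hq0 hp').mp c4)
  have m3 : p * p' ≠ q1 * p' := by
    intro h
    exact e1p (Nat.eq_of_mul_eq_mul_right p3 h).symm
  have m4 : q0 * p' ≠ q0 * p := by
    intro h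
    exact hpp (Nat.eq_of_mul_eq_mul_left p0 h).symm
  have m5 : q0 * p' ≠ p * p' := by
    intro h
    exact e0p (Nat.eq_of_mul_eq_mul_right p3 h)
  have m6 : q0 * p' ≠ q1 * p' := by
    intro h
    exact h01 (Nat.eq_of_mul_eq_mul_right p3 h)
  have m7 : q1 * p ≠ q0 * p := by
    intro h
    exact h01 (Nat.eq_of_mul_eq_mul_right p2 h).symm
  have m8 : q1 * p ≠ p * p' := by
    rw [mul_comm q1 p]
    intro h
    exact e1p' (Nat.eq_of_mul_eq_mul_left p2 h)
  have m9 : q1 * p ≠ q1 * p' := by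
    intro h
    exact hpp (Nat.eq_of_mul_eq_mul_left p1 h)
  have hGapp : ∀ a, G a = pl m (q0 * p) (fun k => P4 q0 p k - P4 q0 p (p' * k)) a
        + pl m (p * p') (fun k => R4 q1 p p' k - R4 q1 p p' (q0 * k)
          + (U4 q0 p p' k - U4 q0 p p' (q1 * k))) a
        + pl m (q1 * p') (fun k => Q4 q1 p' k - Q4 q1 p' (p * k)) a := fun a => rfl
  have hG0 : ∀ a, addOrderOf a ≠ q0 * p → addOrderOf a ≠ p * p' → addOrderOf a ≠ q1 * p' →
      G a = 0 := by
    intro a c1 c2 c3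
    rw [hGapp, pl_of_ne c1, pl_of_ne c2, pl_of_ne c3]
    norm_num
  have hG1 : ∀ k : ℤ, IsCoprime k ((p * p' : ℕ) : ℤ) → G (pt m (p * p') k) =
      R4 q1 p p' k - R4 q1 p p' (q0 * k) + (U4 q0 p p' k - U4 q0 p p' (q1 * k)) := by
    intro k hk
    have c1 := addOrderOf_pt hm2 hk
    rw [hGapp, pl_of_ne (by rw [c1]; exact m1.symm), pl_of_ne (f := q1 * p') (by rw [c1]; exact m3),
      pl_pt hm2 (f06_R n2 n3) hk]
    ring
  have hG2 : ∀ k : ℤ, IsCoprime k ((q0 * p : ℕ) : ℤ) → G (pt m (q0 * p) k) =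
      P4 q0 p k - P4 q0 p (p' * k) := by
    intro k hk
    have c1 := addOrderOf_pt hm1 hk
    rw [hGapp, pl_of_ne (f := p * p') (by rw [c1]; exact m1),
      pl_of_ne (f := q1 * p') (by rw [c1]; exact m2), pl_pt hm1 (f06_P n0 n2 p') hk]
    ring
  have hG3 : ∀ k : ℤ, IsCoprime k ((q1 * p' : ℕ) : ℤ) → G (pt m (q1 * p') k) =
      Q4 q1 p' k - Q4 q1 p' (p * k) := by
    intro k hk
    have c1 := addOrderOf_pt hm3 hk
    rw [hGapp, pl_of_ne (f := p * p') (by rw [c1]; exact m3.symm),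
      pl_of_ne (f := q0 * p) (by rw [c1]; exact m2.symm), pl_pt hm3 (f06_Q n1 n3 p) hk]
    ring
  have hone : ∀ n : ℕ, IsCoprime (1 : ℤ) (n : ℤ) := fun n => isCoprime_one_left
  have hflip : ∀ {a b : ℕ}, a ∈ ({q0, q1, p, p'} : Finset ℕ) → b ∈ ({q0, q1, p, p'} : Finset ℕ) →
      a ≠ b → a ≠ 2 → b ≠ 2 → b % 4 = 1 → ∀ {k : ℤ}, (a : ℤ) ∣ k - 1 → (b : ℤ) ∣ k + 1 →
      E0 (pt m (a * b) k) = E0 (pt m (a * b) 1) := by
    intro a b ha hb hab ha2 hb2 hb4 k hk1 hk2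
    have := flip_E hT hTm hE5 ha hb hab hb4 (k := k) (by rw [f06_ep ha2]; exact hk1)
      (by rw [f06_ep hb2]; exact hk2)
    rwa [f06_ep ha2, f06_ep hb2] at this
  refine ⟨G - E0, ⟨?_, ?_, ?_⟩, ?_, ?_, ?_, ?_, ?_⟩
  · rw [hFeq]
    exact AddSubgroup.sub_mem _ (AddSubgroup.mem_sup_left hXm) (AddSubgroup.mem_sup_right hHG)
  · rw [hFeq]
    exact (hHodd.sub hE2).sub (f06_rel_odd hHG)
  · rw [hFeq]
    exact hHE.sub (TateF_of_mem_relSub hHG)
  · intro a ha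
    by_cases c0 : E0 a = 0
    · by_cases c1 : addOrderOf a = q0 * p
      · right; left
        rw [c1]
      by_cases c2 : addOrderOf a = p * p'
      · left
        rw [c2]
      by_cases c3 : addOrderOf a = q1 * p'
      · right; right; right; right
        rw [c3]
      exfalso
      apply ha
      rw [Pi.sub_apply, c0, hG0 a c1 c2 c3, sub_zero]
    · obtain ⟨J, b1, b2⟩ := hEsupp a c0
      rw [b1]
      rcases b2 with ⟨-, b2 | b2⟩ | ⟨-, b2 | b2⟩
      · right; left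
        exact hpair e0p n0 n2 b2
      · right; right; left
        exact hpair e0p' n0 n3 b2
      · right; right; right; left
        exact hpair e1p n1 n2 b2
      · right; right; right; right
        exact hpair e1p' n1 n3 b2
  · intro k hk1 hk2
    rw [f06_ep n2] at hk1 ⊢
    rw [f06_ep n3] at hk2 ⊢
    have hk := f06_cop hk1 hk2
    rw [Pi.sub_apply, Pi.sub_apply, hE0pp _ (addOrderOf_pt hm2 hk),
      hE0pp _ (addOrderOf_pt hm2 (hone _)), hG1 k hk, hG1 1 (hone _), sub_zero, sub_zero]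
    exact par_pp hq0 hq1 hp hp' h0 h1 hp4 hp4' s1 s2 s3 s4 hk1 hk2
  · intro k hk1 hk2
    rw [f06_ep n0] at hk1 ⊢
    rw [f06_ep n3] at hk2 ⊢
    have hk := f06_cop hk1 hk2
    have c1 := addOrderOf_pt hm4 hk
    have c2 := addOrderOf_pt hm4 (hone (q0 * p'))
    rw [Pi.sub_apply, Pi.sub_apply,
      hG0 _ (by rw [c2]; exact m4) (by rw [c2]; exact m5) (by rw [c2]; exact m6),
      hG0 _ (by rw [c1]; exact m4) (by rw [c1]; exact m5) (by rw [c1]; exact m6),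
      hflip (by simp) (by simp) e0p' n0 n3 hp4' hk1 hk2]
    exact ⟨- E0 (pt m (q0 * p') 1), by ring⟩
  · intro k hk1 hk2
    rw [f06_ep n1] at hk1 ⊢
    rw [f06_ep n2] at hk2 ⊢
    have hk := f06_cop hk1 hk2
    have c1 := addOrderOf_pt hm5 hk
    have c2 := addOrderOf_pt hm5 (hone (q1 * p))
    rw [Pi.sub_apply, Pi.sub_apply,
      hG0 _ (by rw [c2]; exact m7) (by rw [c2]; exact m8) (by rw [c2]; exact m9),
      hG0 _ (by rw [c1]; exact m7) (by rw [c1]; exact m8) (by rw [c1]; exact m9),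
      hflip (by simp) (by simp) e1p n1 n2 hp4 hk1 hk2]
    exact ⟨- E0 (pt m (q1 * p) 1), by ring⟩
  · intro s
    constructor
    · intro k hk1 hk2
      rw [f06_ep n0] at hk1 ⊢
      rw [f06_ep n2] at hk2 ⊢
      have hk := f06_cop hk1 hk2
      rw [Pi.sub_apply, Pi.sub_apply, hG2 k hk, hG2 1 (hone _),
        hflip (by simp) (by simp) e0p n0 n2 hp4 hk1 hk2]
      have c1 := par_qp hq0 hp hp' h0 hp4 hp4' s hk1 hk2
      obtain ⟨r, hr⟩ := c1
      exact ⟨r - E0 (pt m (q0 * p) 1), by linear_combination hr⟩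
    · intro k hk1 hk2
      rw [f06_ep n1] at hk1 ⊢
      rw [f06_ep n3] at hk2 ⊢
      have hk := f06_cop hk1 hk2
      rw [Pi.sub_apply, Pi.sub_apply, hG3 k hk, hG3 1 (hone _),
        hflip (by simp) (by simp) e1p' n1 n3 hp4' hk1 hk2]
      have s' : ch p' p = 1 := by
        rw [ch_symm hp' hp n3 n2 (Or.inl hp4')]
        exact s
      have c1 := par_qp' hq1 hp hp' h1 hp4 hp4' s' hk1 hk2
      obtain ⟨r, hr⟩ := c1
      exact ⟨r - E0 (pt m (q1 * p') 1), by linear_combination hr⟩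

end Pool.Agent.Lib.MP_938ce2_ag_h99v
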