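import Pool.Agent.Lib.MP_938ce2_ag_h99v.P01

/-!
The functions `pl m f A`.
-/

set_option autoImplicit false
set_option linter.style.haveILetI false
set_option linter.unusedSectionVars false

open Finset

namespace Pool.Agent.Lib.MP_938ce2_ag_h99v

open Pool.Agent.Lib.MP_938ce2_ag_h99 Pool.Agent.Lib.MP_938ce2_ag_h6
open Pool.Agent.Lib.MP_938ce2_ag_h99t

variable {m : ℕ} [NeZero m]

lemma pl_pt {f : ℕ} (hf : f ∣ m) {A : ℤ → ℤ} (hA : Per f A) {k : ℤ} (hk : IsCoprime k (f : ℤ)) :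
    pl m f A (pt m f k) = A k := by
  haveI : NeZero f := ⟨f_ne_zero hf⟩
  unfold pl
  rw [if_pos (addOrderOf_pt hf hk), pt_eq_jj hf, jj_val hf, Nat.mul_div_cancel_left _ (div_pos' hf)]
  apply hA
  rw [← ZMod.intCast_zmod_eq_zero_iff_dvd]
  push_cast
  rw [ZMod.natCast_zmod_val, sub_self]

lemma pl_supp {f : ℕ} {A : ℤ → ℤ} {a : ZMod m} (h : pl m f A a ≠ 0) : addOrderOf a = f := by
  by_contra h1
  apply h
  unfold pl
  rw [if_neg h1]

lemma pl_of_ne {f : ℕ} {A : ℤ → ℤ} {a : ZMod m} (h : addOrderOf a ≠ f) : pl m f A a = 0 := by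
  unfold pl
  rw [if_neg h]

/-- functions which agree at the integers prime to `f` -/
lemma pl_congr {f : ℕ} (hf : f ∣ m) {A B : ℤ → ℤ} (hA : Per f A) (hB : Per f B)
    (h : ∀ k : ℤ, IsCoprime k (f : ℤ) → A k = B k) : pl m f A = pl m f B := by
  funext a
  by_cases ha : addOrderOf a = f
  · obtain ⟨k, hk, rfl⟩ := exists_pt ha
    rw [pl_pt hf hA hk, pl_pt hf hB hk, h k hk]
  · rw [pl_of_ne ha, pl_of_ne ha]

lemma pl_add (f : ℕ) (A B : ℤ → ℤ) : pl m f (fun k => A k + B k) = pl m f A + pl m f B := by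
  funext a
  rw [Pi.add_apply]
  unfold pl
  split_ifs
  · rfl
  · simp

lemma pl_sub (f : ℕ) (A B : ℤ → ℤ) : pl m f (fun k => A k - B k) = pl m f A - pl m f B := by
  funext a
  rw [Pi.sub_apply]
  unfold pl
  split_ifs
  · rfl
  · simp

lemma pl_odd {f : ℕ} (hf : f ∣ m) {A : ℤ → ℤ} (hA : Per f A) (ho : OddA f A) :
    OddF (pl m f A) := by
  intro a
  by_cases ha : addOrderOf a = f
  · obtain ⟨k, hk, rfl⟩ := exists_pt ha
    rw [← pt_neg, pl_pt hf hA hk.neg_left, pl_pt hf hA hk, ho k hk]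
  · have h1 : addOrderOf (-a) ≠ f := by rwa [addOrderOf_neg]
    rw [pl_of_ne ha, pl_of_ne h1, neg_zero]

end Pool.Agent.Lib.MP_938ce2_ag_h99v
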