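import Pool.Agent.Lib.MP_938ce2_ag_h99v.LD
import Pool.Agent.Lib.MP_938ce2_ag_h99v.P02

/-!
Pairs: monotonicity and symmetry (replace `k` by `-k`).
-/

set_option autoImplicit false
set_option linter.style.haveILetI false
set_option linter.unusedSectionVars false

open Finset

namespace Pool.Agent.Lib.MP_938ce2_ag_h99v

open Pool.Agent.Lib.MP_938ce2_ag_h99 Pool.Agent.Lib.MP_938ce2_ag_h6
open Pool.Agent.Lib.MP_938ce2_ag_h99t

variable {m : ℕ} [NeZero m]

lemma PX.mono {X Y : AddSubgroup (ZMod m → ℤ)} (hXY : X ≤ Y) {p q : ℕ} (h : PX X p q) :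
    PX Y p q := by
  obtain ⟨E, hE, h1, h2⟩ := h
  exact ⟨E, ⟨sup_le_sup_right hXY _ hE.mem, hE.odd, hE.tate⟩, h1, h2⟩

lemma PX.symm {X : AddSubgroup (ZMod m → ℤ)} {p q : ℕ} (hm : ep p * ep q ∣ m)
    (h : PX X p q) : PX X q p := by
  obtain ⟨E, hE, h1, k, hk1, hk2, h2⟩ := h
  have hc : ep q * ep p = ep p * ep q := mul_comm _ _
  refine ⟨E, hE, by rw [hc]; exact h1, -k, ?_, ?_, ?_⟩
  · have : -k - 1 = -(k + 1) := by ring
    rw [this]
    exact (dvd_neg).2 hk2
  · have : -k + 1 = -(k - 1) := by ring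
    rw [this]
    exact (dvd_neg).2 hk1
  · rw [hc, pt_neg, hE.odd]
    have h3 : E (pt m (ep p * ep q) 1) + -E (pt m (ep p * ep q) k) =
        E (pt m (ep p * ep q) 1) + E (pt m (ep p * ep q) k) -
          2 * E (pt m (ep p * ep q) k) := by ring
    rw [h3]
    exact h2.sub_even (even_two_mul _)

end Pool.Agent.Lib.MP_938ce2_ag_h99v
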