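import Pool.Agent.Lib.MP_938ce2_ag_h99v.L03

/-!
Levels with two primes whose class belongs to `X`.
-/

set_option autoImplicit false
set_option linter.style.haveILetI false
set_option linter.unusedSectionVars false

open Finset

namespace Pool.Agent.Lib.MP_938ce2_ag_h99v

open Pool.Agent.Lib.MP_938ce2_ag_h99 Pool.Agent.Lib.MP_938ce2_ag_h6
open Pool.Agent.Lib.MP_938ce2_ag_h99t

variable {m : ℕ} [NeZero m]

/-- Levels with two primes, when the class of the pair belongs to `X`; the support may change at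
the divisors of `lcm 2 (ep p * ep q)` not larger than `ep p * ep q`. Apply `rem_even` to `F` or to
`F - E`. -/
theorem rem_PX {X : AddSubgroup (ZMod m → ℤ)} {p q : ℕ} (hp : p.Prime) (hq : q.Prime)
    (hpq : p ≠ q) (hm : ep p * ep q ∣ m) (hPX : PX X p q) {F : ZMod m → ℤ} (hF : InX X F)
    (hs : ∀ a, F a ≠ 0 → ep p * ep q ∣ addOrderOf a → addOrderOf a = ep p * ep q) :
    ∃ F', InX X F' ∧ (∀ a, addOrderOf a = ep p * ep q → F' a = 0) ∧
      ∀ a, F' a ≠ F a → addOrderOf a ∣ Nat.lcm 2 (ep p * ep q) ∧ addOrderOf a ≤ ep p * ep q := by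
  have hf0 : 0 < ep p * ep q :=
    Nat.pos_of_ne_zero (fun h => NeZero.ne m (by rw [h] at hm; exact Nat.eq_zero_of_zero_dvd hm))
  have hdvd : ∀ a : ZMod m, addOrderOf a ∣ ep p * ep q →
      addOrderOf a ∣ Nat.lcm 2 (ep p * ep q) ∧ addOrderOf a ≤ ep p * ep q := fun a ha =>
    ⟨ha.trans (Nat.dvd_lcm_right _ _), Nat.le_of_dvd hf0 ha⟩
  obtain ⟨E, hE, hEs, k, hk1, hk2, hodd⟩ := hPX
  rcases Int.even_or_odd (F (pt m (ep p * ep q) 1) + F (pt m (ep p * ep q) k)) with he | ho
  · obtain ⟨F', hF'⟩ := rem_even hp hq hpq hm hF hs hk1 hk2 he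
    exact ⟨F', hF'.inX, hF'.top, fun a ha => hdvd a (hF'.dvd a ha)⟩
  · have hFE : InX X (F - E) := by
      refine ⟨(X ⊔ relSub m).sub_mem hF.mem hE.mem, ?_, ?_⟩
      · exact hF.odd.sub hE.odd
      · exact hF.tate.sub hE.tate
    have hs' : ∀ a, (F - E) a ≠ 0 → ep p * ep q ∣ addOrderOf a → addOrderOf a = ep p * ep q := by
      intro a ha hda
      by_cases hFa : F a = 0
      · have hEa : E a ≠ 0 := by
          intro h
          apply ha
          rw [Pi.sub_apply, hFa, h, sub_zero]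
        have h1 := (hEs a hEa).2
        have h2 : 0 < addOrderOf a := addOrderOf_pos a
        exact le_antisymm h1 (Nat.le_of_dvd h2 hda)
      · exact hs a hFa hda
    have he' : Even ((F - E) (pt m (ep p * ep q) 1) + (F - E) (pt m (ep p * ep q) k)) := by
      have e : (F - E) (pt m (ep p * ep q) 1) + (F - E) (pt m (ep p * ep q) k) =
          (F (pt m (ep p * ep q) 1) + F (pt m (ep p * ep q) k)) -
            (E (pt m (ep p * ep q) 1) + E (pt m (ep p * ep q) k)) := by
        rw [Pi.sub_apply, Pi.sub_apply]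
        ring
      rw [e]
      exact ho.sub_odd hodd
    obtain ⟨F', hF'⟩ := rem_even hp hq hpq hm hFE hs' hk1 hk2 he'
    refine ⟨F', hF'.inX, hF'.top, ?_⟩
    intro a ha
    by_cases h1 : F' a = (F - E) a
    · have hEa : E a ≠ 0 := by
        intro h
        apply ha
        rw [h1, Pi.sub_apply, h, sub_zero]
      exact hEs a hEa
    · exact hdvd a (hF'.dvd a h1)

end Pool.Agent.Lib.MP_938ce2_ag_h99v
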