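import Pool.Agent.Lib.MP_938ce2_ag_h99v.L05

/-!
A prime is removed.
-/

set_option autoImplicit false
set_option linter.style.haveILetI false
set_option linter.unusedSectionVars false

open Finset

namespace Pool.Agent.Lib.MP_938ce2_ag_h99v

open Pool.Agent.Lib.MP_938ce2_ag_h99 Pool.Agent.Lib.MP_938ce2_ag_h6
open Pool.Agent.Lib.MP_938ce2_ag_h99t

variable {m : ℕ} [NeZero m]

/-- The prime `r` is removed: all orders divisible by `ep r` divide `lcm 2 (ep r)`. For odd `r`
apply `rem_one` to `2 r` (if `2 r ∣ m`) and then to `r`; for `r = 2` apply it to `4`. -/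
theorem rem_prime {X : AddSubgroup (ZMod m → ℤ)} {r : ℕ} (hr : r.Prime) (hm : ep r ∣ m)
    {F : ZMod m → ℤ} (hF : InX X F)
    (hs : ∀ a, F a ≠ 0 → ep r ∣ addOrderOf a → addOrderOf a ∣ Nat.lcm 2 (ep r)) :
    ∃ F', InX X F' ∧ (∀ a, F' a ≠ 0 → ¬ ep r ∣ addOrderOf a) ∧
      ∀ a, F' a ≠ F a → addOrderOf a ∣ Nat.lcm 2 (ep r) := by
  by_cases h2 : r = 2
  · subst h2
    have e : ep 2 = 4 := rfl
    rw [e] at hm hs ⊢
    have el : Nat.lcm 2 4 = 4 := by decide
    rw [el] at hs ⊢
    obtain ⟨F', hR⟩ := rem_one (X := X) hm (by norm_num) Nat.prime_two (Or.inr (by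
      intro s hsp hs4
      have h4 : s ∣ 2 ^ 2 := by norm_num; exact hs4
      exact (Nat.prime_dvd_prime_iff_eq hsp Nat.prime_two).mp (hsp.dvd_of_dvd_pow h4))) hF
      (fun a ha h4 => Nat.dvd_antisymm (hs a ha h4) h4)
    refine ⟨F', hR.inX, ?_, hR.dvd⟩
    intro a ha h4
    by_cases hc : F' a = F a
    · rw [hc] at ha
      have h5 := Nat.dvd_antisymm (hs a ha h4) h4
      rw [← hc] at ha
      exact ha (hR.top a h5)
    · exact ha (hR.top a (Nat.dvd_antisymm (hR.dvd a hc) h4))
  · have e : ep r = r := by unfold ep; rw [if_neg h2]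
    rw [e] at hm hs ⊢
    have hodd : r % 2 = 1 := hr.eq_two_or_odd.resolve_left h2
    have hcop : Nat.Coprime 2 r := (Nat.coprime_primes Nat.prime_two hr).mpr (Ne.symm h2)
    have el : Nat.lcm 2 r = 2 * r := hcop.lcm_eq_mul
    rw [el] at hs ⊢
    -- divisors of `2 r` divisible by `r`
    have hdiv : ∀ d, d ∣ 2 * r → r ∣ d → d = r ∨ d = 2 * r := by
      rintro _ hd ⟨c, rfl⟩
      have h1 : r * c ∣ r * 2 := by rwa [mul_comm 2 r] at hd
      have h3 : c ∣ 2 := Nat.dvd_of_mul_dvd_mul_left hr.pos h1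
      rcases (Nat.dvd_prime Nat.prime_two).mp h3 with h | h
      · left; rw [h, mul_one]
      · right; rw [h, mul_comm]
    -- the order `2 r`
    obtain ⟨F1, g1, g2, g3⟩ : ∃ F1, InX X F1 ∧ (∀ a, F1 a ≠ 0 → r ∣ addOrderOf a →
        addOrderOf a = r) ∧ ∀ a, F1 a ≠ F a → addOrderOf a ∣ 2 * r := by
      by_cases h2r : 2 * r ∣ m
      · obtain ⟨F', hR⟩ := rem_one (X := X) h2r (by omega) hr (Or.inl (by omega)) hF (by
          intro a ha h4
          exact Nat.dvd_antisymm (hs a ha ((Dvd.intro_left 2 rfl).trans h4)) h4)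
        refine ⟨F', hR.inX, ?_, hR.dvd⟩
        intro a ha hra
        have h5 : addOrderOf a ∣ 2 * r := by
          by_cases hc : F' a = F a
          · rw [hc] at ha
            exact hs a ha hra
          · exact hR.dvd a hc
        rcases hdiv _ h5 hra with h | h
        · exact h
        · exact absurd (hR.top a h) ha
      · refine ⟨F, hF, ?_, fun a ha => absurd rfl ha⟩
        intro a ha hra
        rcases hdiv _ (hs a ha hra) hra with h | h
        · exact h
        · exfalso
          apply h2r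
          rw [← h]
          exact addOrderOf_dvd_m a
    obtain ⟨F2, hR⟩ := rem_one (X := X) hm hr.one_lt.ne' hr (Or.inr (fun s hsp hsr =>
      (Nat.prime_dvd_prime_iff_eq hsp hr).mp hsr)) g1 g2
    refine ⟨F2, hR.inX, ?_, ?_⟩
    · intro a ha hra
      by_cases hc : F2 a = F1 a
      · have h5 := hR.top a
        rw [hc] at ha
        have h6 := g2 a ha hra
        rw [← hc] at ha
        exact ha (h5 h6)
      · exact ha (hR.top a (Nat.dvd_antisymm (hR.dvd a hc) hra))
    · intro a ha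
      by_cases hc : F2 a = F1 a
      · rw [hc] at ha
        exact g3 a ha
      · exact (hR.dvd a hc).trans (Dvd.intro_left 2 rfl)

end Pool.Agent.Lib.MP_938ce2_ag_h99v
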