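import Pool.Agent.Lib.MP_938ce2_ag_h99v.F06
import Pool.Agent.Lib.MP_938ce2_ag_h99v.L01
import Pool.Agent.Lib.MP_938ce2_ag_h99v.L04
import Pool.Agent.Lib.MP_938ce2_ag_h99v.L06

/-!
The class of a pair `p, p` of primes `1 mod 4`.
-/

set_option autoImplicit false
set_option linter.style.haveILetI false
set_option linter.unusedSectionVars false

open Finset

namespace Pool.Agent.Lib.MP_938ce2_ag_h99v

open Pool.Agent.Lib.MP_938ce2_ag_h99 Pool.Agent.Lib.MP_938ce2_ag_h6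
open Pool.Agent.Lib.MP_938ce2_ag_h99t

variable {m : ℕ} [NeZero m]

private lemma ep_self {p : ℕ} (h : p ≠ 2) : ep p = p := by
  unfold ep
  rw [if_neg h]

/-- the orders which occur at the pair `x, y` -/
private def DD (x y o : ℕ) : Prop := o ∣ 2 * (x * y) ∧ o ≤ x * y

private lemma DD_of_dvd {x y o : ℕ} (hx : x.Prime) (hy : y.Prime) (h : o ∣ x * y) : DD x y o :=
  ⟨h.trans (Dvd.intro_left 2 rfl), Nat.le_of_dvd (Nat.mul_pos hx.pos hy.pos) h⟩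

private lemma DD_top {x y o : ℕ} (hx : x.Prime) (hy : y.Prime) (h : x * y ∣ o) (hD : DD x y o) :
    o = x * y := by
  have h1 : 0 < x * y := Nat.mul_pos hx.pos hy.pos
  have h2 : 0 < o := Nat.pos_of_dvd_of_pos hD.1 (by positivity)
  exact le_antisymm hD.2 (Nat.le_of_dvd h2 h)

private lemma not_dvd_two_mul {z u v : ℕ} (hz : z.Prime) (hu : u.Prime) (hv : v.Prime)
    (h2 : z ≠ 2) (h : z ≠ u ∧ z ≠ v) : ¬ z ∣ 2 * (u * v) := by
  intro h1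
  rcases hz.dvd_mul.mp h1 with h3 | h3
  · exact h2 ((Nat.prime_dvd_prime_iff_eq hz Nat.prime_two).mp h3)
  · rcases hz.dvd_mul.mp h3 with h4 | h4
    · exact h.1 ((Nat.prime_dvd_prime_iff_eq hz hu).mp h4)
    · exact h.2 ((Nat.prime_dvd_prime_iff_eq hz hv).mp h4)

private lemma DD_ne {x y u v o : ℕ} (hx : x.Prime) (hy : y.Prime) (hu : u.Prime) (hv : v.Prime)
    (hx2 : x ≠ 2) (hy2 : y ≠ 2) (h : (x ≠ u ∧ x ≠ v) ∨ (y ≠ u ∧ y ≠ v)) (ho : x * y ∣ o) :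
    ¬ DD u v o := by
  intro hD
  rcases h with h | h
  · exact not_dvd_two_mul hx hu hv hx2 h (((Dvd.intro y rfl).trans ho).trans hD.1)
  · exact not_dvd_two_mul hy hu hv hy2 h (((Dvd.intro_left x rfl).trans ho).trans hD.1)

private lemma exists_k' {x y : ℕ} (hx : x.Prime) (hy : y.Prime) (hxy : x ≠ y) :
    ∃ k : ℤ, (x : ℤ) ∣ k - 1 ∧ (y : ℤ) ∣ k + 1 := by
  obtain ⟨u, v, huv⟩ := Nat.isCoprime_iff_coprime.mpr ((Nat.coprime_primes hx hy).mpr hxy)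
  refine ⟨v * y - u * x, ⟨-2 * u, ?_⟩, ⟨2 * v, ?_⟩⟩
  · linear_combination huv
  · linear_combination -huv

private lemma coprime_k' {x y : ℕ} {k : ℤ} (h1 : (x : ℤ) ∣ k - 1) (h2 : (y : ℤ) ∣ k + 1) :
    IsCoprime k ((x * y : ℕ) : ℤ) := by
  have hka : IsCoprime k (x : ℤ) := by
    obtain ⟨c, hc⟩ := h1
    exact ⟨1, -c, by linear_combination hc⟩
  have hkp : IsCoprime k (y : ℤ) := by
    obtain ⟨c, hc⟩ := h2
    exact ⟨-1, c, by linear_combination -hc⟩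
  push_cast
  exact hka.mul_right hkp

private lemma par_keep {x y : ℕ} (hx : x ≠ 2) (hy : y ≠ 2) (hm : x * y ∣ m) {F F' : ZMod m → ℤ}
    (h : ∀ a, addOrderOf a = x * y → F' a = F a) {k : ℤ} (h1 : (x : ℤ) ∣ k - 1)
    (h2 : (y : ℤ) ∣ k + 1) :
    F' (pt m (ep x * ep y) 1) + F' (pt m (ep x * ep y) k)
      = F (pt m (ep x * ep y) 1) + F (pt m (ep x * ep y) k) := by
  rw [ep_self hx, ep_self hy, h _ (addOrderOf_pt hm isCoprime_one_left),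
    h _ (addOrderOf_pt hm (coprime_k' h1 h2))]

private lemma parE_keep {x y : ℕ} (hx : x ≠ 2) (hy : y ≠ 2) (hm : x * y ∣ m) {F F' : ZMod m → ℤ}
    (h : ∀ a, addOrderOf a = x * y → F' a = F a) (hF : ParE F x y) : ParE F' x y := by
  intro k h1 h2
  have h3 := hF k h1 h2
  rw [ep_self hx] at h1
  rw [ep_self hy] at h2
  rwa [par_keep hx hy hm h h1 h2]

/-- one step of the removal -/
private lemma step {X : AddSubgroup (ZMod m → ℤ)} {x y : ℕ} (hx : x.Prime) (hy : y.Prime)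
    (hxy : x ≠ y) (hx2 : x ≠ 2) (hy2 : y ≠ 2) (hm : x * y ∣ m) {F : ZMod m → ℤ} (hF : InX X F)
    (hs : ∀ a, F a ≠ 0 → x * y ∣ addOrderOf a → addOrderOf a = x * y)
    (h : ParE F x y ∨ PX X x y) :
    ∃ F', InX X F' ∧ (∀ a, addOrderOf a = x * y → F' a = 0) ∧
      ∀ a, F' a ≠ F a → DD x y (addOrderOf a) := by
  have ex := ep_self hx2
  have ey := ep_self hy2
  have hm' : ep x * ep y ∣ m := by rwa [ex, ey]
  have hs' : ∀ a, F a ≠ 0 → ep x * ep y ∣ addOrderOf a → addOrderOf a = ep x * ep y := by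
    rwa [ex, ey]
  rcases h with h | h
  · obtain ⟨k, h1, h2⟩ := exists_k' hx hy hxy
    have h1' : (ep x : ℤ) ∣ k - 1 := by rwa [ex]
    have h2' : (ep y : ℤ) ∣ k + 1 := by rwa [ey]
    obtain ⟨F', hR⟩ := rem_even hx hy hxy hm' hF hs' h1' h2' (h k h1' h2')
    refine ⟨F', hR.inX, ?_, ?_⟩
    · have h3 := hR.top
      rwa [ex, ey] at h3
    · intro a ha
      have h3 := hR.dvd a ha
      rw [ex, ey] at h3
      exact DD_of_dvd hx hy h3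
  · obtain ⟨F', h3, h4, h5⟩ := rem_PX hx hy hxy hm' h hF hs'
    rw [ex, ey] at h4 h5
    exact ⟨F', h3, h4, fun a ha =>
      ⟨(h5 a ha).1.trans (Nat.lcm_dvd (Dvd.intro _ rfl) (Dvd.intro_left 2 rfl)), (h5 a ha).2⟩⟩

/-- the orders which occur -/
private def S5 (q0 q1 p p' o : ℕ) : Prop :=
  DD p p' o ∨ DD q0 p o ∨ DD q0 p' o ∨ DD q1 p o ∨ DD q1 p' o

/-- an order divisible by `q` in the list -/
private lemma ord_q {q p o : ℕ} (hq : q.Prime) (hp : p.Prime) (hqo : q ∣ o)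
    (hD : DD q p o) (hne : o ≠ q * p) : o ∣ 2 * q := by
  obtain ⟨c, rfl⟩ := hqo
  have h1 : c ∣ 2 * p := by
    have h2 := hD.1
    have h3 : 2 * (q * p) = q * (2 * p) := by ring
    rw [h3] at h2
    exact Nat.dvd_of_mul_dvd_mul_left hq.pos h2
  have h2 : ¬ p ∣ c := by
    intro h3
    exact hne (DD_top hq hp (Nat.mul_dvd_mul_left q h3) hD)
  have h3 : Nat.Coprime c p := (Nat.coprime_comm.mp ((Nat.Prime.coprime_iff_not_dvd hp).mpr h2))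
  have h4 : c ∣ 2 := h3.dvd_of_dvd_mul_right h1
  rw [mul_comm 2 q]
  exact Nat.mul_dvd_mul_left q h4

/-- an order not divisible by `q` -/
private lemma ord_nq {q p p' o : ℕ} (hq : q.Prime) (hp : p.Prime) (hp5 : 2 ≤ p')
    (hqo : ¬ q ∣ o) (hD : o ∣ 2 * (q * p)) : DD p p' o := by
  have h3 : Nat.Coprime o q := (Nat.coprime_comm.mp ((Nat.Prime.coprime_iff_not_dvd hq).mpr hqo))
  have h4 : o ∣ 2 * p := by
    apply h3.dvd_of_dvd_mul_left (k := o)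
    have h5 : q * (2 * p) = 2 * (q * p) := by ring
    rw [h5]
    exact hD
  refine ⟨h4.trans ⟨p', by ring⟩, ?_⟩
  calc o ≤ 2 * p := Nat.le_of_dvd (by have := hp.pos; omega) h4
    _ ≤ p' * p := Nat.mul_le_mul_right p hp5
    _ = p * p' := mul_comm _ _

private lemma DD_symm {p p' o : ℕ} (h : DD p p' o) : DD p' p o := by
  unfold DD at h ⊢
  rwa [mul_comm p' p]

/-- The class of `p, p'`: from `theta_four` remove the orders `q0 p'`, `q1 p` (`rem_even`), `q0 p`,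
`q1 p'` (`rem_even` or `rem_PX`), and then the primes `q0`, `q1` (`rem_prime`). -/
theorem pair_one {X : AddSubgroup (ZMod m → ℤ)}
    (hX : ∀ F ∈ thetaSub1 m, TateF F → F ∈ X) {q0 q1 p p' : ℕ} (hq0 : q0.Prime)
    (hq1 : q1.Prime) (hp : p.Prime) (hp' : p'.Prime) (h0 : q0 % 4 = 3) (h1 : q1 % 4 = 3)
    (hp4 : p % 4 = 1) (hp4' : p' % 4 = 1) (h01 : q0 ≠ q1) (hpp : p ≠ p') (s1 : ch p q0 = -1)
    (s2 : ch p' q0 = 1) (s3 : ch p q1 = 1) (s4 : ch p' q1 = -1) (s5 : ch q0 q1 = 1)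
    (hm : q0 * q1 * p * p' ∣ m) (hcase : ch p p' = 1 ∨ PX X q0 p ∧ PX X q1 p') : PX X p p' := by
  obtain ⟨F0, hF0, hS0, hO0, hE1, hE2, hE3⟩ :=
    theta_four hX hq0 hq1 hp hp' h0 h1 hp4 hp4' h01 hpp s1 s2 s3 s4 s5 hm
  have n0 : q0 ≠ 2 := by omega
  have n1 : q1 ≠ 2 := by omega
  have n2 : p ≠ 2 := by omega
  have n3 : p' ≠ 2 := by omega
  have a0 : q0 ≠ p := by rintro rfl; omega
  have a1 : q0 ≠ p' := by rintro rfl; omega
  have a2 : q1 ≠ p := by rintro rfl; omega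
  have a3 : q1 ≠ p' := by rintro rfl; omega
  have m1 : q0 * p' ∣ m := Dvd.dvd.trans ⟨q1 * p, by ring⟩ hm
  have m2 : q1 * p ∣ m := Dvd.dvd.trans ⟨q0 * p', by ring⟩ hm
  have m3 : q0 * p ∣ m := Dvd.dvd.trans ⟨q1 * p', by ring⟩ hm
  have m4 : q1 * p' ∣ m := Dvd.dvd.trans ⟨q0 * p, by ring⟩ hm
  have m5 : p * p' ∣ m := Dvd.dvd.trans ⟨q0 * q1, by ring⟩ hm
  have m6 : q0 ∣ m := Dvd.dvd.trans ⟨q1 * p * p', by ring⟩ hm
  have m7 : q1 ∣ m := Dvd.dvd.trans ⟨q0 * p * p', by ring⟩ hm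
  have hSS0 : ∀ a, F0 a ≠ 0 → S5 q0 q1 p p' (addOrderOf a) := by
    intro a ha
    rcases hS0 a ha with h | h | h | h | h
    · exact Or.inl (DD_of_dvd hp hp' h)
    · exact Or.inr (Or.inl (DD_of_dvd hq0 hp h))
    · exact Or.inr (Or.inr (Or.inl (DD_of_dvd hq0 hp' h)))
    · exact Or.inr (Or.inr (Or.inr (Or.inl (DD_of_dvd hq1 hp h))))
    · exact Or.inr (Or.inr (Or.inr (Or.inr (DD_of_dvd hq1 hp' h))))
  -- support after a change
  have hchg : ∀ (F F' : ZMod m → ℤ) (P : ℕ → Prop), (∀ a, F a ≠ 0 → S5 q0 q1 p p' (addOrderOf a)) →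
      (∀ a, F' a ≠ F a → P (addOrderOf a)) → (∀ o, P o → S5 q0 q1 p p' o) →
      ∀ a, F' a ≠ 0 → S5 q0 q1 p p' (addOrderOf a) := by
    intro F F' P g1 g2 g3 a ha
    by_cases h : F' a = F a
    · exact g1 a (by rwa [← h])
    · exact g3 _ (g2 a h)
  -- the four top orders
  have t1 : ∀ o, S5 q0 q1 p p' o → q0 * p' ∣ o → o = q0 * p' := by
    intro o ho hd
    rcases ho with h | h | h | h | h
    · exact absurd h (DD_ne hq0 hp' hp hp' n0 n3 (Or.inl ⟨a0, a1⟩) hd)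
    · exact absurd h (DD_ne hq0 hp' hq0 hp n0 n3 (Or.inr ⟨a1.symm, hpp.symm⟩) hd)
    · exact DD_top hq0 hp' hd h
    · exact absurd h (DD_ne hq0 hp' hq1 hp n0 n3 (Or.inl ⟨h01, a0⟩) hd)
    · exact absurd h (DD_ne hq0 hp' hq1 hp' n0 n3 (Or.inl ⟨h01, a1⟩) hd)
  have t2 : ∀ o, S5 q0 q1 p p' o → q1 * p ∣ o → o = q1 * p := by
    intro o ho hd
    rcases ho with h | h | h | h | h
    · exact absurd h (DD_ne hq1 hp hp hp' n1 n2 (Or.inl ⟨a2, a3⟩) hd)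
    · exact absurd h (DD_ne hq1 hp hq0 hp n1 n2 (Or.inl ⟨h01.symm, a2⟩) hd)
    · exact absurd h (DD_ne hq1 hp hq0 hp' n1 n2 (Or.inl ⟨h01.symm, a3⟩) hd)
    · exact DD_top hq1 hp hd h
    · exact absurd h (DD_ne hq1 hp hq1 hp' n1 n2 (Or.inr ⟨a2.symm, hpp⟩) hd)
  have t3 : ∀ o, S5 q0 q1 p p' o → q0 * p ∣ o → o = q0 * p := by
    intro o ho hd
    rcases ho with h | h | h | h | h
    · exact absurd h (DD_ne hq0 hp hp hp' n0 n2 (Or.inl ⟨a0, a1⟩) hd)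
    · exact DD_top hq0 hp hd h
    · exact absurd h (DD_ne hq0 hp hq0 hp' n0 n2 (Or.inr ⟨a0.symm, hpp⟩) hd)
    · exact absurd h (DD_ne hq0 hp hq1 hp n0 n2 (Or.inl ⟨h01, a0⟩) hd)
    · exact absurd h (DD_ne hq0 hp hq1 hp' n0 n2 (Or.inl ⟨h01, a1⟩) hd)
  have t4 : ∀ o, S5 q0 q1 p p' o → q1 * p' ∣ o → o = q1 * p' := by
    intro o ho hd
    rcases ho with h | h | h | h | h
    · exact absurd h (DD_ne hq1 hp' hp hp' n1 n3 (Or.inl ⟨a2, a3⟩) hd)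
    · exact absurd h (DD_ne hq1 hp' hq0 hp n1 n3 (Or.inl ⟨h01.symm, a2⟩) hd)
    · exact absurd h (DD_ne hq1 hp' hq0 hp' n1 n3 (Or.inl ⟨h01.symm, a3⟩) hd)
    · exact absurd h (DD_ne hq1 hp' hq1 hp n1 n3 (Or.inr ⟨a3.symm, hpp.symm⟩) hd)
    · exact DD_top hq1 hp' hd h
  -- step 1: `q0 p'`
  obtain ⟨F1, hF1, hT1, hC1⟩ := step hq0 hp' a1 n0 n3 m1 hF0
    (fun a ha hd => t1 _ (hSS0 a ha) hd) (Or.inl hE1)
  have hSS1 := hchg F0 F1 _ hSS0 hC1 (fun o ho => Or.inr (Or.inr (Or.inl ho)))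
  have k1 : ∀ a, ¬ DD q0 p' (addOrderOf a) → F1 a = F0 a := by
    intro a ha
    by_contra h
    exact ha (hC1 a h)
  -- step 2: `q1 p`
  have hE2' : ParE F1 q1 p := parE_keep n1 n2 m2 (fun a ha => k1 a (by
    rw [ha]
    exact DD_ne hq1 hp hq0 hp' n1 n2 (Or.inl ⟨h01.symm, a3⟩) dvd_rfl)) hE2
  obtain ⟨F2, hF2, hT2, hC2⟩ := step hq1 hp a2 n1 n2 m2 hF1
    (fun a ha hd => t2 _ (hSS1 a ha) hd) (Or.inl hE2')
  have hSS2 := hchg F1 F2 _ hSS1 hC2 (fun o ho => Or.inr (Or.inr (Or.inr (Or.inl ho))))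
  have k2 : ∀ a, ¬ DD q1 p (addOrderOf a) → F2 a = F1 a := by
    intro a ha
    by_contra h
    exact ha (hC2 a h)
  -- step 3: `q0 p`
  have hE3' : ParE F2 q0 p ∨ PX X q0 p := by
    rcases hcase with h | h
    · left
      refine parE_keep n0 n2 m3 (fun a ha => ?_) (hE3 h).1
      rw [k2 a (by rw [ha]; exact DD_ne hq0 hp hq1 hp n0 n2 (Or.inl ⟨h01, a0⟩) dvd_rfl),
        k1 a (by rw [ha]; exact DD_ne hq0 hp hq0 hp' n0 n2 (Or.inr ⟨a0.symm, hpp⟩) dvd_rfl)]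
    · exact Or.inr h.1
  obtain ⟨F3, hF3, hT3, hC3⟩ := step hq0 hp a0 n0 n2 m3 hF2
    (fun a ha hd => t3 _ (hSS2 a ha) hd) hE3'
  have hSS3 := hchg F2 F3 _ hSS2 hC3 (fun o ho => Or.inr (Or.inl ho))
  have k3 : ∀ a, ¬ DD q0 p (addOrderOf a) → F3 a = F2 a := by
    intro a ha
    by_contra h
    exact ha (hC3 a h)
  -- step 4: `q1 p'`
  have hE4' : ParE F3 q1 p' ∨ PX X q1 p' := by
    rcases hcase with h | h
    · left
      refine parE_keep n1 n3 m4 (fun a ha => ?_) (hE3 h).2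
      rw [k3 a (by rw [ha]; exact DD_ne hq1 hp' hq0 hp n1 n3 (Or.inl ⟨h01.symm, a2⟩) dvd_rfl),
        k2 a (by rw [ha]; exact DD_ne hq1 hp' hq1 hp n1 n3 (Or.inr ⟨a3.symm, hpp.symm⟩) dvd_rfl),
        k1 a (by rw [ha]; exact DD_ne hq1 hp' hq0 hp' n1 n3 (Or.inl ⟨h01.symm, a3⟩) dvd_rfl)]
    · exact Or.inr h.2
  obtain ⟨F4, hF4, hT4, hC4⟩ := step hq1 hp' a3 n1 n3 m4 hF3
    (fun a ha hd => t4 _ (hSS3 a ha) hd) hE4'
  have hSS4 := hchg F3 F4 _ hSS3 hC4 (fun o ho => Or.inr (Or.inr (Or.inr (Or.inr ho))))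
  have k4 : ∀ a, ¬ DD q1 p' (addOrderOf a) → F4 a = F3 a := by
    intro a ha
    by_contra h
    exact ha (hC4 a h)
  -- the zeros of `F4`
  have z1 : ∀ a, addOrderOf a = q0 * p' → F4 a = 0 := by
    intro a ha
    rw [k4 a (by rw [ha]; exact DD_ne hq0 hp' hq1 hp' n0 n3 (Or.inl ⟨h01, a1⟩) dvd_rfl),
      k3 a (by rw [ha]; exact DD_ne hq0 hp' hq0 hp n0 n3 (Or.inr ⟨a1.symm, hpp.symm⟩) dvd_rfl),
      k2 a (by rw [ha]; exact DD_ne hq0 hp' hq1 hp n0 n3 (Or.inl ⟨h01, a0⟩) dvd_rfl)]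
    exact hT1 a ha
  have z2 : ∀ a, addOrderOf a = q1 * p → F4 a = 0 := by
    intro a ha
    rw [k4 a (by rw [ha]; exact DD_ne hq1 hp hq1 hp' n1 n2 (Or.inr ⟨a2.symm, hpp⟩) dvd_rfl),
      k3 a (by rw [ha]; exact DD_ne hq1 hp hq0 hp n1 n2 (Or.inl ⟨h01.symm, a2⟩) dvd_rfl)]
    exact hT2 a ha
  have z3 : ∀ a, addOrderOf a = q0 * p → F4 a = 0 := by
    intro a ha
    rw [k4 a (by rw [ha]; exact DD_ne hq0 hp hq1 hp' n0 n2 (Or.inl ⟨h01, a1⟩) dvd_rfl)]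
    exact hT3 a ha
  -- step 5: the prime `q0`
  have e0 := ep_self n0
  have e1 := ep_self n1
  have l0 : Nat.lcm 2 q0 = 2 * q0 :=
    Nat.Coprime.lcm_eq_mul ((Nat.coprime_primes Nat.prime_two hq0).mpr n0.symm)
  have l1 : Nat.lcm 2 q1 = 2 * q1 :=
    Nat.Coprime.lcm_eq_mul ((Nat.coprime_primes Nat.prime_two hq1).mpr n1.symm)
  obtain ⟨F5, hF5, hN5, hC5⟩ := rem_prime hq0 (by rwa [e0]) hF4 (by
    intro a ha hd
    rw [e0] at hd ⊢
    rw [l0]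
    rcases hSS4 a ha with h | h | h | h | h
    · exact absurd (hd.trans h.1) (not_dvd_two_mul hq0 hp hp' n0 ⟨a0, a1⟩)
    · exact ord_q hq0 hp hd h (fun h2 => ha (z3 a h2))
    · exact ord_q hq0 hp' hd h (fun h2 => ha (z1 a h2))
    · exact absurd (hd.trans h.1) (not_dvd_two_mul hq0 hq1 hp n0 ⟨h01, a0⟩)
    · exact absurd (hd.trans h.1) (not_dvd_two_mul hq0 hq1 hp' n0 ⟨h01, a1⟩))
  rw [e0] at hN5 hC5
  rw [l0] at hC5
  have five : 5 ≤ p := by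
    have := hp.two_le
    omega
  have five' : 5 ≤ p' := by
    have := hp'.two_le
    omega
  have hSS5 : ∀ a, F5 a ≠ 0 → DD p p' (addOrderOf a) ∨ DD q1 p (addOrderOf a) ∨
      DD q1 p' (addOrderOf a) := by
    intro a ha
    have hq := hN5 a ha
    by_cases h : F5 a = F4 a
    · rw [h] at ha
      rcases hSS4 a ha with h | h | h | h | h
      · exact Or.inl h
      · exact Or.inl (ord_nq hq0 hp (by omega) hq h.1)
      · exact Or.inl (DD_symm (ord_nq hq0 hp' (by omega) hq h.1))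
      · exact Or.inr (Or.inl h)
      · exact Or.inr (Or.inr h)
    · exact Or.inl (ord_nq hq0 hp (by omega) hq ((hC5 a h).trans ⟨p, by ring⟩))
  have k5 : ∀ a, ¬ addOrderOf a ∣ 2 * q0 → F5 a = F4 a := by
    intro a ha
    by_contra h
    exact ha (hC5 a h)
  have nd : ∀ z, z.Prime → z ≠ 2 → z ≠ q0 → ∀ y, ¬ z * y ∣ 2 * q0 := by
    intro z hz hz2 hzq y hd
    have h2 : z ∣ 2 * (q0 * q0) := ((Dvd.intro y rfl).trans hd).trans ⟨q0, by ring⟩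
    exact not_dvd_two_mul hz hq0 hq0 hz2 ⟨hzq, hzq⟩ h2
  have nd' : ∀ z, z.Prime → z ≠ 2 → z ≠ q1 → ∀ y, ¬ z * y ∣ 2 * q1 := by
    intro z hz hz2 hzq y hd
    have h2 : z ∣ 2 * (q1 * q1) := ((Dvd.intro y rfl).trans hd).trans ⟨q1, by ring⟩
    exact not_dvd_two_mul hz hq1 hq1 hz2 ⟨hzq, hzq⟩ h2
  -- step 6: the prime `q1`
  obtain ⟨F6, hF6, hN6, hC6⟩ := rem_prime hq1 (by rwa [e1]) hF5 (by
    intro a ha hd
    rw [e1] at hd ⊢
    rw [l1]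
    rcases hSS5 a ha with h | h | h
    · exact absurd (hd.trans h.1) (not_dvd_two_mul hq1 hp hp' n1 ⟨a2, a3⟩)
    · refine ord_q hq1 hp hd h (fun h2 => ha ?_)
      rw [k5 a (by rw [h2]; exact nd q1 hq1 n1 h01.symm p)]
      exact z2 a h2
    · refine ord_q hq1 hp' hd h (fun h2 => ha ?_)
      rw [k5 a (by rw [h2]; exact nd q1 hq1 n1 h01.symm p')]
      exact hT4 a h2)
  rw [e1] at hN6 hC6
  rw [l1] at hC6
  have hSS6 : ∀ a, F6 a ≠ 0 → DD p p' (addOrderOf a) := by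
    intro a ha
    have hq := hN6 a ha
    by_cases h : F6 a = F5 a
    · rw [h] at ha
      rcases hSS5 a ha with h | h | h
      · exact h
      · exact ord_nq hq1 hp (by omega) hq h.1
      · exact DD_symm (ord_nq hq1 hp' (by omega) hq h.1)
    · exact ord_nq hq1 hp (by omega) hq ((hC6 a h).trans ⟨p, by ring⟩)
  have k6 : ∀ a, ¬ addOrderOf a ∣ 2 * q1 → F6 a = F5 a := by
    intro a ha
    by_contra h
    exact ha (hC6 a h)
  -- nothing changed at the order `p p'`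
  have hfin : ∀ a, addOrderOf a = p * p' → F6 a = F0 a := by
    intro a ha
    rw [k6 a (by rw [ha]; exact nd' p hp n2 a2.symm p'), k5 a (by rw [ha]; exact nd p hp n2 a0.symm p'),
      k4 a (by rw [ha]; exact DD_ne hp hp' hq1 hp' n2 n3 (Or.inl ⟨a2.symm, hpp⟩) dvd_rfl),
      k3 a (by rw [ha]; exact DD_ne hp hp' hq0 hp n2 n3 (Or.inr ⟨a1.symm, hpp.symm⟩) dvd_rfl),
      k2 a (by rw [ha]; exact DD_ne hp hp' hq1 hp n2 n3 (Or.inr ⟨a3.symm, hpp.symm⟩) dvd_rfl),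
      k1 a (by rw [ha]; exact DD_ne hp hp' hq0 hp' n2 n3 (Or.inl ⟨a0.symm, hpp⟩) dvd_rfl)]
  have e2 := ep_self n2
  have e3 := ep_self n3
  have l2 : Nat.lcm 2 (p * p') = 2 * (p * p') := by
    apply Nat.Coprime.lcm_eq_mul
    apply Nat.Coprime.mul_right
    · exact (Nat.coprime_primes Nat.prime_two hp).mpr n2.symm
    · exact (Nat.coprime_primes Nat.prime_two hp').mpr n3.symm
  obtain ⟨k, hk1, hk2⟩ := exists_k' hp hp' hpp
  refine ⟨F6, hF6, ?_, k, by rwa [e2], by rwa [e3], ?_⟩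
  · intro a ha
    rw [e2, e3, l2]
    exact hSS6 a ha
  · rw [par_keep n2 n3 m5 hfin hk1 hk2]
    exact hO0 k (by rwa [e2]) (by rwa [e3])

end Pool.Agent.Lib.MP_938ce2_ag_h99v
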