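import Pool.Agent.Lib.MP_938ce2_ag_h99v.TD

/-!
The functions for four primes.
-/

set_option autoImplicit false
set_option linter.style.haveILetI false
set_option linter.unusedSectionVars false

open Finset

namespace Pool.Agent.Lib.MP_938ce2_ag_h99v

open Pool.Agent.Lib.MP_938ce2_ag_h99 Pool.Agent.Lib.MP_938ce2_ag_h6
open Pool.Agent.Lib.MP_938ce2_ag_h99t

/-- first function with three primes -/
def A4 (q p p' : ℕ) (k : ℤ) : ℤ := th q k * th p k * th p' k - th p k * hf p k * th p' k

/-- second function with three primes -/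
def B4 (q p p' : ℕ) (k : ℤ) : ℤ := th q k * th p k * th p' k - th p k * (1 - hf p k) * th p' k

/-- function for `q0, p` -/
def P4 (q p : ℕ) (k : ℤ) : ℤ := th p k * hf p k - th q k * th p k

/-- function for `p, p'` -/
def R4 (q p p' : ℕ) (k : ℤ) : ℤ :=
  th p k * (1 - hf p k) * th p' k + th p (q * k) * hf p (q * k) * (1 - th p' k) - th p k * hf p k

/-- function for `q1, p'` -/
def Q4 (q p' : ℕ) (k : ℤ) : ℤ := th q k * th p' k - th p' k * hf p' k

/-- second function for `p, p'` -/
def U4 (q p p' : ℕ) (k : ℤ) : ℤ :=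
  th p' k * hf p' k - (th p k * (1 - hf p k) + th p (q * k) * hf p (q * k)) * th p' k

end Pool.Agent.Lib.MP_938ce2_ag_h99v
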