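import Pool.Agent.Lib.MP_938ce2_ag_h99v.RD

/-!
The pushed function.
-/

set_option autoImplicit false
set_option linter.style.haveILetI false
set_option linter.unusedSectionVars false

open Finset

namespace Pool.Agent.Lib.MP_938ce2_ag_h99v

open Pool.Agent.Lib.MP_938ce2_ag_h99 Pool.Agent.Lib.MP_938ce2_ag_h6
open Pool.Agent.Lib.MP_938ce2_ag_h99t

variable {m : ℕ} [NeZero m]

open Pool.Agent.Lib.MP_938ce2_ag_H7f Pool.Agent.Lib.MP_938ce2_ag_H7e in
private lemma W_three_six : ∀ s : (ZMod 6)ˣ, W s (3 : ZMod 6) = 0 := by decide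

open Pool.Agent.Lib.MP_938ce2_ag_H7f Pool.Agent.Lib.MP_938ce2_ag_H7e in
private lemma cst_aux {q : ℕ} (hq : q.Prime) (hq3 : 3 < q) (hm : 6 * q ∣ m) [NeZero (6 * q)]
    {A : ZMod m → ℤ} {c : ℤ} (hc : Cst A q c) (k k' : ZMod (6 * q))
    (h6 : k.val % 6 = 2) (h6' : k'.val % 6 = 2) (hs : q ∣ k.val + k'.val) (hn : ¬ q ∣ k.val)
    (hn' : ¬ q ∣ k'.val) :
    part1 q A (jj hm k) + part1 q A (jj hm k') = c := by
  obtain ⟨w, hw⟩ := hm
  have hq0 : 0 < q := hq.pos
  have e6 : m / (6 * q) = w := by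
    rw [hw]; exact Nat.mul_div_cancel_left w (by omega)
  have e3 : m / (3 * q) = 2 * w := by
    rw [hw, show 6 * q * w = 3 * q * (2 * w) by ring]
    exact Nat.mul_div_cancel_left _ (by omega)
  have hjj : ∀ x : ZMod (6 * q), x.val % 6 = 2 →
      jj ⟨w, hw⟩ x = pt m (3 * q) ((x.val / 2 : ℕ) : ℤ) := by
    intro x hx
    have h1 : jj (⟨w, hw⟩ : 6 * q ∣ m) x = ((m / (6 * q) * x.val : ℕ) : ZMod m) := by
      conv_lhs => rw [← ZMod.natCast_zmod_val x]
      exact jj_natCast ⟨w, hw⟩ x.val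
    have h2 : x.val = 2 * (x.val / 2) := by omega
    rw [h1, e6]
    unfold pt
    rw [e3]
    conv_lhs => rw [h2]
    generalize x.val / 2 = v
    push_cast
    ring
  have hord : ∀ x : ZMod (6 * q), ¬ q ∣ x.val → q ∣ addOrderOf (jj (⟨w, hw⟩ : 6 * q ∣ m) x) := by
    intro x hx
    rw [addOrderOf_jj]
    by_contra h
    have h1 : addOrderOf x ∣ 6 * q := by
      apply addOrderOf_dvd_of_nsmul_eq_zero
      rw [nsmul_eq_mul, ZMod.natCast_self, zero_mul]
    have h2 : addOrderOf x ∣ 6 :=
      Nat.Coprime.dvd_of_dvd_mul_right ((Nat.Prime.coprime_iff_not_dvd hq).mpr h).symm h1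
    have h3 : 6 • x = 0 := addOrderOf_dvd_iff_nsmul_eq_zero.mp h2
    have h4 : ((6 * x.val : ℕ) : ZMod (6 * q)) = 0 := by
      rw [Nat.cast_mul, ZMod.natCast_zmod_val, ← nsmul_eq_mul, h3]
    rw [ZMod.natCast_eq_zero_iff] at h4
    exact hx (Nat.dvd_of_mul_dvd_mul_left (by norm_num) h4)
  unfold part1
  rw [if_pos (hord k hn), if_pos (hord k' hn'), hjj k h6, hjj k' h6']
  have hdvd : ∀ z : ℕ, z % 2 = 0 → q ∣ z → q ∣ z / 2 := by
    intro z hz h
    have h1 : z = 2 * (z / 2) := by omega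
    rw [h1] at h
    have h2 : Nat.Coprime q 2 := (Nat.coprime_primes hq Nat.prime_two).mpr (by omega)
    exact h2.dvd_of_dvd_mul_left h
  apply hc
  · have h1 : (k.val / 2) % 3 = 1 := by omega
    omega
  · have h1 : (k'.val / 2) % 3 = 1 := by omega
    omega
  · have h1 := hdvd (k.val + k'.val) (by omega) hs
    have h2 : (k.val + k'.val) / 2 = k.val / 2 + k'.val / 2 := by omega
    rw [h2] at h1
    exact_mod_cast h1
  · intro h
    have h1 : q ∣ k.val / 2 := by exact_mod_cast h
    apply hn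
    have h2 : k.val = k.val / 2 * 2 := by omega
    rw [h2]
    exact h1.mul_right 2

open Pool.Agent.Lib.MP_938ce2_ag_H7f Pool.Agent.Lib.MP_938ce2_ag_H7e in
/-- `PH_push_up_one` (H7f/RefGen.lean) with `f = 6 q`, `d = 6`, as in `PH_pair` of
h99t/RefTheta.lean. The elements of order `q` and `2 q` are pushed to `0` and to the element of
order `2`, where the pushed odd function is zero (or `W` is zero); the `q - 1` elements of order
`3 q` over each element of order `3` form `(q - 1) / 2` pairs `x, y` with sum of values `c` or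
`- c`. -/
lemma PH_cst {Q n q : ℕ} (hD : Dat m Q n q) [NeZero n] {K : ℕ} (hK : K ≠ 0) (hQ : Q = q ^ K)
    (hq3 : 3 < q) (hm : 6 * q ∣ m) (hd : 3 ∣ n) {A : ZMod m → ℤ} (ho : OddF A)
    (hs : ∀ a, A a ≠ 0 → q ∣ addOrderOf a →
      addOrderOf a = 3 * q ∨ addOrderOf a = q ∨ addOrderOf a = 2 * q) {c : ℤ} (hc : Cst A q c)
    (t : (ZMod n)ˣ) :
    PH (push hD (upF Q q K (part1 q A))) t = Q.totient * (c * W t (jj hd 1)) := by
  classical
  have hq := hD.hq
  haveI : NeZero q := ⟨hq.ne_zero⟩
  have hq6 : ¬ q ∣ 6 := by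
    intro h
    have h1 := Nat.le_of_dvd (by norm_num) h
    have h2 : q = 4 ∨ q = 5 ∨ q = 6 := by omega
    rcases h2 with rfl | rfl | rfl
    · norm_num at h
    · norm_num at h
    · norm_num at hq
  have hcop : Nat.Coprime 6 q := ((Nat.Prime.coprime_iff_not_dvd hq).mpr hq6).symm
  have hd6 : 6 ∣ n := by
    have h1 : 6 ∣ Q * n := hD.hm ▸ (Dvd.intro q rfl).trans hm
    have h2 : Nat.Coprime 6 Q := by
      rw [hQ]
      exact Nat.Coprime.pow_right K hcop
    exact h2.dvd_of_dvd_mul_left h1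
  have hfe : 6 * q = q * 6 := mul_comm _ _
  haveI : NeZero (6 * q) := ⟨f_ne_zero hm⟩
  have hdf : 6 ∣ 6 * q := Dvd.intro q rfl
  have hoff : ∀ a, (∀ k, jj hm k ≠ a) → part1 q A a = 0 := by
    intro a ha
    by_contra h
    obtain ⟨h1, h2⟩ := part1_supp h
    have h3 : addOrderOf a ∣ 6 * q := by
      rcases hs a h2 h1 with e | e | e
      · rw [e]; exact ⟨2, by ring⟩
      · rw [e]; exact ⟨6, by ring⟩
      · rw [e]; exact ⟨3, by ring⟩
    have h4 : ((6 * q : ℕ) : ZMod m) * a = 0 := by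
      rw [← nsmul_eq_mul]
      exact addOrderOf_dvd_iff_nsmul_eq_zero.mp h3
    obtain ⟨k, hk⟩ := (exists_jj_iff hm a).mpr h4
    exact ha k hk
  rw [PH_push_up_one hD hK hQ hfe hm hd6 hdf (fun k => part1 q A (jj hm k)) (fun _ => rfl) hoff
    (fun a ha => (part1_supp ha).1)]
  set τ := ZMod.unitsMap hd6 t with hτ
  set e := ZMod.chineseRemainder hcop with he
  have he1 : ∀ k : ZMod (6 * q), e k = ((k.val : ZMod 6), (k.val : ZMod q)) := by
    intro k
    conv_lhs => rw [← ZMod.natCast_zmod_val k, map_natCast]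
    rfl
  have hcast : ∀ k : ZMod (6 * q), ZMod.castHom hdf (ZMod 6) k = (e k).1 := by
    intro k
    rw [he1]
    conv_lhs => rw [← ZMod.natCast_zmod_val k, map_natCast]
  have hodd := part1_odd (q := q) ho
  -- the value at a pair
  have hval : ∀ (x : ZMod 6) (y : ZMod q), y ≠ 0 →
      part1 q A (jj hm (e.symm (x, y))) * W τ x + part1 q A (jj hm (e.symm (x, -y))) * W τ x
        = if x = 2 ∨ x = 4 then c * W τ 2 else 0 := by
    intro x y hy
    have hz : ∀ y' : ZMod q, (x = 1 ∨ x = 5) → part1 q A (jj hm (e.symm (x, y'))) = 0 := by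
      intro y' hx
      by_contra h
      obtain ⟨h1, h2⟩ := part1_supp h
      have h3 := hs _ h2 h1
      rw [addOrderOf_jj] at h3
      have h4 : ∀ r : ℕ, addOrderOf (e.symm (x, y')) ∣ r → ((r : ℕ) : ZMod 6) * x = 0 := by
        intro r hr
        have h5 : r • (e.symm (x, y')) = 0 := addOrderOf_dvd_iff_nsmul_eq_zero.mp hr
        have h6 := congrArg e h5
        rw [map_nsmul, e.apply_symm_apply, map_zero] at h6
        have h7 := congrArg Prod.fst h6
        rw [Prod.smul_fst, nsmul_eq_mul] at h7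
        exact h7
      have h5 : ∀ r : ℕ, ((r : ℕ) : ZMod 6) * x = 0 → 6 ∣ r := by
        intro r hr
        have : ((r : ℕ) : ZMod 6) = 0 := by
          rcases hx with rfl | rfl
          · simpa using hr
          · have h8 := congrArg (fun z : ZMod 6 => z * 5) hr
            simp only [mul_assoc, zero_mul] at h8
            have h9 : (5 : ZMod 6) * 5 = 1 := by decide
            rw [h9, mul_one] at h8
            exact h8
        exact (ZMod.natCast_eq_zero_iff r 6).mp this
      have hodd2 : ¬ 2 ∣ q := by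
        intro h
        have := (Nat.prime_dvd_prime_iff_eq Nat.prime_two hq).mp h
        omega
      have hodd3 : ¬ 3 ∣ q := by
        intro h
        have := (Nat.prime_dvd_prime_iff_eq Nat.prime_three hq).mp h
        omega
      rcases h3 with e3 | e3 | e3
      · have := h5 _ (h4 (3 * q) (by rw [e3]))
        omega
      · have := h5 _ (h4 q (by rw [e3]))
        omega
      · have := h5 _ (h4 (2 * q) (by rw [e3]))
        omega
    have hk : ∀ (x' : ZMod 6) (y' : ZMod q), (((e.symm (x', y')).val : ℕ) : ZMod 6) = x' ∧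
        (((e.symm (x', y')).val : ℕ) : ZMod q) = y' := by
      intro x' y'
      have h1 := he1 (e.symm (x', y'))
      rw [e.apply_symm_apply] at h1
      exact ⟨(congrArg Prod.fst h1).symm, (congrArg Prod.snd h1).symm⟩
    have htwo : ∀ y' : ZMod q, y' ≠ 0 → part1 q A (jj hm (e.symm (2, y')))
        + part1 q A (jj hm (e.symm (2, -y'))) = c := by
      intro y' hy'
      have a1 := hk 2 y'
      have a2 := hk 2 (-y')
      have m1 : ∀ v : ℕ, ((v : ℕ) : ZMod 6) = 2 → v % 6 = 2 := by
        intro v hv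
        have h1 : ((v : ℕ) : ZMod 6) = ((2 : ℕ) : ZMod 6) := by rw [hv]; rfl
        exact (ZMod.natCast_eq_natCast_iff v 2 6).mp h1
      refine cst_aux hq hq3 hm hc _ _ (m1 _ a1.1) (m1 _ a2.1) ?_ ?_ ?_
      · rw [← ZMod.natCast_eq_zero_iff, Nat.cast_add, a1.2, a2.2, add_neg_cancel]
      · rw [← ZMod.natCast_eq_zero_iff, a1.2]
        exact hy'
      · rw [← ZMod.natCast_eq_zero_iff, a2.2]
        exact neg_ne_zero.mpr hy'
    have hneg : ∀ y' : ZMod q, part1 q A (jj hm (e.symm (4, y')))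
        = - part1 q A (jj hm (e.symm (2, -y'))) := by
      intro y'
      have h1 : e.symm ((4 : ZMod 6), y') = - e.symm (2, -y') := by
        rw [← map_neg]
        congr 1
        ext
        · show (4 : ZMod 6) = -2
          decide
        · simp
      rw [h1, map_neg, hodd]
    have hall : ∀ z : ZMod 6, z = 0 ∨ z = 1 ∨ z = 2 ∨ z = 3 ∨ z = 4 ∨ z = 5 := by decide
    have hx6 := hall x
    rcases hx6 with h | h | h | h | h | h
    · subst h
      rw [if_neg (by decide)]
      have : W τ (0 : ZMod 6) = 0 := by unfold W; rw [if_pos rfl]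
      rw [this]; ring
    · rw [hz y (Or.inl h), hz (-y) (Or.inl h), if_neg (by rw [h]; decide)]
      ring
    · subst h
      rw [if_pos (Or.inl rfl), ← add_mul, htwo y hy]
    · subst h
      rw [if_neg (by decide), W_three_six]; ring
    · subst h
      have hW : W τ (4 : ZMod 6) = - W τ 2 := by
        rw [← W_neg']
        congr 1
      rw [if_pos (Or.inr rfl), hneg, hneg, hW, neg_neg]
      have h2 := htwo y hy
      linear_combination (W τ 2) * h2
    · rw [hz y (Or.inr h), hz (-y) (Or.inr h), if_neg (by rw [h]; decide)]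
      ring
  have hzero : ∀ x : ZMod 6, part1 q A (jj hm (e.symm (x, 0))) = 0 := by
    intro x
    by_contra h
    obtain ⟨h1, -⟩ := part1_supp h
    rw [addOrderOf_jj] at h1
    have h2 : 6 • e.symm (x, (0 : ZMod q)) = 0 := by
      apply e.injective
      rw [map_nsmul, e.apply_symm_apply, map_zero]
      ext
      · show 6 • x = 0
        rw [nsmul_eq_mul]
        have : ((6 : ℕ) : ZMod 6) = 0 := by decide
        rw [this, zero_mul]
      · simp
    exact hq6 (h1.trans (addOrderOf_dvd_of_nsmul_eq_zero h2))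
  have hsum : ∑ k : ZMod (6 * q), part1 q A (jj hm k) * W τ (ZMod.castHom hdf (ZMod 6) k)
      = ((q : ℤ) - 1) * (c * W τ 2) := by
    have h1 : ∑ k : ZMod (6 * q), part1 q A (jj hm k) * W τ (ZMod.castHom hdf (ZMod 6) k)
        = ∑ z : ZMod 6 × ZMod q, part1 q A (jj hm (e.symm z)) * W τ z.1 := by
      refine Fintype.sum_equiv e.toEquiv _ _ fun k => ?_
      show _ = part1 q A (jj hm (e.symm (e k))) * W τ (e k).1
      rw [e.symm_apply_apply, hcast]
    rw [h1, Fintype.sum_prod_type]
    have h2 : ∀ x : ZMod 6, 2 * ∑ y : ZMod q, part1 q A (jj hm (e.symm (x, y))) * W τ x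
        = ((q : ℤ) - 1) * (if x = 2 ∨ x = 4 then c * W τ 2 else 0) := by
      intro x
      have h3 : ∑ y : ZMod q, part1 q A (jj hm (e.symm (x, y))) * W τ x
          = ∑ y : ZMod q, part1 q A (jj hm (e.symm (x, -y))) * W τ x :=
        Fintype.sum_equiv (Equiv.neg _) _ _ fun y => by rw [Equiv.neg_apply, neg_neg]
      have h4 : ∀ y : ZMod q, part1 q A (jj hm (e.symm (x, y))) * W τ x
          + part1 q A (jj hm (e.symm (x, -y))) * W τ x
          = (1 - (if y = 0 then 1 else 0)) * (if x = 2 ∨ x = 4 then c * W τ 2 else 0) := by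
        intro y
        by_cases hy : y = 0
        · rw [hy, neg_zero, hzero, if_pos rfl]
          ring
        · rw [hval x y hy, if_neg hy]
          ring
      rw [two_mul]
      nth_rewrite 2 [h3]
      rw [← sum_add_distrib, sum_congr rfl fun y _ => h4 y, ← sum_mul, sum_sub_distrib, sum_const,
        card_univ, ZMod.card, sum_ite_eq']
      simp
    have h5 : 2 * ∑ x : ZMod 6, ∑ y : ZMod q, part1 q A (jj hm (e.symm (x, y))) * W τ x
        = 2 * (((q : ℤ) - 1) * (c * W τ 2)) := by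
      rw [mul_sum, sum_congr rfl fun x _ => h2 x, ← mul_sum]
      have h6 : ∀ z : ℤ, ∑ x : ZMod 6, (if x = 2 ∨ x = 4 then z else 0) = 2 * z := by
        intro z
        rw [← sum_filter, sum_const, nsmul_eq_mul]
        have : (univ.filter fun x : ZMod 6 => x = 2 ∨ x = 4).card = 2 := by decide
        rw [this]
        norm_num
      rw [h6]
      ring
    linarith
  have hjj3 : jj hd (1 : ZMod 3) = jj hd6 (2 : ZMod 6) := by
    have h1 : jj hd (1 : ZMod 3) = ((n / 3 * 1 : ℕ) : ZMod n) := by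
      have := jj_natCast hd 1
      rwa [Nat.cast_one] at this
    have h2 : jj hd6 (2 : ZMod 6) = ((n / 6 * 2 : ℕ) : ZMod n) := by
      have := jj_natCast hd6 2
      rwa [Nat.cast_ofNat] at this
    rw [h1, h2]
    congr 1
    omega
  have hfin : (∑ k : ZMod (6 * q), (fun k => part1 q A (jj hm k)) k
      * W τ (ZMod.castHom hdf (ZMod 6) k)) = ((q : ℤ) - 1) * (c * W τ 2) := hsum
  rw [hfin, hjj3, W_jj]
  have h6 : (Q.totient : ℤ) = (q ^ (K - 1) : ℕ) * ((q : ℤ) - 1) := by
    rw [hQ, Nat.totient_prime_pow hq (Nat.pos_of_ne_zero hK)]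
    push_cast [Nat.cast_sub hq.one_lt.le]
    ring
  rw [h6]
  ring

end Pool.Agent.Lib.MP_938ce2_ag_h99v
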