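import Pool.Agent.Lib.MP_938ce2_ag_h99v.RD

/-!
The part of order prime to `q`.
-/

set_option autoImplicit false
set_option linter.style.haveILetI false
set_option linter.unusedSectionVars false

open Finset

namespace Pool.Agent.Lib.MP_938ce2_ag_h99v

open Pool.Agent.Lib.MP_938ce2_ag_h99 Pool.Agent.Lib.MP_938ce2_ag_h6
open Pool.Agent.Lib.MP_938ce2_ag_h99t

variable {m : ℕ} [NeZero m]

private def hh (x : ℕ) : ℤ := if x % 3 = 1 then 1 else if x % 3 = 2 then -1 else 0

private lemma sum_hh (n : ℕ) : ∑ x ∈ range (3 * n), hh x * (x : ℤ) = -(n : ℤ) := by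
  induction n with
  | zero => simp
  | succ n ih =>
    have h1 : 3 * (n + 1) = 3 * n + 1 + 1 + 1 := by ring
    rw [h1, sum_range_succ, sum_range_succ, sum_range_succ, ih]
    have e0 : hh (3 * n) = 0 := by
      have : (3 * n) % 3 = 0 := by omega
      simp [hh, this]
    have e1 : hh (3 * n + 1) = 1 := by
      have : (3 * n + 1) % 3 = 1 := by omega
      simp [hh, this]
    have e2 : hh (3 * n + 1 + 1) = -1 := by
      have : (3 * n + 1 + 1) % 3 = 2 := by omega
      simp [hh, this]
    rw [e0, e1, e2]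
    push_cast
    ring

/-- the unit congruent to `1` modulo `6` and to `-1` modulo `q` -/
private lemma exists_tau {q : ℕ} (hq : q.Prime) (hq3 : 3 < q) (hm : 6 * q ∣ m) :
    ∃ (s : (ZMod m)ˣ) (S : ℤ), (s : ZMod m) = (S : ZMod m) ∧ (6 : ℤ) ∣ S - 1 ∧
      (q : ℤ) ∣ S + 1 := by
  have hcop : IsCoprime (6 : ℤ) (q : ℤ) := by
    have : Nat.Coprime 6 q := by
      rw [Nat.coprime_comm]
      refine (Nat.Prime.coprime_iff_not_dvd hq).2 fun h => ?_
      have h2 : q ∣ 2 * 3 := h
      rcases (Nat.Prime.dvd_mul hq).1 h2 with h3 | h3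
      · have := Nat.le_of_dvd (by norm_num) h3; omega
      · have := Nat.le_of_dvd (by norm_num) h3; omega
    have h1 := Nat.isCoprime_iff_coprime.2 this
    exact_mod_cast h1
  obtain ⟨u, v, huv⟩ := hcop
  -- u * 6 + v * q = 1
  set τ : ℤ := v * q - u * 6 with hτ
  have h6 : (6 : ℤ) ∣ τ - 1 := ⟨-2 * u, by rw [hτ, ← huv]; ring⟩
  have hqd : (q : ℤ) ∣ τ + 1 := ⟨2 * v, by rw [hτ, ← huv]; ring⟩
  have hc6 : IsCoprime τ (6 : ℤ) := by
    obtain ⟨k, hk⟩ := h6
    exact ⟨1, -k, by linear_combination hk⟩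
  have hcq : IsCoprime τ (q : ℤ) := by
    obtain ⟨k, hk⟩ := hqd
    exact ⟨-1, k, by linear_combination -hk⟩
  have hc : IsCoprime τ ((6 * q : ℕ) : ℤ) := by
    push_cast
    exact hc6.mul_right hcq
  have hu : IsUnit ((τ : ℤ) : ZMod (6 * q)) := by
    rw [ZMod.coe_int_isUnit_iff_isCoprime]
    exact hc.symm
  obtain ⟨w, hw⟩ := hu
  obtain ⟨s, hs⟩ := ZMod.unitsMap_surjective hm w
  obtain ⟨S, hS⟩ := ZMod.intCast_surjective (s : ZMod m)
  have h1 : (((S - τ : ℤ)) : ZMod (6 * q)) = 0 := by
    have h2 : ZMod.castHom hm (ZMod (6 * q)) (s : ZMod m) = (w : ZMod (6 * q)) := by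
      rw [← hs]
      rfl
    rw [← hS, map_intCast] at h2
    push_cast
    rw [h2, hw, sub_self]
  rw [ZMod.intCast_zmod_eq_zero_iff_dvd] at h1
  refine ⟨s, S, hS.symm, ?_, ?_⟩
  · have h2 : (6 : ℤ) ∣ S - τ := dvd_trans ⟨(q : ℤ), by push_cast; ring⟩ h1
    have := dvd_add h2 h6
    simpa using this
  · have h2 : (q : ℤ) ∣ S - τ := dvd_trans ⟨(6 : ℤ), by push_cast; ring⟩ h1
    have := dvd_add h2 hqd
    have e : S - τ + (τ + 1) = S + 1 := by ring
    rwa [e] at this

/-- the sum over the torsion -/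
private lemma sum_torsion {f : ℕ} (hf : f ∣ m) {D : ZMod m → ℤ}
    (hD : ∀ a, D a ≠ 0 → f • a = 0) :
    ∑ a, D a * (a.val : ℤ) = ((m / f : ℕ) : ℤ) * ∑ x ∈ range f, D (pt m f (x : ℤ)) * (x : ℤ) := by
  haveI : NeZero f := ⟨f_ne_zero hf⟩
  have hm0 : 0 < m := Nat.pos_of_ne_zero (NeZero.ne m)
  have hf0 : 0 < f := Nat.pos_of_ne_zero (NeZero.ne f)
  have hK : m / f * f = m := Nat.div_mul_cancel hf
  have hval : ∀ x ∈ range f, (pt m f (x : ℤ)).val = m / f * x := by
    intro x hx
    rw [pt_eq_jj hf, jj_val hf]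
    congr 1
    rw [Int.cast_natCast, ZMod.val_natCast_of_lt (mem_range.1 hx)]
  have hinj : Set.InjOn (fun x : ℕ => pt m f (x : ℤ)) (range f : Set ℕ) := by
    intro x hx y hy hxy
    have h1 := hval x (by simpa using hx)
    have h2 := hval y (by simpa using hy)
    simp only at hxy
    rw [hxy, h2] at h1
    exact (Nat.eq_of_mul_eq_mul_left (Nat.div_pos (Nat.le_of_dvd hm0 hf) hf0) h1).symm
  rw [mul_sum]
  have h1 : ∑ x ∈ range f, ((m / f : ℕ) : ℤ) * (D (pt m f (x : ℤ)) * (x : ℤ)) =
      ∑ a ∈ (range f).image (fun x : ℕ => pt m f (x : ℤ)), D a * (a.val : ℤ) := by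
    rw [sum_image (fun x hx y hy h => hinj (by simpa using hx) (by simpa using hy) h)]
    refine sum_congr rfl fun x hx => ?_
    rw [hval x hx]
    push_cast
    ring
  rw [h1]
  symm
  refine sum_subset (subset_univ _) fun a _ ha => ?_
  by_cases hDa : D a = 0
  · rw [hDa, zero_mul]
  · exfalso
    apply ha
    have h2 := hD a hDa
    rw [nsmul_eq_mul, ← ZMod.natCast_zmod_val a, ← Nat.cast_mul, ZMod.natCast_eq_zero_iff] at h2
    have h3 : m / f ∣ a.val := by
      have h3 : f * (m / f) ∣ f * a.val := by rwa [Nat.mul_div_cancel' hf]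
      exact Nat.dvd_of_mul_dvd_mul_left hf0 h3
    obtain ⟨k, hk⟩ := h3
    refine mem_image.2 ⟨k, mem_range.2 ?_, ?_⟩
    · have h4 := ZMod.val_lt a
      rw [hk] at h4
      by_contra hcon
      push Not at hcon
      have h5 : m / f * f ≤ m / f * k := Nat.mul_le_mul_left _ hcon
      omega
    · apply ZMod.val_injective m
      rw [hval k]
      · exact hk.symm
      · have h4 := ZMod.val_lt a
        rw [hk] at h4
        rw [mem_range]
        by_contra hcon
        push Not at hcon
        have h5 : m / f * f ≤ m / f * k := Nat.mul_le_mul_left _ hcon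
        omega

open Pool.Agent.Lib.MP_938ce2_ag_H7f Pool.Agent.Lib.MP_938ce2_ag_H7e in
/-- Sum of the Tate conditions over the units `t` with `t = 1` modulo `n` (or of `ZMod (6 q)`, all
elements of the support being in the `6 q`-torsion). The elements of order `q`, `2 q` contribute
zero by oddness; for `a = (b, x)` with `b = 1 / 3` or `2 / 3` and `x` in `ZMod q` not zero the sum of
the fractional parts minus one half over the `q - 1` values is `B (q b) - B b`, where
`B (1 / 3) = - 1 / 6`, `B (2 / 3) = 1 / 6`. With `A (1 / 3) = g = - A (2 / 3)` this gives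
`2 g = (1 - χ q)` where `χ q = 1` for `q = 1` modulo `3` and `- 1` for `q = 2` modulo `3`, so
`g = 0` or `g = 1`. -/
lemma norm_cst {q : ℕ} (hq : q.Prime) (hq3 : 3 < q) (hm : 6 * q ∣ m) {A : ZMod m → ℤ}
    (ho : OddF A) (hT : TateF A)
    (hs : ∀ a, A a ≠ 0 → addOrderOf a = 3 * q ∨ addOrderOf a = q ∨ addOrderOf a = 2 * q ∨
      addOrderOf a = 3) (hc : Cst A q 1) : ∑ a, |part0 q A a| ≤ 2 := by
  obtain ⟨s, S, hsS, hS6, hSq⟩ := exists_tau (m := m) hq hq3 hm
  have hf : 3 * q ∣ m := dvd_trans ⟨2, by ring⟩ hm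
  have hm0 : 0 < m := Nat.pos_of_ne_zero (NeZero.ne m)
  have hS3 : (3 : ℤ) ∣ S - 1 := dvd_trans ⟨2, by norm_num⟩ hS6
  have hS2 : (2 : ℤ) ∣ S + 1 := by
    have : (2 : ℤ) ∣ S - 1 := dvd_trans ⟨3, by norm_num⟩ hS6
    omega
  have hq0 : 0 < q := hq.pos
  have hq3' : ¬ 3 ∣ q := fun h => by
    have := (Nat.prime_dvd_prime_iff_eq Nat.prime_three hq).1 h
    omega
  have hqodd : ¬ 2 ∣ q := fun h => by
    have := (Nat.prime_dvd_prime_iff_eq Nat.prime_two hq).1 h
    omega
  -- D
  set D : ZMod m → ℤ := fun a => A a + A ((s : ZMod m) * a) with hDdef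
  have hsum : ∑ a, D a * (a.val : ℤ) = 0 := by
    have h1 := hT 1
    have h2 := hT s⁻¹
    have h3 : ∑ a, A a * (((s⁻¹ : (ZMod m)ˣ) : ZMod m) * a).val =
        ∑ a, A ((s : ZMod m) * a) * (a.val : ℤ) := by
      symm
      refine Fintype.sum_equiv (Units.mulLeft s) _ _ fun a => ?_
      simp
    rw [h3] at h2
    simp only [hDdef, add_mul, sum_add_distrib]
    rw [h2]
    simpa using h1
  have hord : ∀ a : ZMod m, ∀ n : ℕ, addOrderOf ((s : ZMod m) * a) = n → n • a = 0 := by
    intro a n h
    have h1 : n • ((s : ZMod m) * a) = 0 := by rw [← h]; exact addOrderOf_nsmul_eq_zero _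
    have h2 : (s : ZMod m) * (n • a) = 0 := by
      rw [nsmul_eq_mul] at h1 ⊢
      linear_combination h1
    exact (Units.mul_right_eq_zero s).1 h2
  have hneg : ∀ a : ZMod m, (2 * q) • a = 0 → D a = 0 := by
    intro a ha
    have h1 : (s : ZMod m) * a = -a := by
      have h2 : ((2 * q : ℕ) : ℤ) ∣ S + 1 := by
        push_cast
        refine IsCoprime.mul_dvd ?_ hS2 hSq
        have := Nat.isCoprime_iff_coprime.2 ((Nat.Prime.coprime_iff_not_dvd Nat.prime_two).2 hqodd)
        exact_mod_cast this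
      obtain ⟨k, hk⟩ := h2
      have h3 : (s : ZMod m) * a + a = 0 := by
        have h4 : (s : ZMod m) * a + a = ((S + 1 : ℤ) : ZMod m) * a := by
          rw [hsS]; push_cast; ring
        rw [h4, hk]
        rw [nsmul_eq_mul] at ha
        push_cast at ha ⊢
        linear_combination (k : ZMod m) * ha
      exact eq_neg_of_add_eq_zero_left h3
    simp only [hDdef]
    rw [h1, ho]
    ring
  have hDsupp : ∀ a, D a ≠ 0 → (3 * q) • a = 0 := by
    intro a ha
    have h1 : ∃ n : ℕ, n • a = 0 ∧ (n = 3 * q ∨ n = q ∨ n = 2 * q ∨ n = 3) := by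
      by_cases h : A a = 0
      · have h2 : A ((s : ZMod m) * a) ≠ 0 := by
          intro h3
          apply ha
          simp only [hDdef]
          rw [h, h3]
          rfl
        exact ⟨_, hord a _ rfl, hs _ h2⟩
      · exact ⟨_, addOrderOf_nsmul_eq_zero a, hs _ h⟩
    obtain ⟨n, hn, hn'⟩ := h1
    rcases hn' with h | h | h | h
    · rw [← h]; exact hn
    · rw [← h, mul_nsmul', hn, nsmul_zero]
    · exact absurd (hneg a (h ▸ hn)) ha
    · rw [← h, mul_nsmul, hn, nsmul_zero]
  rw [sum_torsion hf hDsupp] at hsum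
  have hK : ((m / (3 * q) : ℕ) : ℤ) ≠ 0 := by
    have : 0 < m / (3 * q) := Nat.div_pos (Nat.le_of_dvd hm0 hf) (by positivity)
    positivity
  have hsum2 : ∑ x ∈ range (3 * q), D (pt m (3 * q) (x : ℤ)) * (x : ℤ) = 0 := by
    rcases mul_eq_zero.1 hsum with h | h
    · exact absurd h hK
    · exact h
  have hspt : ∀ x : ℤ, (s : ZMod m) * pt m (3 * q) x = pt m (3 * q) (S * x) := by
    intro x
    rw [hsS]
    unfold pt
    push_cast
    ring
  set g : ℤ := A (pt m (3 * q) (q : ℤ)) with hg
  -- values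
  have v0 : ∀ x : ℕ, x % 3 = 0 → D (pt m (3 * q) (x : ℤ)) = 0 := by
    intro x hx
    apply hneg
    obtain ⟨y, rfl⟩ : 3 ∣ x := by omega
    rw [nsmul_eq_mul]
    unfold pt
    have h1 : m / (3 * q) * (3 * q) = m := Nat.div_mul_cancel hf
    have h2 : ((m / (3 * q) : ℕ) : ZMod m) * (3 * q) = 0 := by
      have := congrArg (fun n : ℕ => (n : ZMod m)) h1
      simp only [Nat.cast_mul, ZMod.natCast_self] at this
      exact_mod_cast this
    rw [Int.cast_mul, Int.cast_natCast, Int.cast_natCast]
    push_cast [-Nat.cast_div_charZero]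
    linear_combination (2 * (y : ZMod m)) * h2
  have v1 : ∀ x : ℕ, x % 3 = 1 → ¬ q ∣ x → D (pt m (3 * q) (x : ℤ)) = 1 := by
    intro x hx hqx
    simp only [hDdef]
    rw [hspt]
    obtain ⟨k, hk⟩ := hS3
    have hx3 : (3 : ℤ) ∣ (x : ℤ) - 1 := by omega
    refine hc x (S * x) hx3 ?_ ?_ ?_
    · have e : S * (x : ℤ) - 1 = (S - 1) * x + (x - 1) := by ring
      rw [e, hk]
      exact dvd_add ⟨k * x, by ring⟩ hx3
    · have e : (x : ℤ) + S * x = (S + 1) * x := by ring
      rw [e]
      exact Dvd.dvd.mul_right hSq _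
    · exact_mod_cast hqx
  have v2 : ∀ x : ℕ, x % 3 = 2 → ¬ q ∣ x → D (pt m (3 * q) (x : ℤ)) = -1 := by
    intro x hx hqx
    simp only [hDdef]
    rw [hspt]
    obtain ⟨k, hk⟩ := hS3
    have hx3 : (3 : ℤ) ∣ -(x : ℤ) - 1 := by omega
    have h1 := hc (-(x : ℤ)) (-(S * x)) hx3 ?_ ?_ ?_
    · rw [pt_neg, pt_neg, ho, ho] at h1
      linarith
    · have e : -(S * (x : ℤ)) - 1 = (S - 1) * (-x) + (-x - 1) := by ring
      rw [e, hk]
      exact dvd_add ⟨k * (-x), by ring⟩ hx3
    · have e : -(x : ℤ) + -(S * x) = (S + 1) * (-x) := by ring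
      rw [e]
      exact Dvd.dvd.mul_right hSq _
    · intro h
      exact hqx (by exact_mod_cast (dvd_neg.1 h))
  have hsq : ∀ k : ℤ, pt m (3 * q) (S * (k * q)) = pt m (3 * q) (k * q) := by
    intro k
    apply pt_congr hf
    obtain ⟨l, hl⟩ := hS3
    refine ⟨l * k, ?_⟩
    push_cast
    linear_combination (k * q : ℤ) * hl
  have w1 : D (pt m (3 * q) ((q : ℕ) : ℤ)) = 2 * g := by
    simp only [hDdef]
    have := hsq 1
    rw [one_mul] at this
    rw [hspt, this, hg]
    ring
  have w2 : D (pt m (3 * q) ((2 * q : ℕ) : ℤ)) = - (2 * g) := by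
    simp only [hDdef]
    have := hsq 2
    push_cast
    have e2 : pt m (3 * q) (2 * (q : ℤ)) = - pt m (3 * q) (q : ℤ) := by
      rw [← pt_neg]
      apply pt_congr hf
      exact ⟨1, by push_cast; ring⟩
    rw [hspt, this, e2, ho, hg]
    ring
  -- the sum
  have hDx : ∀ x ∈ range (3 * q), D (pt m (3 * q) (x : ℤ)) * (x : ℤ) = hh x * (x : ℤ)
      + ((if x = q then (2 * g - hh q) * q else 0) +
        (if x = 2 * q then (- (2 * g) - hh (2 * q)) * (2 * q) else 0)) := by
    intro x hx
    rw [mem_range] at hx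
    by_cases hxq : q ∣ x
    · obtain ⟨k, rfl⟩ := hxq
      have hk : k < 3 := by
        by_contra hcon
        push Not at hcon
        have := Nat.mul_le_mul_left q hcon
        omega
      interval_cases k
      · rw [if_neg (by omega), if_neg (by omega)]
        simp
      · simp only [mul_one, if_true]
        rw [w1, if_neg (by omega)]
        ring
      · rw [if_neg (by omega), if_pos (by ring)]
        have e : ((q * 2 : ℕ) : ℤ) = ((2 * q : ℕ) : ℤ) := by push_cast; ring
        rw [e, w2, mul_comm q 2]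
        push_cast
        ring
    · have n1 : x ≠ q := by rintro rfl; exact hxq dvd_rfl
      have n2 : x ≠ 2 * q := by rintro rfl; exact hxq ⟨2, by ring⟩
      rw [if_neg n1, if_neg n2]
      have h3 : x % 3 < 3 := Nat.mod_lt _ (by norm_num)
      rcases Nat.lt_trichotomy (x % 3) 1 with h | h | h
      · have h0 : x % 3 = 0 := by omega
        rw [v0 x h0]
        simp [hh, h0]
      · rw [v1 x h hxq]
        simp [hh, h]
      · have h2 : x % 3 = 2 := by omega
        rw [v2 x h2 hxq]
        simp [hh, h2]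
  rw [sum_congr rfl hDx, sum_add_distrib, sum_add_distrib, sum_hh, sum_ite_eq', sum_ite_eq',
    if_pos (mem_range.2 (by omega)), if_pos (mem_range.2 (by omega))] at hsum2
  have hqz : (q : ℤ) ≠ 0 := by exact_mod_cast hq0.ne'
  have hmod : q % 3 = 1 ∨ q % 3 = 2 := by omega
  have hgle : |g| ≤ 1 := by
    have h1 : (-1 - 2 * g + hh q) * (q : ℤ) = 0 ∨ False := by
      left
      have hh2 : hh (2 * q) = - hh q := by
        rcases hmod with h | h
        · have : (2 * q) % 3 = 2 := by omega
          simp [hh, h, this]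
        · have : (2 * q) % 3 = 1 := by omega
          simp [hh, h, this]
      rw [hh2] at hsum2
      linear_combination hsum2
    have h2 : -1 - 2 * g + hh q = 0 := by
      rcases h1 with h1 | h1
      · rcases mul_eq_zero.1 h1 with h | h
        · exact h
        · exact absurd h hqz
      · exact h1.elim
    have h3 : hh q = 1 ∨ hh q = -1 := by
      rcases hmod with h | h
      · left; simp [hh, h]
      · right; simp [hh, h]
    rw [abs_le]
    rcases h3 with h | h <;> rw [h] at h2 <;> constructor <;> omega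
  -- the conclusion
  set b : ZMod m := pt m (3 * q) (q : ℤ) with hb
  have hbound : ∀ a, |part0 q A a| ≤ (if a = b then |g| else 0) + (if a = -b then |g| else 0) := by
    intro a
    have nn : 0 ≤ (if a = b then |g| else 0) + (if a = -b then |g| else 0) := by
      apply add_nonneg <;> split_ifs <;> positivity
    by_cases hz : part0 q A a = 0
    · rw [hz, abs_zero]; exact nn
    · obtain ⟨h1, h2⟩ := part0_supp hz
      have h3 : addOrderOf a = 3 := by
        rcases hs a h2 with h | h | h | h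
        · exact absurd ⟨3, by rw [h]; ring⟩ h1
        · exact absurd ⟨1, by rw [h]; ring⟩ h1
        · exact absurd ⟨2, by rw [h]; ring⟩ h1
        · exact h
      have hp : part0 q A a = A a := by
        unfold part0
        rw [if_neg h1]
      obtain ⟨k, hk, hak⟩ := exists_pt h3
      have h3m : 3 ∣ m := dvd_trans ⟨q, rfl⟩ hf
      have hb1 : b = pt m 3 1 := by
        rw [hb]
        unfold pt
        congr 1
        have e1 : m / 3 = m / (3 * q) * q := by
          obtain ⟨c, hc'⟩ := hf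
          rw [hc', Nat.mul_div_cancel_left _ (by positivity : 0 < 3 * q), mul_assoc,
            Nat.mul_div_cancel_left _ (by norm_num : 0 < 3)]
          ring
        rw [e1]
        push_cast
        ring
      have hk3 : (3 : ℤ) ∣ k - 1 ∨ (3 : ℤ) ∣ k - (-1) := by
        have h4 : ¬ (3 : ℤ) ∣ k := by
          intro h5
          have h6 := hk.isUnit_of_dvd' h5 dvd_rfl
          have h7 : IsUnit (3 : ℤ) := by exact_mod_cast h6
          rw [Int.isUnit_iff] at h7
          omega
        omega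
      rcases hk3 with h | h
      · have : a = b := by
          rw [hak, hb1]
          exact pt_congr h3m (by exact_mod_cast h)
        rw [hp, this, if_pos rfl]
        have nn2 : 0 ≤ (if b = -b then |g| else 0) := by split_ifs <;> positivity
        linarith
      · have : a = -b := by
          rw [hak, hb1, ← pt_neg]
          exact pt_congr h3m (by exact_mod_cast h)
        rw [hp, this, ho, if_pos rfl, abs_neg]
        have nn2 : 0 ≤ (if -b = b then |g| else 0) := by split_ifs <;> positivity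
        linarith
  calc ∑ a, |part0 q A a| ≤ ∑ a, ((if a = b then |g| else 0) + (if a = -b then |g| else 0)) :=
        sum_le_sum fun a _ => hbound a
    _ = |g| + |g| := by
        rw [sum_add_distrib, sum_ite_eq', sum_ite_eq', if_pos (mem_univ _), if_pos (mem_univ _)]
    _ ≤ 2 := by linarith

end Pool.Agent.Lib.MP_938ce2_ag_h99v
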