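import Pool.Agent.Lib.MP_938ce2_ag_h99v.R01
import Pool.Agent.Lib.MP_938ce2_ag_h99v.R02
import Pool.Agent.Lib.MP_938ce2_ag_h99v.R03

/-!
Reference functions from the class of the pair `3, q`.
-/

set_option autoImplicit false
set_option linter.style.haveILetI false
set_option linter.unusedSectionVars false

open Finset

namespace Pool.Agent.Lib.MP_938ce2_ag_h99v

open Pool.Agent.Lib.MP_938ce2_ag_h99 Pool.Agent.Lib.MP_938ce2_ag_h6
open Pool.Agent.Lib.MP_938ce2_ag_h99t

variable {m : ℕ} [NeZero m]

private lemma natCast_pt' (p f : ℕ) (h : p * f ∣ m) (hp : 0 < p) (hf : 0 < f) (x : ℤ) :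
    ((p : ℕ) : ZMod m) * pt m (p * f) x = pt m f x := by
  obtain ⟨c, hc⟩ := h
  have h1 : m / (p * f) = c := by
    rw [hc]
    exact Nat.mul_div_cancel_left _ (Nat.mul_pos hp hf)
  have h2 : m / f = p * c := by
    rw [hc, mul_comm p f, mul_assoc]
    exact Nat.mul_div_cancel_left _ hf
  unfold pt
  rw [h1, h2]
  push_cast
  ring

private lemma od_ne {c x : ZMod m} (h : od c x ≠ 0) : x = c ∨ x = -c := by
  unfold od at h
  by_cases h1 : x = c
  · exact Or.inl h1
  · by_cases h2 : x = -c
    · exact Or.inr h2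
    · rw [if_neg h1, if_neg h2] at h
      exact absurd rfl h

private lemma od_self {c : ZMod m} (h : c ≠ -c) : od c c = 1 := by
  unfold od
  rw [if_pos rfl, if_neg h]
  norm_num

private lemma rel_supp {p : ℕ} {c x : ZMod m} (hc : addOrderOf c = 3)
    (h : rel p (od c) x ≠ 0) : addOrderOf x ∣ 3 * p ∧ 3 ∣ addOrderOf x := by
  have key : ∀ y : ZMod m, od c y ≠ 0 → addOrderOf y = 3 := by
    intro y hy
    rcases od_ne hy with rfl | rfl
    · exact hc
    · rw [addOrderOf_neg, hc]
  have h1 : od c ((p : ZMod m) * x) ≠ 0 ∨ od c x ≠ 0 := by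
    by_contra h2
    push Not at h2
    apply h
    unfold rel
    rw [h2.1, h2.2, sub_zero]
  rcases h1 with h1 | h1
  · have h2 := key _ h1
    rw [← nsmul_eq_mul] at h2
    constructor
    · apply addOrderOf_dvd_of_nsmul_eq_zero
      rw [mul_smul, ← h2]
      exact addOrderOf_nsmul_eq_zero _
    · rw [← h2]
      exact addOrderOf_smul_dvd p
  · have h2 := key _ h1
    rw [h2]
    exact ⟨Dvd.intro p rfl, dvd_rfl⟩

open Pool.Agent.Lib.MP_938ce2_ag_H7f Pool.Agent.Lib.MP_938ce2_ag_H7e in
/-- Reference functions. Let `E`, `k` be from `h`, `c = 2 i + 1` the constant of `cst_of`,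
`g3 = oddPart {1 / 3}` (values `1` at `1 / 3`, `- 1` at `2 / 3`). The function
`A = E - i • rel q g3` has constant `1`; adding multiples of `rel 2 g3` (values `1, - 1` at `1 / 6`,
`5 / 6`, and `- 2, 2` at `1 / 3`, `2 / 3`) its part of order prime to `q` lives on elements of order
`3` (orders `1` and `2` are impossible by oddness). `R04` then is `PH_cst`, `norm_cst`; for
`b = - jj hd 1` take `- A` (see the end of `ref3_theta` in h99t/RefTheta.lean). -/
theorem ref3_PX (h6 : 6 ∣ m) {q : ℕ} (hq : q.Prime) (hq3 : 3 < q) (hqm : q ∣ m)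
    {X : AddSubgroup (ZMod m → ℤ)} (h : PX X 3 q) : Ref3 m (X ⊔ relSub m) q := by
  classical
  intro Q n K hD hn hQ b hb
  have hK := K_ne_zero hD hQ
  have h2m : 2 ∣ m := (by norm_num : 2 ∣ 6).trans h6
  have h3m : 3 ∣ m := (by norm_num : 3 ∣ 6).trans h6
  have hd : 3 ∣ n := hb ▸ addOrderOf_dvd_m b
  have hcop : Nat.Coprime 3 q := (Nat.coprime_primes Nat.prime_three hq).mpr (by omega)
  have hcop2 : Nat.Coprime 2 q := (Nat.coprime_primes Nat.prime_two hq).mpr (by omega)
  have hcop6 : Nat.Coprime 6 q := by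
    have : Nat.Coprime (2 * 3) q := hcop2.mul_left hcop
    exact this
  have h3q : 3 * q ∣ m := hcop.mul_dvd_of_dvd_of_dvd h3m hqm
  have h6q : 6 * q ∣ m := hcop6.mul_dvd_of_dvd_of_dvd h6 hqm
  have hqpos : 0 < q := hq.pos
  have e3 : ep 3 = 3 := rfl
  have eq' : ep q = q := by
    unfold ep
    rw [if_neg (by omega)]
  obtain ⟨E, hX, hs, k, hk1, hk2, hodd⟩ := h
  rw [e3, eq'] at hs hodd
  rw [e3] at hk1
  rw [eq'] at hk2
  have hlcm : Nat.lcm 2 (3 * q) = 6 * q := by
    have h1 : Nat.Coprime 2 (3 * q) := Nat.Coprime.mul_right (by norm_num) hcop2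
    rw [h1.lcm_eq_mul]
    ring
  rw [hlcm] at hs
  have hC := cst_of hq hq3 h3q hX.odd hX.tate (fun a ha => (hs a ha).2) (by exact_mod_cast hk1) hk2
  obtain ⟨i, hi⟩ := hodd
  set c0 := pt m 3 1 with hc0
  have hoc0 : addOrderOf c0 = 3 := addOrderOf_pt h3m isCoprime_one_left
  have hc0ne : c0 ≠ -c0 := by
    intro h1
    have h2 : 2 • c0 = 0 := by
      rw [two_nsmul]
      nth_rewrite 2 [h1]
      rw [add_neg_cancel]
    have h3 := addOrderOf_dvd_of_nsmul_eq_zero h2
    rw [hoc0] at h3
    revert h3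
    norm_num
  have hod := od_odd c0
  have hqc : ((q : ℕ) : ZMod m) * pt m (3 * q) 1 = c0 := by
    rw [mul_comm 3 q]
    exact natCast_pt' q 3 (by rwa [mul_comm]) hqpos (by norm_num) 1
  have h2c : ((2 : ℕ) : ZMod m) * pt m 6 1 = c0 :=
    natCast_pt' 2 3 h6 (by norm_num) (by norm_num) 1
  have hmemq : rel q (od c0) ∈ relSub m := by
    have := rel_od_mem_relSub hq hqm (pt m (3 * q) 1)
    rwa [hqc] at this
  have hmem2 : rel 2 (od c0) ∈ relSub m := by
    have := rel_od_mem_relSub Nat.prime_two h2m (pt m 6 1)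
    rwa [h2c] at this
  have hoffq : ∀ a, od c0 a ≠ 0 → ∃ b, a = ((q : ℕ) : ZMod m) * b := by
    intro a ha
    rcases od_ne ha with rfl | rfl
    · exact ⟨_, hqc.symm⟩
    · exact ⟨-pt m (3 * q) 1, by rw [mul_neg, hqc]⟩
  have hoff2 : ∀ a, od c0 a ≠ 0 → ∃ b, a = ((2 : ℕ) : ZMod m) * b := by
    intro a ha
    rcases od_ne ha with rfl | rfl
    · exact ⟨_, h2c.symm⟩
    · exact ⟨-pt m 6 1, by rw [mul_neg, h2c]⟩
  have hTq : TateF (rel q (od c0)) := rel_tate hqpos hqm hod hoffq
  have hT2 : TateF (rel 2 (od c0)) := rel_tate (by norm_num) h2m hod hoff2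
  have hOq : OddF (rel q (od c0)) := hod.rel q
  have hO2 : OddF (rel 2 (od c0)) := hod.rel 2
  set j : ℤ := E (pt m 6 1) with hj
  set A : ZMod m → ℤ := E - (i • rel q (od c0) + j • rel 2 (od c0)) with hA
  have hAv : ∀ x, A x = E x - (i * rel q (od c0) x + j * rel 2 (od c0) x) := by
    intro x
    rw [hA]
    simp only [Pi.sub_apply, Pi.add_apply, Pi.smul_apply, smul_eq_mul]
  have hAodd : OddF A := by
    intro x
    rw [hAv, hAv, hX.odd, hOq, hO2]
    ring
  have hAtate : TateF A := by
    intro t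
    have t1 := hX.tate t
    have t2 := hTq t
    have t3 := hT2 t
    have h1 : ∀ a, A a * (((t : ZMod m) * a).val : ℤ) = E a * (((t : ZMod m) * a).val : ℤ)
        - (i * (rel q (od c0) a * (((t : ZMod m) * a).val : ℤ))
          + j * (rel 2 (od c0) a * (((t : ZMod m) * a).val : ℤ))) := by
      intro a
      rw [hAv]
      ring
    rw [sum_congr rfl fun a _ => h1 a, sum_sub_distrib, sum_add_distrib, ← mul_sum, ← mul_sum,
      t1, t2, t3]
    ring
  have hAmem : A ∈ X ⊔ relSub m := by
    apply (X ⊔ relSub m).sub_mem hX.mem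
    apply (X ⊔ relSub m).add_mem
    · exact (X ⊔ relSub m).zsmul_mem (AddSubgroup.mem_sup_right hmemq) i
    · exact (X ⊔ relSub m).zsmul_mem (AddSubgroup.mem_sup_right hmem2) j
  -- values at order 6
  have hord6 : addOrderOf (pt m 6 1) = 6 := addOrderOf_pt h6 isCoprime_one_left
  have hA6 : A (pt m 6 1) = 0 := by
    have h1 : rel q (od c0) (pt m 6 1) = 0 := by
      by_contra h1
      have h2 := (rel_supp hoc0 h1).1
      rw [hord6] at h2
      have h3 : 2 ∣ 3 * q := (by norm_num : 2 ∣ 6).trans h2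
      have h4 := (Nat.Coprime.dvd_mul_left (by norm_num : Nat.Coprime 2 3)).mp h3
      have h5 := (Nat.prime_dvd_prime_iff_eq Nat.prime_two hq).mp h4
      omega
    have h2 : rel 2 (od c0) (pt m 6 1) = 1 := by
      have h3 : od c0 (pt m 6 1) = 0 := by
        by_contra h3
        rcases od_ne h3 with h4 | h4
        · rw [h4, hoc0] at hord6
          norm_num at hord6
        · rw [h4, addOrderOf_neg, hoc0] at hord6
          norm_num at hord6
      unfold rel
      rw [h2c, h3, od_self hc0ne, sub_zero]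
    rw [hAv, h1, h2, hj]
    ring
  have hord : ∀ x, A x ≠ 0 → addOrderOf x = 3 * q ∨ addOrderOf x = q ∨ addOrderOf x = 2 * q ∨
      addOrderOf x = 3 := by
    intro x hx
    have h1 : addOrderOf x ∣ 6 * q ∧ addOrderOf x ≤ 3 * q := by
      by_cases hE : E x = 0
      · by_cases hR : rel q (od c0) x = 0
        · have hR2 : rel 2 (od c0) x ≠ 0 := by
            intro h0
            apply hx
            rw [hAv, hE, hR, h0]
            ring
          have h2 := (rel_supp hoc0 hR2).1
          refine ⟨h2.trans (Dvd.intro q rfl), ?_⟩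
          have := Nat.le_of_dvd (by norm_num) h2
          omega
        · have h2 := (rel_supp hoc0 hR).1
          refine ⟨h2.trans ⟨2, by ring⟩, Nat.le_of_dvd (by omega) h2⟩
      · exact hs x hE
    obtain ⟨h1, h1'⟩ := h1
    obtain ⟨d1, d2, hd1, hd2, hd⟩ := exists_dvd_and_dvd_of_dvd_mul h1
    have hd2' := (Nat.dvd_prime hq).mp hd2
    have hd1' : d1 = 1 ∨ d1 = 2 ∨ d1 = 3 ∨ d1 = 6 := by
      have h2 : d1 ≤ 6 := Nat.le_of_dvd (by norm_num) hd1
      interval_cases d1 <;> revert hd1 <;> norm_num
    have hnot2 : 2 • x ≠ 0 := by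
      intro h2
      have h3 : -x = x := by
        rw [two_nsmul] at h2
        exact (eq_neg_of_add_eq_zero_left h2).symm
      have h4 := hAodd x
      rw [h3] at h4
      apply hx
      linarith
    rcases hd2' with rfl | rfl
    · rw [mul_one] at hd
      rcases hd1' with rfl | rfl | rfl | rfl
      · exfalso
        apply hnot2
        have : x = 0 := AddMonoid.addOrderOf_eq_one_iff.mp hd
        rw [this, smul_zero]
      · exfalso
        apply hnot2
        rw [← hd]
        exact addOrderOf_nsmul_eq_zero x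
      · exact Or.inr (Or.inr (Or.inr hd))
      · exfalso
        apply hx
        obtain ⟨l, hl, hxl⟩ := exists_pt hd
        have hl2 : (6 : ℤ) ∣ l - 1 ∨ (6 : ℤ) ∣ l - (-1) := by
          have h3 : ¬ (2 : ℤ) ∣ l := by
            intro h3
            have h4 := hl.isUnit_of_dvd' h3 (by norm_num)
            revert h4
            decide
          have h4 : ¬ (3 : ℤ) ∣ l := by
            intro h4
            have h5 := hl.isUnit_of_dvd' h4 (by norm_num)
            rw [Int.isUnit_iff] at h5
            omega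
          have h5 : l % 2 = 1 := by omega
          have h6' : l % 3 = 1 ∨ l % 3 = 2 := by omega
          rcases h6' with h6' | h6'
          · left
            clear * - h5 h6'
            omega
          · right
            clear * - h5 h6'
            omega
        rcases hl2 with h3 | h3
        · rw [hxl, pt_congr h6 (b := 1) (by exact_mod_cast h3), hA6]
        · rw [hxl, pt_congr h6 (b := -1) (by exact_mod_cast h3), pt_neg, hAodd, hA6, neg_zero]
    · rcases hd1' with rfl | rfl | rfl | rfl
      · rw [one_mul] at hd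
        exact Or.inr (Or.inl hd)
      · exact Or.inr (Or.inr (Or.inl hd))
      · exact Or.inl hd
      · exfalso
        omega
  have hCA : Cst A q 1 := by
    intro x y hx hy hxy hxq
    have h1 := hC x y hx hy hxy hxq
    have hyq : ¬ (q : ℤ) ∣ y := by
      intro h2
      apply hxq
      have := dvd_sub hxy h2
      rwa [add_sub_cancel_right] at this
    have key : ∀ z : ℤ, (3 : ℤ) ∣ z - 1 → ¬ (q : ℤ) ∣ z →
        A (pt m (3 * q) z) = E (pt m (3 * q) z) - i := by
      intro z hz hzq
      have hz3 : ¬ (3 : ℤ) ∣ z := by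
        intro h2
        omega
      have hzc : IsCoprime z ((3 * q : ℕ) : ℤ) := by
        push_cast
        apply IsCoprime.mul_right
        · exact (Int.isCoprime_iff_gcd_eq_one.mpr (by
            have h2 := (Int.prime_three.coprime_iff_not_dvd (n := z)).mpr hz3
            exact (Int.isCoprime_iff_gcd_eq_one.mp h2.symm)))
        · have hq' : Prime (q : ℤ) := Nat.prime_iff_prime_int.mp hq
          exact ((hq'.coprime_iff_not_dvd (n := z)).mpr hzq).symm
      have ho := addOrderOf_pt h3q hzc
      have h2 : od c0 (pt m (3 * q) z) = 0 := by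
        by_contra h3
        rcases od_ne h3 with h4 | h4
        · rw [h4, hoc0] at ho
          omega
        · rw [h4, addOrderOf_neg, hoc0] at ho
          omega
      have h3 : ((q : ℕ) : ZMod m) * pt m (3 * q) z = c0 := by
        rw [mul_comm 3 q, natCast_pt' q 3 (by rwa [mul_comm]) hqpos (by norm_num) z]
        exact pt_congr h3m (by exact_mod_cast hz)
      have h4 : rel q (od c0) (pt m (3 * q) z) = 1 := by
        unfold rel
        rw [h3, h2, od_self hc0ne, sub_zero]
      have h5 : rel 2 (od c0) (pt m (3 * q) z) = 0 := by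
        by_contra h5
        have h6 := (rel_supp hoc0 h5).1
        rw [ho] at h6
        have := Nat.le_of_dvd (by norm_num) h6
        omega
      rw [hAv, h4, h5]
      ring
    rw [key x hx hxq, key y hy hyq]
    linarith
  have hp0 : ∀ a, part0 q A a ≠ 0 → addOrderOf a = 3 := by
    intro a ha
    unfold part0 at ha
    split_ifs at ha with h1
    · exact absurd rfl ha
    · rcases hord a ha with h2 | h2 | h2 | h2
      · exact absurd (h2 ▸ Dvd.intro_left 3 rfl) h1
      · exact absurd (h2 ▸ dvd_rfl) h1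
      · exact absurd (h2 ▸ Dvd.intro_left 2 rfl) h1
      · exact h2
  have key : Ref hD K (X ⊔ relSub m) (jj hd 1) 2 A := by
    refine ⟨hAodd, hAtate, hAmem, ?_, norm_cst hq hq3 h6q hAodd hAtate hord hCA, ?_⟩
    · intro t
      rw [PH_cst hD hK hQ hq3 h6q hd hAodd (fun a ha hqa => ?_) hCA t, one_mul]
      rcases hord a ha with h2 | h2 | h2 | h2
      · exact Or.inl h2
      · exact Or.inr (Or.inl h2)
      · exact Or.inr (Or.inr h2)
      · exfalso
        rw [h2] at hqa
        have := Nat.le_of_dvd (by norm_num) hqa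
        omega
    · intro a ha
      rw [hp0 a ha]
      norm_num
  have h7 : (2 : ℤ) * 2 ≤ q - 1 := by
    have : 5 ≤ q := by
      rcases Nat.lt_or_ge q 5 with h8 | h8
      · exfalso
        have : q = 4 := by omega
        rw [this] at hq
        revert hq
        norm_num
      · exact h8
    have : (5 : ℤ) ≤ q := by exact_mod_cast this
    linarith
  obtain ⟨u, hu⟩ := exists_unit_of_order hd hb
  have hu' : (u : ZMod 3) = 1 ∨ (u : ZMod 3) = -1 := by
    have : ∀ v : (ZMod 3)ˣ, (v : ZMod 3) = 1 ∨ (v : ZMod 3) = -1 := by decide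
    exact this u
  rcases hu' with h | h
  · rw [← hu, h]
    refine ⟨_, 2, key, h7, ?_⟩
    intro a ha
    rw [hp0 a ha]
    norm_num
  · rw [← hu, h, map_neg]
    refine ⟨_, 2, key.neg, h7, ?_⟩
    intro a ha
    rw [part0_neg, Pi.neg_apply, neg_ne_zero] at ha
    rw [hp0 a ha]
    norm_num

end Pool.Agent.Lib.MP_938ce2_ag_h99v
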