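import Pool.Agent.Lib.MP_938ce2_ag_h99v.G08
import Pool.Agent.Lib.MP_938ce2_ag_h99v.R04

/-!
Tate characters: algebraicity from the pairs of effective primes.
-/

set_option autoImplicit false
set_option linter.style.haveILetI false
set_option linter.unusedSectionVars false

open Finset

namespace Pool.Agent.Lib.MP_938ce2_ag_h99v

open Pool.Agent.Lib.MP_938ce2_ag_h99 Pool.Agent.Lib.MP_938ce2_ag_h6
open Pool.Agent.Lib.MP_938ce2_ag_h99t
open Pool.Agent.Lib.MP_938ce2_ag_H7f Pool.Agent.Lib.MP_938ce2_ag_H7e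

variable {m : ℕ} [NeZero m]

lemma ExcT.mono {D : ℕ → Prop} {X Y : AddSubgroup (ZMod m → ℤ)} {f : ℕ} {hf : f ∣ m}
    (hXY : X ≤ Y) (h : ExcT D X f hf) : ExcT D Y f hf := by
  obtain ⟨θ, E, h1, h2, h3⟩ := h
  exact ⟨θ, E, h1, sup_le_sup_right hXY _ h2, h3⟩

/-- effective primes up to `L` -/
noncomputable def effs (m L : ℕ) : Finset ℕ := by
  classical exact (range (L + 1)).filter (Eff m)

theorem fun6 {M : ℕ} [NeZero M] (hM : 2 * m ∣ M) {l : ℕ} (hl : 6 ≤ l)
    (hP : ∀ p q, p.Prime → q.Prime → p ∣ m → q ∣ m → p < q → NB p q →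
      PX (YY (GT1 (m := M))) p q)
    (h4 : (∀ p, Eff m p → p ≤ 2 * l + 1 → p % 4 ≠ 1) ∨ (effs m (2 * l + 1)).card ≤ 3)
    (h : ∀ p q, p < q → Eff m p → Eff m q →
      NB p q ∨ (if p = 3 then 4 * l + 1 else 2 * l + 1) < q)
    {F : ZMod M → ℤ} (ho : OddF F) (hT : TateF F) (hN : ∑ a, |F a| ≤ 2 * l)
    (hs : ∀ a, F a ≠ 0 → addOrderOf a ∣ m) : F ∈ YY (GT1 (m := M)) ⊔ relSub M := by
  classical
  have hlcm : Nat.lcm 2 m ∣ M := (Nat.lcm_dvd_mul 2 m).trans hM
  have hle : YY (GT1 (m := M)) ≤ YY (GT1 (m := M)) ⊔ relSub M := le_sup_left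
  have hmem := fun4 (YY (GT1 (m := M)) ⊔ relSub M) (m0 := Nat.lcm 2 m) (l := l) hlcm
    (Nat.dvd_lcm_left 2 m) (by omega) ?_ ?_ ho hT hN
    (fun a ha => (hs a ha).trans (Nat.dvd_lcm_right 2 m))
  · rwa [sup_assoc, sup_idem] at hmem
  · intro h3 q hq hqm hq1 hq2
    have e3 : Eff m 3 := Eff.of_dvd_lcm (f := 3) (by norm_num) h3 (by
      rw [Nat.Prime.primeFactors Nat.prime_three]
      exact mem_singleton_self 3)
    have eq : Eff m q := Eff.of_dvd_lcm (f := q) (by
      have := hq.eq_two_or_odd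
      omega) hqm (by
      rw [Nat.Prime.primeFactors hq]
      exact mem_singleton_self q)
    have h6 : 6 ∣ M := by
      have h8 : 3 ∣ m := e3.2.1
      have h9 : 2 * 3 ∣ 2 * m := Nat.mul_dvd_mul_left 2 h8
      exact h9.trans hM
    rcases h 3 q (by omega) e3 eq with h5 | h5
    · exact ref3_PX h6 hq (by omega) (hqm.trans hlcm)
        (hP 3 q Nat.prime_three hq e3.2.1 eq.2.1 (by omega) h5)
    · rw [if_pos rfl] at h5
      omega
  · intro ns hns h2ns f hf hfn hf1 hf4 hfr hev hL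
    have hf0 : f ≠ 0 := f_ne_zero hf
    have hEff : ∀ p ∈ f.primeFactors, Eff m p := fun p hp =>
      Eff.of_dvd_lcm hf4 (hfn.trans hns) hp
    by_cases hall : ∀ p ∈ f.primeFactors, p % 4 ≠ 1
    · left
      exact ExcT.mono hle (excT_theta ((Nat.dvd_lcm_left 2 m).trans hlcm) hf hfn hf1 hf4 hfr hev
        hall (fun s hs => Or.inr (Theta1.of_theta hs)))
    right
    push Not at hall
    obtain ⟨p1, hp1, hp14⟩ := hall
    have hpos : 0 < f.primeFactors.card := by
      rw [Finset.card_pos, Nat.nonempty_primeFactors]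
      omega
    have hsub : f.primeFactors ⊆ effs m (2 * l + 1) := by
      intro p hp
      unfold effs
      rw [mem_filter, mem_range]
      exact ⟨by have := hL p hp; omega, hEff p hp⟩
    have h3 : f.primeFactors.card ≤ 3 := by
      rcases h4 with h4 | h4
      · exact absurd hp14 (h4 p1 (hEff p1 hp1) (hL p1 hp1))
      · exact (card_le_card hsub).trans h4
    have hc2 : f.primeFactors.card = 2 := by
      obtain ⟨k, hk⟩ := hev
      omega
    obtain ⟨p', q', hpq', hp'⟩ := Finset.card_eq_two.mp hc2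
    obtain ⟨p, q, hpq, hp⟩ : ∃ p q, p < q ∧ f.primeFactors = {p, q} := by
      rcases lt_or_gt_of_ne hpq' with h | h
      · exact ⟨p', q', h, hp'⟩
      · exact ⟨q', p', h, by rw [hp', pair_comm]⟩
    refine ⟨p, q, hpq, hp, ?_⟩
    have hpm : p ∈ f.primeFactors := by rw [hp]; simp
    have hqm : q ∈ f.primeFactors := by rw [hp]; simp
    have hfe := ep_mul_of_pair hpq.ne (eff_prod hf0 hf4 hfr) hp
    have hNB : NB p q := by
      rcases h p q hpq (hEff p hpm) (hEff q hqm) with h5 | h5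
      · exact h5
      · exfalso
        have := hL q hqm
        split_ifs at h5 <;> omega
    have hpp := Nat.prime_of_mem_primeFactors hpm
    have hqq := Nat.prime_of_mem_primeFactors hqm
    have hPX := hP p q hpp hqq (hEff p hpm).2.1 (hEff q hqm).2.1 hpq hNB
    clear hp hpm hqm hEff hL hev hpos hsub h3 hc2 hp' hf4 hfr hf1 hp1 hp14
    subst hfe
    exact (PX.exc hpp hqq hpq.ne hf hfn h2ns hPX).mono hle

/-- Main theorem: algebraicity from the pairs of small effective primes. -/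
theorem tate_alg6 {s : Multiset (ZMod m)} (hs : IsTate s)
    (h4 : (∀ p, Eff m p → p ≤ 2 * s.card + 1 → p % 4 ≠ 1) ∨
      (effs m (2 * s.card + 1)).card ≤ 3)
    (h : ∀ p q, p < q → Eff m p → Eff m q →
      NB p q ∨ (if p = 3 then 4 * s.card + 1 else 2 * s.card + 1) < q) :
    ∃ N ≠ 0, ∀ (M : ℕ) [NeZero M], N ∣ M → ∀ hm : m ∣ M, IsAlgG GT1 (s.map (jj hm)) := by
  obtain ⟨N, hN, hNM⟩ := exists_level (NeZero.ne m)
  refine ⟨N * (2 * m), mul_ne_zero hN (mul_ne_zero two_ne_zero (NeZero.ne m)), ?_⟩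
  intro M _ hNM' hm
  have h1 : N ∣ M := (Dvd.intro _ rfl).trans hNM'
  have h2 : 2 * m ∣ M := (Dvd.intro_left _ rfl).trans hNM'
  set s' := s.map (jj hm) with hs'
  have hT := hs.lift hm
  have hcard : s'.card = s.card := Multiset.card_map _ _
  by_cases h4' : s.card ≤ 4
  · exact IsAlgG.low s' hT (by rw [hcard]; exact h4')
  have hev := (isTate_iff.mp hs).2.1
  have h6 : 6 ≤ s.card := by
    obtain ⟨k, hk⟩ := hev
    omega
  have hl1 := l1_le s'
  have hmem := fun6 (m := m) (M := M) h2 h6 (hNM M h1) h4 h (F := oddPart s') (oddPart_odd s')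
    (isTate_iff.mp hT).2.2 (by
      rw [hcard] at hl1
      exact hl1) (by
      intro a ha
      by_cases h : ∃ y, jj hm y = a
      · obtain ⟨y, rfl⟩ := h
        exact Pool.Agent.Lib.MP_938ce2_ag_H7f.order_jj_dvd hm y
      · push Not at h
        exact absurd (oddPart_lift_of_forall_ne hm s h) ha)
  exact isAlgG_of_mem (fun r hr => hr.neg) hT hmem

end Pool.Agent.Lib.MP_938ce2_ag_h99v
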