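import Pool.Agent.Lib.MP_938ce2_ag_h99v.GD
import Pool.Agent.Lib.MP_938ce2_ag_h99v.LD

/-!
The class of basic characters (`mem_YY_of_theta1` in Theta1.lean, `T5_XF_le` in h99t/Final5.lean).
-/

set_option autoImplicit false
set_option linter.style.haveILetI false
set_option linter.unusedSectionVars false

open Finset

namespace Pool.Agent.Lib.MP_938ce2_ag_h99v

open Pool.Agent.Lib.MP_938ce2_ag_h99 Pool.Agent.Lib.MP_938ce2_ag_h6
open Pool.Agent.Lib.MP_938ce2_ag_h99t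

lemma Theta1.of_theta {m : ℕ} [NeZero m] {s : Multiset (ZMod m)} (h : Theta s) : Theta1 s := by
  unfold Theta at h
  unfold Theta1
  refine AddSubmonoid.closure_mono ?_ h
  rintro _ ⟨c, D, ε, ⟨h1, h2, h3, h4⟩, rfl⟩
  refine ⟨c, D, ε, ⟨h1, h2, h3, fun p hp hpD hp2 => ?_⟩, rfl⟩
  have := h4 p hp hpD
  omega

lemma GT1.neg {m : ℕ} [NeZero m] {s : Multiset (ZMod m)} (h : GT1 s) :
    GT1 (s.map fun x => -x) := by
  rcases h with h | h
  · exact Or.inl h.neg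
  · exact Or.inr h.neg

lemma XF_le_GT1 {m : ℕ} [NeZero m] : XF m ≤ YY (GT1 (m := m)) := by
  unfold XF YY
  apply AddSubgroup.closure_mono
  rintro _ ⟨r, hr, hc, rfl⟩
  exact ⟨r, hr, hc.imp id Or.inl, rfl⟩

lemma thetaSub1_le_GT1 {m : ℕ} [NeZero m] (h2 : 2 ∣ m) {F : ZMod m → ℤ} (hF : F ∈ thetaSub1 m)
    (hT : TateF F) : F ∈ YY (GT1 (m := m)) :=
  mem_YY_of_theta1 h2 hF hT fun _ hs => Or.inr hs

end Pool.Agent.Lib.MP_938ce2_ag_h99v
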