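import Pool.Agent.Lib.MP_938ce2_ag_h99v.G01
import Pool.Agent.Lib.MP_938ce2_ag_h99v.P02

/-!
Pairs of primes which are not `1 mod 4`.
-/

set_option autoImplicit false
set_option linter.style.haveILetI false
set_option linter.unusedSectionVars false

open Finset

namespace Pool.Agent.Lib.MP_938ce2_ag_h99v

open Pool.Agent.Lib.MP_938ce2_ag_h99 Pool.Agent.Lib.MP_938ce2_ag_h6
open Pool.Agent.Lib.MP_938ce2_ag_h99t

private lemma ep_pf {p : ℕ} (hp : p.Prime) : (ep p).primeFactors = {p} := by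
  unfold ep
  split_ifs with h
  · subst h
    have : (4 : ℕ) = 2 ^ 2 := by norm_num
    rw [this, Nat.primeFactors_prime_pow two_ne_zero Nat.prime_two]
  · exact hp.primeFactors

private lemma ep_cop {p q : ℕ} (hp : p.Prime) (hq : q.Prime) (hpq : p ≠ q) :
    Nat.Coprime (ep p) (ep q) := by
  have h1 : Nat.Coprime p (ep q) := coprime_ep hq hp (Ne.symm hpq)
  have h2 : ep p = p ∨ ep p = p ^ 2 := by
    unfold ep
    split_ifs with h
    · right; subst h; norm_num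
    · left; rfl
  rcases h2 with h2 | h2
  · rw [h2]; exact h1
  · rw [h2]; exact Nat.Coprime.pow_left 2 h1

private lemma ep_dvd_two_mul {p : ℕ} : ep p ∣ 2 * p := by
  unfold ep
  split_ifs with h
  · subst h; norm_num
  · exact Dvd.intro_left 2 rfl

private lemma dvd_ep {p : ℕ} : p ∣ ep p := by
  unfold ep
  split_ifs with h
  · subst h; norm_num
  · exact dvd_refl p

private lemma two_facts {p q : ℕ} (hp : p.Prime) (hq : q.Prime) (hpq : p ≠ q) :
    ep p * ep q ≠ 0 ∧ (ep p * ep q).primeFactors = {p, q} ∧ (ep p * ep q) % 4 ≠ 2 ∧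
      ep p * ep q ∣ 2 * rad (ep p * ep q) := by
  have hp0 : ep p ≠ 0 := (ep_pos hp).ne'
  have hq0 : ep q ≠ 0 := (ep_pos hq).ne'
  have hpf : (ep p * ep q).primeFactors = {p, q} := by
    rw [Nat.primeFactors_mul hp0 hq0, ep_pf hp, ep_pf hq]
    rfl
  refine ⟨mul_ne_zero hp0 hq0, hpf, ?_, ?_⟩
  · by_cases h2 : p = 2
    · have : ep p = 4 := by unfold ep; rw [if_pos h2]
      rw [this]; omega
    · by_cases h3 : q = 2
      · have : ep q = 4 := by unfold ep; rw [if_pos h3]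
        rw [this]; omega
      · have e1 : ep p = p := by unfold ep; rw [if_neg h2]
        have e2 : ep q = q := by unfold ep; rw [if_neg h3]
        rw [e1, e2]
        have o1 := hp.eq_two_or_odd.resolve_left h2
        have o2 := hq.eq_two_or_odd.resolve_left h3
        have : (p * q) % 2 = 1 := by rw [Nat.mul_mod, o1, o2]
        omega
  · have hr : rad (ep p * ep q) = p * q := by
      unfold rad
      rw [hpf, prod_pair hpq]
    rw [hr]
    apply Nat.Coprime.mul_dvd_of_dvd_of_dvd (ep_cop hp hq hpq)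
    · exact ep_dvd_two_mul.trans (by rw [← mul_assoc]; exact Dvd.intro _ rfl)
    · exact ep_dvd_two_mul.trans (mul_dvd_mul_left 2 (Dvd.intro_left p rfl))

private lemma two_unit {p q : ℕ} (hp : p.Prime) (hq : q.Prime) (hpq : p ≠ q) {k : ℤ}
    (hk1 : (ep p : ℤ) ∣ k - 1) (hk2 : (ep q : ℤ) ∣ k + 1) :
    ∃ c1 c2 : (ZMod (ep p * ep q))ˣ, c1 ∈ Kp (ep p * ep q) p ∧ c2 ∈ Kp (ep p * ep q) q ∧
      (-1 : (ZMod (ep p * ep q))ˣ) = c1 * c2 ∧
      (c2 : ZMod (ep p * ep q)) = ((k : ℤ) : ZMod (ep p * ep q)) := by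
  have hcop : IsCoprime (ep p : ℤ) (ep q : ℤ) := by
    rw [Nat.isCoprime_iff_coprime]
    exact ep_cop hp hq hpq
  have hz : ∀ a : ℤ, (ep p : ℤ) ∣ a → (ep q : ℤ) ∣ a → ((a : ℤ) : ZMod (ep p * ep q)) = 0 := by
    intro a h1 h2
    rw [ZMod.intCast_zmod_eq_zero_iff_dvd]
    push_cast
    exact hcop.mul_dvd h1 h2
  have hkk : ((k : ℤ) : ZMod (ep p * ep q)) * ((k : ℤ) : ZMod (ep p * ep q)) = 1 := by
    have := hz ((k - 1) * (k + 1)) (Dvd.dvd.mul_right hk1 _) (Dvd.dvd.mul_left hk2 _)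
    push_cast at this
    linear_combination this
  let c2 : (ZMod (ep p * ep q))ˣ := ⟨((k : ℤ) : ZMod (ep p * ep q)), ((k : ℤ) : ZMod (ep p * ep q)),
    hkk, hkk⟩
  have e2 : (c2 : ZMod (ep p * ep q)) = ((k : ℤ) : ZMod (ep p * ep q)) := rfl
  have d1 : (ep p : ℤ) ∣ 2 * (p : ℤ) := by exact_mod_cast (ep_dvd_two_mul (p := p))
  have d2 : (ep q : ℤ) ∣ 2 * (q : ℤ) := by exact_mod_cast (ep_dvd_two_mul (p := q))
  refine ⟨-c2, c2, ?_, ?_, ?_, e2⟩
  · rw [mem_Kp]
    rw [Units.val_neg, e2]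
    have := hz ((k + 1) * p) (by
      have h1 : (k + 1) * (p : ℤ) = (k - 1) * p + 2 * p := by ring
      rw [h1]
      exact dvd_add (Dvd.dvd.mul_right hk1 _) d1) (Dvd.dvd.mul_right hk2 _)
    push_cast at this
    linear_combination -this
  · rw [mem_Kp, e2]
    have := hz ((k - 1) * q) (Dvd.dvd.mul_right hk1 _) (by
      have h1 : (k - 1) * (q : ℤ) = (k + 1) * q - 2 * q := by ring
      rw [h1]
      exact dvd_sub (Dvd.dvd.mul_right hk2 _) d2)
    push_cast at this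
    linear_combination this
  · apply Units.ext
    rw [Units.val_mul, Units.val_neg, Units.val_neg, Units.val_one, e2]
    linear_combination hkk

/-- Both primes not `1 mod 4`: from `excT_theta` (h99t/Exc.lean) with `f = n = ep p * ep q`,
`G = GT1`. The function `E` there satisfies `E u = θ_p θ_q - (1 - θ_p) (1 - θ_q)`, and the unit `k`
changes only `θ_q` (`HalfF` in h99/LevelMany.lean). -/
theorem PX_three {m : ℕ} [NeZero m] {p q : ℕ} (hp : p.Prime) (hq : q.Prime) (hpq : p ≠ q)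
    (hp4 : p % 4 ≠ 1) (hq4 : q % 4 ≠ 1) (hm : 2 * (ep p * ep q) ∣ m) :
    PX (YY (GT1 (m := m))) p q := by
  have h2m : 2 ∣ m := (Dvd.intro _ rfl).trans hm
  have hfm : ep p * ep q ∣ m := (Dvd.intro_left _ rfl).trans hm
  obtain ⟨hf0, hpf, hf4, hfr⟩ := two_facts hp hq hpq
  haveI : NeZero (ep p * ep q) := ⟨hf0⟩
  have hf1 : ep p * ep q ≠ 1 := by
    intro h
    rw [h] at hpf
    have : p ∈ (1 : ℕ).primeFactors := by rw [hpf]; simp
    simp at this
  obtain ⟨θ, E, hθ, hE, hodd, hT, hsup, htop⟩ := excT_theta (m := m) h2m hfm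
    (n := ep p * ep q) dvd_rfl hf1 hf4 hfr (by rw [hpf, card_pair hpq]; exact ⟨1, rfl⟩)
    (by
      intro r hr
      rw [hpf] at hr
      simp only [mem_insert, mem_singleton] at hr
      rcases hr with rfl | rfl
      · exact hp4
      · exact hq4)
    (G := GT1) (fun s hs => Or.inr (Theta1.of_theta hs))
  have hcop : IsCoprime (ep p : ℤ) (ep q : ℤ) := by
    rw [Nat.isCoprime_iff_coprime]
    exact ep_cop hp hq hpq
  obtain ⟨k, hk1, hk2⟩ : ∃ k : ℤ, (ep p : ℤ) ∣ k - 1 ∧ (ep q : ℤ) ∣ k + 1 := by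
    obtain ⟨a, b, hab⟩ := hcop
    refine ⟨1 - 2 * a * ep p, ⟨-2 * a, by ring⟩, ⟨2 * b, ?_⟩⟩
    linear_combination (-2 : ℤ) * hab
  obtain ⟨c1, c2, hc1, hc2, hc, hck⟩ := two_unit hp hq hpq hk1 hk2
  refine ⟨E, ⟨hE, hodd, hT⟩, ?_, k, hk1, hk2, ?_⟩
  · intro a ha
    obtain ⟨h1, h2⟩ := hsup a ha
    exact ⟨h2.trans (Nat.dvd_lcm_right 2 _), h1⟩
  · have e1 : E (pt m (ep p * ep q) 1) = θ p 1 * θ q 1 - (1 - θ p 1) * (1 - θ q 1) := by
      have h1 := htop 1
      rw [hpf, prod_pair hpq, prod_pair hpq] at h1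
      rw [← h1, pt_eq_jj hfm]
      simp
    have e2 : E (pt m (ep p * ep q) k) = θ p c2 * θ q c2 - (1 - θ p c2) * (1 - θ q c2) := by
      have h1 := htop c2
      rw [hpf, prod_pair hpq, prod_pair hpq] at h1
      rw [← h1, pt_eq_jj hfm, hck]
    have hpm : p ∈ (ep p * ep q).primeFactors := by rw [hpf]; simp
    have hqm : q ∈ (ep p * ep q).primeFactors := by rw [hpf]; simp
    have e3 : θ p c2 = θ p 1 := by
      have := hθ.2 p hpm q hqm hpq c2 hc2 1
      rwa [mul_one] at this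
    have e4 : θ q c2 = 1 - θ q 1 := by
      have h1 : c2 = (-1) * c1⁻¹ := by
        rw [hc, mul_comm c1 c2, mul_inv_cancel_right]
      have h2 := hθ.1 q hqm (c1⁻¹)
      rw [← h1] at h2
      have h3 := hθ.2 q hqm p hpm (Ne.symm hpq) c1⁻¹ ((Kp _ p).inv_mem hc1) 1
      rw [mul_one] at h3
      rw [h2, h3]
    rw [e1, e2, e3, e4]
    refine ⟨θ p 1 - 1, ?_⟩
    ring

end Pool.Agent.Lib.MP_938ce2_ag_h99v
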