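import Pool.Agent.Lib.MP_938ce2_ag_h99v.LD
import Pool.Agent.Lib.MP_938ce2_ag_h99v.P02

/-!
Pairs and the exceptional classes `Exc` of the descent (h99/MainA.lean).
-/

set_option autoImplicit false
set_option linter.style.haveILetI false
set_option linter.unusedSectionVars false

open Finset

namespace Pool.Agent.Lib.MP_938ce2_ag_h99v

open Pool.Agent.Lib.MP_938ce2_ag_h99 Pool.Agent.Lib.MP_938ce2_ag_h6
open Pool.Agent.Lib.MP_938ce2_ag_h99t

variable {m : ℕ} [NeZero m]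

private lemma l02_key {p q : ℕ} (hp : p.Prime) (hq : q.Prime) (hpq : p ≠ q) (t : ℤ) :
    ((ep p * ep q : ℕ) : ℤ) ∣ t * q ↔ (ep p : ℤ) ∣ t ∧ (q = 2 → (2 : ℤ) ∣ t) := by
  have hq0 : (q : ℤ) ≠ 0 := by exact_mod_cast hq.ne_zero
  by_cases h2 : q = 2
  · subst h2
    have hep : ep p = p := by unfold ep; rw [if_neg hpq]
    have he2 : ep 2 = 4 := by unfold ep; rw [if_pos rfl]
    rw [hep, he2]
    have hc : IsCoprime (p : ℤ) (2 : ℤ) := by
      have := (Nat.coprime_primes hp Nat.prime_two).mpr hpq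
      exact_mod_cast Nat.isCoprime_iff_coprime.mpr this
    have h4 : ((p * 4 : ℕ) : ℤ) = ((p : ℤ) * 2) * ((2 : ℕ) : ℤ) := by push_cast; ring
    rw [h4, mul_dvd_mul_iff_right hq0]
    constructor
    · intro h
      exact ⟨(Dvd.intro _ rfl).trans h, fun _ => (Dvd.intro_left _ rfl).trans h⟩
    · rintro ⟨h, h'⟩
      exact hc.mul_dvd h (h' rfl)
  · have heq : ep q = q := by unfold ep; rw [if_neg h2]
    rw [heq]
    push_cast
    rw [mul_dvd_mul_iff_right hq0]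
    constructor
    · intro h
      exact ⟨h, fun h' => absurd h' h2⟩
    · exact fun h => h.1

private lemma l02_two {q : ℕ} (h2 : q = 2) {t : ℤ} (h : (ep q : ℤ) ∣ t) : (2 : ℤ) ∣ t := by
  subst h2
  have he2 : ep 2 = 4 := by unfold ep; rw [if_pos rfl]
  rw [he2] at h
  have : (2 : ℤ) ∣ ((4 : ℕ) : ℤ) := ⟨2, by norm_num⟩
  exact this.trans h

private lemma l02_mem {f q : ℕ} (k : ℤ) :
    ((k : ℤ) : ZMod f) * (q : ZMod f) = q ↔ (f : ℤ) ∣ (k - 1) * q := by
  rw [← ZMod.intCast_zmod_eq_zero_iff_dvd]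
  push_cast
  rw [sub_mul, one_mul, sub_eq_zero]

private lemma l02_mem' {f q : ℕ} (k : ℤ) :
    - (q : ZMod f) = ((k : ℤ) : ZMod f) * (q : ZMod f) ↔ (f : ℤ) ∣ (k + 1) * q := by
  rw [← ZMod.intCast_zmod_eq_zero_iff_dvd]
  push_cast
  rw [add_mul, one_mul]
  constructor
  · intro h
    rw [← h]
    ring
  · intro h
    linear_combination -h

/-- Relation with the exceptional classes of the descent: the units `c2` is `k` modulo
`ep p * ep q` and `c1 = - c2⁻¹`. -/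
lemma PX.exc {X : AddSubgroup (ZMod m → ℤ)} {p q n : ℕ} (hp : p.Prime) (hq : q.Prime)
    (hpq : p ≠ q) (hf : ep p * ep q ∣ m) (hfn : ep p * ep q ∣ n) (h2n : 2 ∣ n) (h : PX X p q) :
    Exc (· ∣ n) X (ep p * ep q) p q hf := by
  obtain ⟨E, hE, hsup, k, hk1, hk2, hodd⟩ := h
  have hcop : IsCoprime k ((ep p * ep q : ℕ) : ℤ) := by
    push_cast
    refine IsCoprime.mul_right ?_ ?_
    · obtain ⟨s, hs⟩ := hk1
      exact ⟨1, -s, by linear_combination hs⟩
    · obtain ⟨s, hs⟩ := hk2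
      exact ⟨-1, s, by linear_combination -hs⟩
  have hu : IsUnit ((k : ℤ) : ZMod (ep p * ep q)) :=
    (ZMod.coe_int_isUnit_iff_isCoprime k (ep p * ep q)).mpr hcop.symm
  obtain ⟨c2, hc2⟩ := hu
  refine ⟨-c2⁻¹, c2, E, ?_, ?_, ?_, hE.mem, hE.odd, hE.tate, ?_, ?_⟩
  · rw [mem_Kp]
    have h1 : - (p : ZMod (ep p * ep q)) = ((k : ℤ) : ZMod (ep p * ep q)) * p := by
      rw [l02_mem', mul_comm (ep p) (ep q)]
      rw [l02_key hq hp hpq.symm]
      exact ⟨hk2, fun h2 => by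
        have h3 := l02_two h2 hk1
        have h4 : k + 1 = (k - 1) + 2 := by ring
        rw [h4]
        exact dvd_add h3 (dvd_refl _)⟩
    rw [← hc2] at h1
    have h5 : ((c2⁻¹ : (ZMod (ep p * ep q))ˣ) : ZMod (ep p * ep q)) * (c2 : ZMod (ep p * ep q)) = 1 :=
      Units.inv_mul c2
    rw [Units.val_neg]
    linear_combination (-((c2⁻¹ : (ZMod (ep p * ep q))ˣ) : ZMod (ep p * ep q))) * (-h1) +
      (p : ZMod (ep p * ep q)) * h5
  · rw [mem_Kp, hc2, l02_mem, l02_key hp hq hpq]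
    exact ⟨hk1, fun h2 => by
      have h3 := l02_two h2 hk2
      have h4 : k - 1 = (k + 1) - 2 := by ring
      rw [h4]
      exact dvd_sub h3 (dvd_refl _)⟩
  · simp
  · intro a ha
    exact ⟨(hsup a ha).2, (hsup a ha).1.trans (Nat.lcm_dvd h2n hfn)⟩
  · rw [hc2, ← pt_eq_jj hf k]
    have h1 := pt_eq_jj hf 1
    rw [Int.cast_one] at h1
    rw [← h1]
    exact hodd

/-- converse, for exceptional classes with small support -/
lemma PX.of_exc {X : AddSubgroup (ZMod m → ℤ)} {p q : ℕ} (hp : p.Prime) (hq : q.Prime)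
    (hpq : p ≠ q) (hf : ep p * ep q ∣ m)
    (h : Exc (· ∣ Nat.lcm 2 (ep p * ep q)) X (ep p * ep q) p q hf) : PX X p q := by
  obtain ⟨c1, c2, E, hc1, hc2, hc, hmem, ho, hT, hsup, hodd⟩ := h
  obtain ⟨k, hk⟩ := ZMod.intCast_surjective (c2 : ZMod (ep p * ep q))
  refine ⟨E, ⟨hmem, ho, hT⟩, fun a ha => ⟨(hsup a ha).2, (hsup a ha).1⟩, k, ?_, ?_, ?_⟩
  · rw [mem_Kp, ← hk, l02_mem, l02_key hp hq hpq] at hc2
    exact hc2.1
  · rw [mem_Kp] at hc1
    have h0 : (-1 : ZMod (ep p * ep q)) = (c1 : ZMod (ep p * ep q)) * c2 := by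
      have := congrArg (Units.val) hc
      rw [Units.val_neg, Units.val_one, Units.val_mul] at this
      exact this
    have h1 : - (p : ZMod (ep p * ep q)) = ((k : ℤ) : ZMod (ep p * ep q)) * p := by
      rw [hk]
      linear_combination (p : ZMod (ep p * ep q)) * h0 + (c2 : ZMod (ep p * ep q)) * hc1
    rw [l02_mem', mul_comm (ep p) (ep q), l02_key hq hp hpq.symm] at h1
    exact h1.1
  · rw [pt_eq_jj hf k, pt_eq_jj hf 1, hk, Int.cast_one]
    exact hodd

end Pool.Agent.Lib.MP_938ce2_ag_h99v
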