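import Pool.Agent.Lib.MP_938ce2_ag_h99v.G01
import Pool.Agent.Lib.MP_938ce2_ag_h99v.L01
import Pool.Agent.Lib.MP_938ce2_ag_h99v.L02

/-!
Tiny pairs.
-/

set_option autoImplicit false
set_option linter.style.haveILetI false
set_option linter.unusedSectionVars false

open Finset

namespace Pool.Agent.Lib.MP_938ce2_ag_h99v

open Pool.Agent.Lib.MP_938ce2_ag_h99 Pool.Agent.Lib.MP_938ce2_ag_h6
open Pool.Agent.Lib.MP_938ce2_ag_h99t

/-- The tiny pairs: `excAll` (h99/Final2.lean) with `n = Nat.lcm 2 (ep p * ep q)`, and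
`PX.of_exc`. -/
theorem PX_tin {m : ℕ} [NeZero m] {p q : ℕ} (hp : p.Prime) (hq : q.Prime) (hpq : p < q)
    (h : Tin p q) (hm : 2 * (ep p * ep q) ∣ m) : PX (YY (GT1 (m := m))) p q := by
  have hf : ep p * ep q ∣ m := (dvd_mul_left _ _).trans hm
  refine PX.of_exc hp hq hpq.ne hf ?_
  exact (excAll hq hpq h (Nat.dvd_lcm_left _ _)
    ((Nat.lcm_dvd (dvd_mul_right _ _) (dvd_mul_left _ _)).trans hm) hf
    (Nat.dvd_lcm_right _ _)).mono XF_le_GT1

end Pool.Agent.Lib.MP_938ce2_ag_h99v
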