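import Pool.Agent.Lib.MP_938ce2_ag_h99v.T06
import Pool.Agent.Lib.MP_938ce2_ag_h99v.L01
import Pool.Agent.Lib.MP_938ce2_ag_h99v.L04
import Pool.Agent.Lib.MP_938ce2_ag_h99v.L06

/-!
The class of a pair `q, p` with `p = 1 mod 4`, `q` not `1 mod 4`.
-/

set_option autoImplicit false
set_option linter.style.haveILetI false
set_option linter.unusedSectionVars false

open Finset

namespace Pool.Agent.Lib.MP_938ce2_ag_h99v

open Pool.Agent.Lib.MP_938ce2_ag_h99 Pool.Agent.Lib.MP_938ce2_ag_h6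
open Pool.Agent.Lib.MP_938ce2_ag_h99t

variable {m : ℕ} [NeZero m]

private lemma lcm_two_mul {b p : ℕ} (hp : Odd p) : Nat.lcm 2 (b * p) = Nat.lcm 2 b * p := by
  have h2 : Nat.Coprime 2 p := (Nat.coprime_two_left).mpr hp
  apply Nat.dvd_antisymm
  · apply Nat.lcm_dvd
    · exact (Nat.dvd_lcm_left 2 b).mul_right p
    · exact Nat.mul_dvd_mul_right (Nat.dvd_lcm_right 2 b) p
  · rcases Nat.even_or_odd b with hb | hb
    · have h3 : Nat.lcm 2 b = b := Nat.lcm_eq_right (even_iff_two_dvd.mp hb)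
      rw [h3]
      exact Nat.dvd_lcm_right 2 _
    · have h3 : Nat.Coprime 2 b := (Nat.coprime_two_left).mpr hb
      rw [h3.lcm_eq_mul, (Nat.Coprime.mul_right h3 h2).lcm_eq_mul]
      exact dvd_of_eq (by ring)

private lemma ar2 {b p n : ℕ} (hp : p.Prime) (hpo : Odd p) (hbp : Nat.Coprime b p)
    (h1 : b ∣ n) (h2 : n ∣ Nat.lcm 2 (b * p)) (h3 : n ≤ b * p) (h4 : n ≠ b * p) (h5 : 0 < n) :
    n ∣ Nat.lcm 2 b := by
  rw [lcm_two_mul hpo] at h2
  by_cases h : p ∣ n
  · have h6 : b * p ∣ n := Nat.Coprime.mul_dvd_of_dvd_of_dvd hbp h1 h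
    exact absurd (le_antisymm h3 (Nat.le_of_dvd h5 h6)) h4
  · have h6 : Nat.Coprime n p := ((Nat.Prime.coprime_iff_not_dvd hp).mpr h).symm
    exact h6.dvd_of_dvd_mul_right h2

private lemma ep_cases (r : ℕ) : (ep r = 4 ∧ r = 2) ∨ (ep r = r ∧ r ≠ 2) := by
  unfold ep
  split_ifs with h
  · exact Or.inl ⟨rfl, h⟩
  · exact Or.inr ⟨rfl, h⟩

private lemma ar3 {r n : ℕ} (hr : r.Prime) (h1 : n ∣ Nat.lcm 2 (ep r)) (h2 : ¬ ep r ∣ n) :
    n ∣ 2 := by
  rcases ep_cases r with ⟨h3, -⟩ | ⟨h3, -⟩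
  · rw [h3] at h1 h2
    have h4 : Nat.lcm 2 4 = 4 := by decide
    rw [h4] at h1
    have h5 : n ≤ 4 := Nat.le_of_dvd (by norm_num) h1
    interval_cases n <;> revert h1 h2 <;> decide
  · rw [h3] at h1 h2
    have h4 : Nat.lcm 2 r ∣ 2 * r := Nat.lcm_dvd (Dvd.intro _ rfl) (Dvd.intro_left _ rfl)
    exact ((Nat.Prime.coprime_iff_not_dvd hr).mpr h2).symm.dvd_of_dvd_mul_right (h1.trans h4)

private lemma ar4 {r p n : ℕ} (hr : r.Prime) (h1 : n ∣ Nat.lcm 2 (ep r) * p)
    (h2 : ¬ ep r ∣ n) : n ∣ 2 * p := by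
  obtain ⟨n1, n2, h3, h4, rfl⟩ := (Nat.dvd_mul).mp h1
  exact Nat.mul_dvd_mul (ar3 hr h3 fun h => h2 (h.mul_right n2)) h4

private lemma cop_ep {r s : ℕ} (hr : r.Prime) (hs : s.Prime) (h : r ≠ s) :
    Nat.Coprime (ep r) (ep s) := by
  rw [coprime_ep_iff hs]
  intro h1
  have h2 : s ∣ r := by
    rcases ep_cases r with ⟨h3, h4⟩ | ⟨h3, -⟩
    · rw [h3] at h1
      rw [h4]
      exact hs.dvd_of_dvd_pow (show s ∣ 2 ^ 2 from h1)
    · rwa [h3] at h1
  exact h ((Nat.prime_dvd_prime_iff_eq hs hr).mp h2).symm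

/-- The class of `q, p`: from `theta_three`, remove the orders `ep q0 * ep p` (`rem_even` or
`rem_PX`) and then the prime `q0` (`rem_prime`). Nothing changes at the order `ep q * ep p`, and the
remaining orders divide `lcm 2 (ep q * ep p)`. -/
theorem pair_transfer {X : AddSubgroup (ZMod m → ℤ)}
    (hX : ∀ F ∈ thetaSub1 m, TateF F → F ∈ X) {q q0 p : ℕ} (hq : q.Prime) (hq0 : q0.Prime)
    (hp : p.Prime) (h1 : q = 2 ∨ q % 4 = 3) (h2 : q0 = 2 ∨ q0 % 4 = 3) (hp4 : p % 4 = 1)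
    (hne : q ≠ q0) (hm : ep q * (ep q0 * ep p) ∣ m) (hs0 : ch p q0 = -1)
    (hcase : ch p q = 1 ∨ PX X q0 p) : PX X q p := by
  have hep : ep p = p := by
    unfold ep
    rw [if_neg (by rintro rfl; omega)]
  have hpo : Odd p := Nat.odd_iff.mpr (by omega)
  have hqp : q ≠ p := by rintro rfl; omega
  have hq0p : q0 ≠ p := by rintro rfl; omega
  have cqp : Nat.Coprime (ep q) p := by
    have := cop_ep hq hp hqp
    rwa [hep] at this
  have cbp : Nat.Coprime (ep q0) p := by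
    have := cop_ep hq0 hp hq0p
    rwa [hep] at this
  have cab : Nat.Coprime (ep q) (ep q0) := cop_ep hq hq0 hne
  have ha2 := two_lt_ep hq
  have hb2 := two_lt_ep hq0
  have hm1 : ep q * ep p ∣ m :=
    (Nat.mul_dvd_mul_left _ (Nat.dvd_mul_left _ _)).trans hm
  have hm2 : ep q0 * ep p ∣ m := (Nat.dvd_mul_left _ _).trans hm
  have hm3 : ep q0 ∣ m := (Nat.dvd_mul_right _ _).trans hm2
  obtain ⟨F, hF, hsupp, hpar, hE, hO⟩ := theta_three hX hq hq0 hp h1 h2 hp4 hne hm hs0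
  have hpos : ∀ a : ZMod m, 0 < addOrderOf a := fun a => addOrderOf_pos a
  rw [hep] at hm1 hm2
  -- first step
  have hstep : ∃ F1 : ZMod m → ℤ, InX X F1 ∧ (∀ a, addOrderOf a = ep q0 * p → F1 a = 0) ∧
      ∀ a, F1 a ≠ F a → addOrderOf a ∣ Nat.lcm 2 (ep q0 * p) ∧ addOrderOf a ≤ ep q0 * p := by
    have hs : ∀ a, F a ≠ 0 → ep q0 * ep p ∣ addOrderOf a → addOrderOf a = ep q0 * ep p := by
      intro a ha hd
      rcases hsupp a ha with h | h
      · exfalso
        have h3 : ep q0 ∣ ep q * p := by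
          rw [hep] at h hd
          exact (Nat.dvd_mul_right _ _).trans (hd.trans h)
        have h4 : ep q0 ∣ ep q := cbp.dvd_of_dvd_mul_right h3
        have h5 : ep q0 = 1 := Nat.Coprime.eq_one_of_dvd cab.symm h4
        omega
      · exact Nat.dvd_antisymm h hd
    have hne2 : q0 ≠ p := hq0p
    by_cases hc : ch p q = 1
    · obtain ⟨k, hk1, hk2⟩ : ∃ k : ℤ, (ep q0 : ℤ) ∣ k - 1 ∧ (ep p : ℤ) ∣ k + 1 := by
        rw [hep]
        obtain ⟨u, v, huv⟩ := Nat.isCoprime_iff_coprime.mpr cbp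
        refine ⟨1 - 2 * u * (ep q0 : ℤ), ⟨-2 * u, by ring⟩, ⟨2 * v, ?_⟩⟩
        linear_combination -2 * huv
      obtain ⟨F1, hR⟩ := rem_even hq0 hp hne2 (by rw [hep]; exact hm2) hF hs hk1 hk2
        (hE hc k hk1 hk2)
      refine ⟨F1, hR.inX, ?_, ?_⟩
      · intro a ha
        exact hR.top a (by rw [hep]; exact ha)
      · intro a ha
        have h3 := hR.dvd a ha
        rw [hep] at h3
        exact ⟨h3.trans (Nat.dvd_lcm_right _ _),
          Nat.le_of_dvd (Nat.mul_pos (by omega) hp.pos) h3⟩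
    · have hPX : PX X q0 p := hcase.resolve_left hc
      obtain ⟨F1, hR1, hR2, hR3⟩ := rem_PX hq0 hp hne2 (by rw [hep]; exact hm2) hPX hF hs
      rw [hep] at hR2 hR3
      exact ⟨F1, hR1, hR2, hR3⟩
  obtain ⟨F1, hF1, htop, hdvd⟩ := hstep
  -- second step
  have hs1 : ∀ a, F1 a ≠ 0 → ep q0 ∣ addOrderOf a → addOrderOf a ∣ Nat.lcm 2 (ep q0) := by
    intro a ha hd
    have hnt : addOrderOf a ≠ ep q0 * p := fun h => ha (htop a h)
    by_cases h : F1 a = F a
    · rw [h] at ha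
      rcases hsupp a ha with h3 | h3
      · exfalso
        rw [hep] at h3
        have h4 : ep q0 ∣ ep q := cbp.dvd_of_dvd_mul_right (hd.trans h3)
        have h5 : ep q0 = 1 := Nat.Coprime.eq_one_of_dvd cab.symm h4
        omega
      · rw [hep] at h3
        exact ar2 hp hpo cbp hd (h3.trans (Nat.dvd_lcm_right _ _))
          (Nat.le_of_dvd (Nat.mul_pos (by omega) hp.pos) h3) hnt (hpos a)
    · obtain ⟨h3, h4⟩ := hdvd a h
      exact ar2 hp hpo cbp hd h3 h4 hnt (hpos a)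
  obtain ⟨F2, hF2, hno, hch⟩ := rem_prime hq0 hm3 hF1 hs1
  have hle : 2 * p ≤ ep q * p := Nat.mul_le_mul_right p (by omega)
  have h2p : 2 * p ∣ Nat.lcm 2 (ep q * p) := by
    apply Nat.Coprime.mul_dvd_of_dvd_of_dvd ((Nat.coprime_two_left).mpr hpo)
    · exact Nat.dvd_lcm_left _ _
    · exact (Nat.dvd_mul_left _ _).trans (Nat.dvd_lcm_right _ _)
  refine ⟨F2, hF2, ?_, ?_⟩
  · intro a ha
    rw [hep]
    have hnb := hno a ha
    have key : addOrderOf a ∣ 2 * p ∨ addOrderOf a ∣ ep q * p := by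
      by_cases h : F2 a = F1 a
      · by_cases h' : F1 a = F a
        · rw [h, h'] at ha
          rcases hsupp a ha with h3 | h3
          · rw [hep] at h3
            exact Or.inr h3
          · rw [hep] at h3
            left
            apply ar4 hq0 _ hnb
            rw [← lcm_two_mul hpo]
            exact h3.trans (Nat.dvd_lcm_right _ _)
        · left
          apply ar4 hq0 _ hnb
          rw [← lcm_two_mul hpo]
          exact (hdvd a h').1
      · left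
        exact (ar3 hq0 (hch a h) hnb).trans (Nat.dvd_mul_right _ _)
    rcases key with h3 | h3
    · exact ⟨h3.trans h2p, (Nat.le_of_dvd (Nat.mul_pos (by norm_num) hp.pos) h3).trans hle⟩
    · exact ⟨h3.trans (Nat.dvd_lcm_right _ _),
        Nat.le_of_dvd (Nat.mul_pos (by omega) hp.pos) h3⟩
  · obtain ⟨k, hk1, hk2⟩ : ∃ k : ℤ, (ep q : ℤ) ∣ k - 1 ∧ (ep p : ℤ) ∣ k + 1 := by
      rw [hep]
      obtain ⟨u, v, huv⟩ := Nat.isCoprime_iff_coprime.mpr cqp
      refine ⟨1 - 2 * u * (ep q : ℤ), ⟨-2 * u, by ring⟩, ⟨2 * v, ?_⟩⟩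
      linear_combination -2 * huv
    refine ⟨k, hk1, hk2, ?_⟩
    have hsame : ∀ j : ℤ, IsCoprime j ((ep q * ep p : ℕ) : ℤ) →
        F2 (pt m (ep q * ep p) j) = F (pt m (ep q * ep p) j) := by
      intro j hj
      have ho : addOrderOf (pt m (ep q * ep p) j) = ep q * p := by
        rw [addOrderOf_pt (by rw [hep]; exact hm1) hj, hep]
      have e1 : F2 (pt m (ep q * ep p) j) = F1 (pt m (ep q * ep p) j) := by
        by_contra h
        have h3 := hch _ h
        rw [ho] at h3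
        have h4 : p ∣ 2 * ep q0 := (Nat.dvd_mul_left _ _).trans (h3.trans
          (Nat.lcm_dvd (Dvd.intro _ rfl) (Dvd.intro_left _ rfl)))
        rcases (Nat.Prime.dvd_mul hp).mp h4 with h5 | h5
        · have := (Nat.prime_dvd_prime_iff_eq hp Nat.prime_two).mp h5
          omega
        · have h6 := Nat.Coprime.eq_one_of_dvd cbp.symm h5
          exact hp.one_lt.ne' h6
      have e2 : F1 (pt m (ep q * ep p) j) = F (pt m (ep q * ep p) j) := by
        by_contra h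
        have h3 := (hdvd _ h).1
        rw [ho, lcm_two_mul hpo] at h3
        have h4 : ep q ∣ Nat.lcm 2 (ep q0) := Nat.dvd_of_mul_dvd_mul_right hp.pos h3
        have h5 : ep q ∣ 2 * ep q0 := h4.trans
          (Nat.lcm_dvd (Dvd.intro _ rfl) (Dvd.intro_left _ rfl))
        have h6 : ep q ∣ 2 := cab.dvd_of_dvd_mul_right h5
        have h7 := Nat.le_of_dvd (by norm_num) h6
        omega
      rw [e1, e2]
    have hj : IsCoprime k ((ep q * ep p : ℕ) : ℤ) := by
      rw [Nat.cast_mul]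
      apply IsCoprime.mul_right
      · obtain ⟨c, hc⟩ := hk1
        exact ⟨1, -c, by linear_combination hc⟩
      · obtain ⟨c, hc⟩ := hk2
        exact ⟨-1, c, by linear_combination -hc⟩
    rw [hsame 1 isCoprime_one_left, hsame k hj]
    exact hpar k hk1 hk2

end Pool.Agent.Lib.MP_938ce2_ag_h99v
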