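import Pool.Agent.Lib.MP_938ce2_ag_h99v.G03
import Pool.Agent.Lib.MP_938ce2_ag_h99v.T07

/-!
The primes `5`, `13`, `17`.
-/

set_option autoImplicit false
set_option linter.style.haveILetI false
set_option linter.unusedSectionVars false

open Finset

namespace Pool.Agent.Lib.MP_938ce2_ag_h99v

open Pool.Agent.Lib.MP_938ce2_ag_h99 Pool.Agent.Lib.MP_938ce2_ag_h6
open Pool.Agent.Lib.MP_938ce2_ag_h99t

/-- The primes `5, 13, 17`: `pair_transfer` with `q0 = 2` (`2`, `5` and `2`, `13` are tiny) or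
`q0 = 3` (`3`, `17` is tiny); the case `q = q0` is `PX_tin`. -/
theorem PX_base {m : ℕ} [NeZero m] {p q : ℕ} (hp : p = 5 ∨ p = 13 ∨ p = 17) (hq : q.Prime)
    (hq4 : q % 4 ≠ 1) (hm : 24 * (ep q * p) ∣ m) : PX (YY (GT1 (m := m))) q p := by
  have hpp : p.Prime := by rcases hp with rfl | rfl | rfl <;> norm_num
  have hp4 : p % 4 = 1 := by rcases hp with rfl | rfl | rfl <;> norm_num
  have hp2 : p ≠ 2 := by rintro rfl; norm_num at hp4
  have hq' : q = 2 ∨ q % 4 = 3 := by
    rcases hq.eq_two_or_odd with h | h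
    · exact Or.inl h
    · right; omega
  have h2m : 2 ∣ m := ((by norm_num : 2 ∣ 24).trans (dvd_mul_right _ _)).trans hm
  have hX : ∀ F ∈ thetaSub1 m, TateF F → F ∈ YY (GT1 (m := m)) :=
    fun F hF hT => thetaSub1_le_GT1 h2m hF hT
  have hep : ep p = p := by unfold ep; rw [if_neg hp2]
  -- the tiny pair
  have key : ∀ q0 : ℕ, q0.Prime → (q0 = 2 ∨ q0 % 4 = 3) → q0 < p → Tin q0 p → ch p q0 = -1 →
      2 * ep q0 ∣ 24 → PX (YY (GT1 (m := m))) q p := by
    intro q0 hq0 h2 hlt ht hs hd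
    have h0 : PX (YY (GT1 (m := m))) q0 p := by
      refine PX_tin hq0 hpp hlt ht ?_
      rw [hep, ← mul_assoc]
      exact (Nat.mul_dvd_mul hd (dvd_mul_left p (ep q))).trans hm
    by_cases hne : q = q0
    · rw [hne]; exact h0
    · refine pair_transfer hX hq hq0 hpp hq' h2 hp4 hne ?_ hs (Or.inr h0)
      rw [hep]
      refine Dvd.dvd.trans ?_ hm
      have h3 : ep q0 ∣ 24 := (dvd_mul_left _ _).trans hd
      calc ep q * (ep q0 * p) = ep q0 * (ep q * p) := by ring
        _ ∣ 24 * (ep q * p) := Nat.mul_dvd_mul_right h3 _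
  rcases hp with rfl | rfl | rfl
  · exact key 2 Nat.prime_two (Or.inl rfl) (by norm_num) (by unfold Tin; norm_num)
      (by unfold ch; norm_num) (by unfold ep; norm_num)
  · exact key 2 Nat.prime_two (Or.inl rfl) (by norm_num) (by unfold Tin; norm_num)
      (by unfold ch; norm_num) (by unfold ep; norm_num)
  · exact key 3 Nat.prime_three (Or.inr rfl) (by norm_num) (by unfold Tin; norm_num)
      (by unfold ch; norm_num) (by unfold ep; norm_num)

end Pool.Agent.Lib.MP_938ce2_ag_h99v
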