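import Pool.Agent.Lib.MP_938ce2_ag_h99v.G01
import Pool.Agent.Lib.MP_938ce2_ag_h99v.T07
import Pool.Agent.Lib.MP_938ce2_ag_h99v.A01

/-!
Pairs with symbol one, mixed case.
-/

set_option autoImplicit false
set_option linter.style.haveILetI false
set_option linter.unusedSectionVars false

open Finset

namespace Pool.Agent.Lib.MP_938ce2_ag_h99v

open Pool.Agent.Lib.MP_938ce2_ag_h99 Pool.Agent.Lib.MP_938ce2_ag_h6
open Pool.Agent.Lib.MP_938ce2_ag_h99t

/-- `p = 1 mod 4`, `q` not, symbol one: `pair_transfer` with `exists_aux_one` (take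
`N := 2 * (ep q * (ep q0 * ep p))`) -/
theorem PX_mixed {p q : ℕ} (hp : p.Prime) (hq : q.Prime) (hp4 : p % 4 = 1) (hq4 : q % 4 ≠ 1)
    (h : ch p q = 1) : ∃ N ≠ 0, ∀ (m : ℕ) [NeZero m], N ∣ m → PX (YY (GT1 (m := m))) q p := by
  obtain ⟨q0, hq0, hq04, hs0, hlt⟩ := exists_aux_one hp hp4 q
  have h1 : q = 2 ∨ q % 4 = 3 := by
    rcases hq.eq_two_or_odd with h2 | h2
    · exact Or.inl h2
    · right; omega
  refine ⟨2 * (ep q * (ep q0 * ep p)), ?_, ?_⟩
  · exact mul_ne_zero two_ne_zero (mul_ne_zero (ep_pos hq).ne' (mul_ne_zero (ep_pos hq0).ne'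
      (ep_pos hp).ne'))
  · intro m _ hm
    exact pair_transfer (fun F hF hT => thetaSub1_le_GT1 (dvd_of_mul_right_dvd hm) hF hT)
      hq hq0 hp h1 (Or.inr hq04) hp4 (ne_of_lt hlt) (dvd_of_mul_left_dvd hm) hs0 (Or.inl h)

end Pool.Agent.Lib.MP_938ce2_ag_h99v
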