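import Pool.Agent.Lib.MP_938ce2_ag_h99v.G04
import Pool.Agent.Lib.MP_938ce2_ag_h99v.F07
import Pool.Agent.Lib.MP_938ce2_ag_h99v.A02

/-!
Pairs of primes `1 mod 4`.
-/

set_option autoImplicit false
set_option linter.style.haveILetI false
set_option linter.unusedSectionVars false

open Finset

namespace Pool.Agent.Lib.MP_938ce2_ag_h99v

open Pool.Agent.Lib.MP_938ce2_ag_h99 Pool.Agent.Lib.MP_938ce2_ag_h6
open Pool.Agent.Lib.MP_938ce2_ag_h99t

/-- Both `1 mod 4`, symbol one or both in `{5, 13, 17}`: `pair_one` with `exists_aux_two`, and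
`PX_base` in the second case. -/
theorem PX_one {p q : ℕ} (hp : p.Prime) (hq : q.Prime) (hp4 : p % 4 = 1) (hq4 : q % 4 = 1)
    (hpq : p ≠ q) (h : ch p q = 1 ∨ (p = 5 ∨ p = 13 ∨ p = 17) ∧ (q = 5 ∨ q = 13 ∨ q = 17)) :
    ∃ N ≠ 0, ∀ (m : ℕ) [NeZero m], N ∣ m → PX (YY (GT1 (m := m))) p q := by
  obtain ⟨q0, q1, hq0, hq1, h0, h1, h01, -, -, s1, s2, s3, s4, s5⟩ :=
    exists_aux_two hp hq hp4 hq4 hpq 0
  have g0 := hq0.pos
  have g1 := hq1.pos
  have g2 := hp.pos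
  have g3 := hq.pos
  have e0 : ep q0 = q0 := by
    unfold ep
    rw [if_neg (by omega)]
  have e1 : ep q1 = q1 := by
    unfold ep
    rw [if_neg (by omega)]
  refine ⟨24 * (q0 * q1 * p * q), by positivity, ?_⟩
  intro m _ hm
  have h2 : 2 ∣ m := Dvd.dvd.trans ⟨12 * (q0 * q1 * p * q), by ring⟩ hm
  have hm' : q0 * q1 * p * q ∣ m := (Dvd.intro_left 24 rfl).trans hm
  refine pair_one (X := YY (GT1 (m := m))) (fun F hF hT => thetaSub1_le_GT1 h2 hF hT) hq0 hq1 hp hq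
    h0 h1 hp4 hq4 h01 hpq s1 s2 s3 s4 s5 hm' ?_
  rcases h with h | ⟨hp', hq'⟩
  · exact Or.inl h
  · right
    refine ⟨PX_base hp' hq0 (by omega) ?_, PX_base hq' hq1 (by omega) ?_⟩
    · rw [e0]
      exact Dvd.dvd.trans ⟨q1 * q, by ring⟩ hm
    · rw [e1]
      exact Dvd.dvd.trans ⟨q0 * p, by ring⟩ hm

end Pool.Agent.Lib.MP_938ce2_ag_h99v
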