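import Pool.Agent.Lib.MP_938ce2_ag_h99v.G02
import Pool.Agent.Lib.MP_938ce2_ag_h99v.G05
import Pool.Agent.Lib.MP_938ce2_ag_h99v.G06

/-!
All pairs.
-/

set_option autoImplicit false
set_option linter.style.haveILetI false
set_option linter.unusedSectionVars false

open Finset

namespace Pool.Agent.Lib.MP_938ce2_ag_h99v

open Pool.Agent.Lib.MP_938ce2_ag_h99 Pool.Agent.Lib.MP_938ce2_ag_h6
open Pool.Agent.Lib.MP_938ce2_ag_h99t

/-- the condition on pairs `p < q` -/
def NB (p q : ℕ) : Prop :=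
  (p % 4 ≠ 1 ∧ q % 4 ≠ 1) ∨ Tin p q ∨ jacobiSym p q = 1 ∨
    (p % 4 ≠ 1 ∨ p = 5 ∨ p = 13 ∨ p = 17) ∧ (q % 4 ≠ 1 ∨ q = 5 ∨ q = 13 ∨ q = 17)

/-- One pair: `PX_three`, `PX_tin`, `PX_mixed`, `PX_one`, `PX_base` with `ch_symm`, `PX.symm`. Here
`ch q p = jacobiSym p q` for odd `q`. -/
theorem PX_NB {p q : ℕ} (hp : p.Prime) (hq : q.Prime) (hpq : p < q) (h : NB p q) :
    ∃ N ≠ 0, ∀ (m : ℕ) [NeZero m], N ∣ m → PX (YY (GT1 (m := m))) p q := by
  have hpos : ∀ r : ℕ, r.Prime → ep r ≠ 0 := fun r hr => by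
    have := two_lt_ep hr
    omega
  have hN : 2 * (ep p * ep q) ≠ 0 := by
    have h1 := hpos p hp
    have h2 := hpos q hq
    positivity
  by_cases h1 : p % 4 = 1
  · have hp5 : 5 ≤ p := by
      have := hp.two_le
      omega
    have hp2 : p ≠ 2 := by omega
    have hq2 : q ≠ 2 := by omega
    by_cases h2 : q % 4 = 1
    · rcases h with ⟨h3, _⟩ | h3 | h3 | ⟨h3, h4⟩
      · exact absurd h1 h3
      · exact ⟨_, hN, fun m _ hm => PX_tin hp hq hpq h3 hm⟩
      · refine PX_one hp hq h1 h2 hpq.ne (Or.inl ?_)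
        unfold ch
        rw [if_neg hp2, jacobiSym.quadratic_reciprocity_one_mod_four h2
          (hp.odd_of_ne_two hp2)]
        exact h3
      · refine PX_one hp hq h1 h2 hpq.ne (Or.inr ⟨?_, ?_⟩)
        · rcases h3 with h3 | h3
          · exact absurd h1 h3
          · exact h3
        · rcases h4 with h4 | h4
          · exact absurd h2 h4
          · exact h4
    · rcases h with ⟨h3, _⟩ | h3 | h3 | ⟨h3, h4⟩
      · exact absurd h1 h3
      · exact ⟨_, hN, fun m _ hm => PX_tin hp hq hpq h3 hm⟩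
      · have h4 : ch p q = 1 := by
          unfold ch
          rw [if_neg hp2, ← jacobiSym.quadratic_reciprocity_one_mod_four h1
            (hq.odd_of_ne_two hq2)]
          exact h3
        obtain ⟨N, hN0, hNP⟩ := PX_mixed hp hq h1 h2 h4
        refine ⟨N * (ep q * ep p), mul_ne_zero hN0 (mul_ne_zero (hpos q hq) (hpos p hp)),
          fun m _ hm => ?_⟩
        exact PX.symm ((dvd_mul_left _ _).trans hm) (hNP m ((dvd_mul_right _ _).trans hm))
      · have h5 : p = 5 ∨ p = 13 ∨ p = 17 := by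
          rcases h3 with h3 | h3
          · exact absurd h1 h3
          · exact h3
        refine ⟨24 * (ep q * p) * (ep q * ep p), mul_ne_zero (mul_ne_zero (by norm_num)
          (mul_ne_zero (hpos q hq) hp.ne_zero)) (mul_ne_zero (hpos q hq) (hpos p hp)),
          fun m _ hm => ?_⟩
        exact PX.symm ((dvd_mul_left _ _).trans hm)
          (PX_base h5 hq h2 ((dvd_mul_right _ _).trans hm))
  · by_cases h2 : q % 4 = 1
    · have hq2 : q ≠ 2 := by omega
      rcases h with ⟨_, h3⟩ | h3 | h3 | ⟨h3, h4⟩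
      · exact absurd h2 h3
      · exact ⟨_, hN, fun m _ hm => PX_tin hp hq hpq h3 hm⟩
      · have h4 : ch q p = 1 := by
          unfold ch
          rw [if_neg hq2]
          exact h3
        exact PX_mixed hq hp h2 h1 h4
      · have h5 : q = 5 ∨ q = 13 ∨ q = 17 := by
          rcases h4 with h4 | h4
          · exact absurd h2 h4
          · exact h4
        exact ⟨24 * (ep p * q), mul_ne_zero (by norm_num) (mul_ne_zero (hpos p hp) hq.ne_zero),
          fun m _ hm => PX_base h5 hp h1 hm⟩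
    · exact ⟨_, hN, fun m _ hm => PX_three hp hq hpq.ne h1 h2 hm⟩

end Pool.Agent.Lib.MP_938ce2_ag_h99v
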