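import Pool.Agent.Lib.MP_938ce2_ag_h99v.G07

/-!
All pairs of primes dividing the level.
-/

set_option autoImplicit false
set_option linter.style.haveILetI false
set_option linter.unusedSectionVars false

open Finset

namespace Pool.Agent.Lib.MP_938ce2_ag_h99v

open Pool.Agent.Lib.MP_938ce2_ag_h99 Pool.Agent.Lib.MP_938ce2_ag_h6
open Pool.Agent.Lib.MP_938ce2_ag_h99t

/-- All pairs of primes dividing `m`: product of the numbers `N` of `PX_NB` over the finitely many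
pairs. -/
theorem exists_level {m : ℕ} (hm : m ≠ 0) : ∃ N ≠ 0, ∀ (M : ℕ) [NeZero M], N ∣ M →
    ∀ p q, p.Prime → q.Prime → p ∣ m → q ∣ m → p < q → NB p q →
      PX (YY (GT1 (m := M))) p q := by
  classical
  have h : ∀ x : ℕ × ℕ, ∃ N : ℕ, N ≠ 0 ∧ (x.1.Prime → x.2.Prime → x.1 < x.2 → NB x.1 x.2 →
      ∀ (M : ℕ) [NeZero M], N ∣ M → PX (YY (GT1 (m := M))) x.1 x.2) := by
    intro x
    by_cases hx : x.1.Prime ∧ x.2.Prime ∧ x.1 < x.2 ∧ NB x.1 x.2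
    · obtain ⟨N, hN, hN'⟩ := PX_NB hx.1 hx.2.1 hx.2.2.1 hx.2.2.2
      exact ⟨N, hN, fun _ _ _ _ => hN'⟩
    · exact ⟨1, one_ne_zero, fun h1 h2 h3 h4 => absurd ⟨h1, h2, h3, h4⟩ hx⟩
  choose N hN0 hN using h
  refine ⟨∏ x ∈ m.divisors ×ˢ m.divisors, N x, Finset.prod_ne_zero_iff.2 (fun x _ => hN0 x), ?_⟩
  intro M _ hM p q hp hq hpm hqm hpq hNB
  refine hN (p, q) hp hq hpq hNB M ((Finset.dvd_prod_of_mem N ?_).trans hM)
  rw [Finset.mem_product]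
  exact ⟨Nat.mem_divisors.2 ⟨hpm, hm⟩, Nat.mem_divisors.2 ⟨hqm, hm⟩⟩

end Pool.Agent.Lib.MP_938ce2_ag_h99v
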