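import Pool.Agent.Lib.MP_938ce2_ag_h99v.Theta1
import Pool.Agent.Lib.MP_938ce2_ag_h99t.Final5

/-!
The class of basic characters.
-/

set_option autoImplicit false
set_option linter.style.haveILetI false
set_option linter.unusedSectionVars false

open Finset

namespace Pool.Agent.Lib.MP_938ce2_ag_h99v

open Pool.Agent.Lib.MP_938ce2_ag_h99 Pool.Agent.Lib.MP_938ce2_ag_h6
open Pool.Agent.Lib.MP_938ce2_ag_h99t

/-- the additional class of characters -/
def GT1 {m : ℕ} [NeZero m] (s : Multiset (ZMod m)) : Prop := Fano s ∨ Theta1 s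

end Pool.Agent.Lib.MP_938ce2_ag_h99v
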