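import Pool.Agent.Lib.MP_938ce2_ag_h99v.LD
import Pool.Agent.Lib.MP_938ce2_ag_h99v.P02

/-!
Levels with two primes.
-/

set_option autoImplicit false
set_option linter.style.haveILetI false
set_option linter.unusedSectionVars false

open Finset

namespace Pool.Agent.Lib.MP_938ce2_ag_h99v

open Pool.Agent.Lib.MP_938ce2_ag_h99 Pool.Agent.Lib.MP_938ce2_ag_h6
open Pool.Agent.Lib.MP_938ce2_ag_h99t

variable {m : ℕ} [NeZero m]

private lemma ep_pf {p : ℕ} (hp : p.Prime) : (ep p).primeFactors = {p} := by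
  unfold ep
  split_ifs with h
  · subst h
    have : (4 : ℕ) = 2 ^ 2 := by norm_num
    rw [this, Nat.primeFactors_prime_pow two_ne_zero Nat.prime_two]
  · exact hp.primeFactors

private lemma ep_cop {p q : ℕ} (hp : p.Prime) (hq : q.Prime) (hpq : p ≠ q) :
    Nat.Coprime (ep p) (ep q) := by
  have h1 : Nat.Coprime p (ep q) := coprime_ep hq hp (Ne.symm hpq)
  have h2 : ep p = p ∨ ep p = p ^ 2 := by
    unfold ep
    split_ifs with h
    · right; subst h; norm_num
    · left; rfl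
  rcases h2 with h2 | h2
  · rw [h2]; exact h1
  · rw [h2]; exact Nat.Coprime.pow_left 2 h1

private lemma ep_dvd_two_mul {p : ℕ} : ep p ∣ 2 * p := by
  unfold ep
  split_ifs with h
  · subst h; norm_num
  · exact Dvd.intro_left 2 rfl

private lemma dvd_ep {p : ℕ} : p ∣ ep p := by
  unfold ep
  split_ifs with h
  · subst h; norm_num
  · exact dvd_refl p

private lemma two_facts {p q : ℕ} (hp : p.Prime) (hq : q.Prime) (hpq : p ≠ q) :
    ep p * ep q ≠ 0 ∧ (ep p * ep q).primeFactors = {p, q} ∧ (ep p * ep q) % 4 ≠ 2 ∧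
      ep p * ep q ∣ 2 * rad (ep p * ep q) := by
  have hp0 : ep p ≠ 0 := (ep_pos hp).ne'
  have hq0 : ep q ≠ 0 := (ep_pos hq).ne'
  have hpf : (ep p * ep q).primeFactors = {p, q} := by
    rw [Nat.primeFactors_mul hp0 hq0, ep_pf hp, ep_pf hq]
    rfl
  refine ⟨mul_ne_zero hp0 hq0, hpf, ?_, ?_⟩
  · by_cases h2 : p = 2
    · have : ep p = 4 := by unfold ep; rw [if_pos h2]
      rw [this]; omega
    · by_cases h3 : q = 2
      · have : ep q = 4 := by unfold ep; rw [if_pos h3]
        rw [this]; omega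
      · have e1 : ep p = p := by unfold ep; rw [if_neg h2]
        have e2 : ep q = q := by unfold ep; rw [if_neg h3]
        rw [e1, e2]
        have o1 := hp.eq_two_or_odd.resolve_left h2
        have o2 := hq.eq_two_or_odd.resolve_left h3
        have : (p * q) % 2 = 1 := by rw [Nat.mul_mod, o1, o2]
        omega
  · have hr : rad (ep p * ep q) = p * q := by
      unfold rad
      rw [hpf, prod_pair hpq]
    rw [hr]
    apply Nat.Coprime.mul_dvd_of_dvd_of_dvd (ep_cop hp hq hpq)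
    · exact ep_dvd_two_mul.trans (by rw [← mul_assoc]; exact Dvd.intro _ rfl)
    · exact ep_dvd_two_mul.trans (mul_dvd_mul_left 2 (Dvd.intro_left p rfl))

private lemma two_unit {p q : ℕ} (hp : p.Prime) (hq : q.Prime) (hpq : p ≠ q) {k : ℤ}
    (hk1 : (ep p : ℤ) ∣ k - 1) (hk2 : (ep q : ℤ) ∣ k + 1) :
    ∃ c1 c2 : (ZMod (ep p * ep q))ˣ, c1 ∈ Kp (ep p * ep q) p ∧ c2 ∈ Kp (ep p * ep q) q ∧
      (-1 : (ZMod (ep p * ep q))ˣ) = c1 * c2 ∧
      (c2 : ZMod (ep p * ep q)) = ((k : ℤ) : ZMod (ep p * ep q)) := by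
  have hcop : IsCoprime (ep p : ℤ) (ep q : ℤ) := by
    rw [Nat.isCoprime_iff_coprime]
    exact ep_cop hp hq hpq
  have hz : ∀ a : ℤ, (ep p : ℤ) ∣ a → (ep q : ℤ) ∣ a → ((a : ℤ) : ZMod (ep p * ep q)) = 0 := by
    intro a h1 h2
    rw [ZMod.intCast_zmod_eq_zero_iff_dvd]
    push_cast
    exact hcop.mul_dvd h1 h2
  have hkk : ((k : ℤ) : ZMod (ep p * ep q)) * ((k : ℤ) : ZMod (ep p * ep q)) = 1 := by
    have := hz ((k - 1) * (k + 1)) (Dvd.dvd.mul_right hk1 _) (Dvd.dvd.mul_left hk2 _)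
    push_cast at this
    linear_combination this
  let c2 : (ZMod (ep p * ep q))ˣ := ⟨((k : ℤ) : ZMod (ep p * ep q)), ((k : ℤ) : ZMod (ep p * ep q)),
    hkk, hkk⟩
  have e2 : (c2 : ZMod (ep p * ep q)) = ((k : ℤ) : ZMod (ep p * ep q)) := rfl
  have d1 : (ep p : ℤ) ∣ 2 * (p : ℤ) := by exact_mod_cast (ep_dvd_two_mul (p := p))
  have d2 : (ep q : ℤ) ∣ 2 * (q : ℤ) := by exact_mod_cast (ep_dvd_two_mul (p := q))
  refine ⟨-c2, c2, ?_, ?_, ?_, e2⟩
  · rw [mem_Kp]
    rw [Units.val_neg, e2]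
    have := hz ((k + 1) * p) (by
      have h1 : (k + 1) * (p : ℤ) = (k - 1) * p + 2 * p := by ring
      rw [h1]
      exact dvd_add (Dvd.dvd.mul_right hk1 _) d1) (Dvd.dvd.mul_right hk2 _)
    push_cast at this
    linear_combination -this
  · rw [mem_Kp, e2]
    have := hz ((k - 1) * q) (Dvd.dvd.mul_right hk1 _) (by
      have h1 : (k - 1) * (q : ℤ) = (k + 1) * q - 2 * q := by ring
      rw [h1]
      exact dvd_sub (Dvd.dvd.mul_right hk2 _) d2)
    push_cast at this
    linear_combination this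
  · apply Units.ext
    rw [Units.val_mul, Units.val_neg, Units.val_neg, Units.val_one, e2]
    linear_combination hkk

/-- Levels with two primes, even parity. As in `level_two` of h99/MainA.lean (the case `hev`):
`MD_top`, `split_two`, `Peeled.of_peel`, but with the weaker support hypothesis `hs`, which is the
one needed by `MD_top`. -/
theorem rem_even {X : AddSubgroup (ZMod m → ℤ)} {p q : ℕ} (hp : p.Prime) (hq : q.Prime)
    (hpq : p ≠ q) (hm : ep p * ep q ∣ m) {F : ZMod m → ℤ} (hF : InX X F)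
    (hs : ∀ a, F a ≠ 0 → ep p * ep q ∣ addOrderOf a → addOrderOf a = ep p * ep q)
    {k : ℤ} (hk1 : (ep p : ℤ) ∣ k - 1) (hk2 : (ep q : ℤ) ∣ k + 1)
    (he : Even (F (pt m (ep p * ep q) 1) + F (pt m (ep p * ep q) k))) :
    ∃ F', Rem X (ep p * ep q) F F' := by
  obtain ⟨hf0, hpf0, hf4, hfr⟩ := two_facts hp hq hpq
  obtain ⟨c1, c2, hc1, hc2, hc, hck⟩ := two_unit hp hq hpq hk1 hk2
  have htot := tot_prod hf0 hf4 hfr
  rw [hpf0, prod_pair hpq] at htot
  rw [pt_eq_jj hm, pt_eq_jj hm, ← hck, Int.cast_one] at he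
  have hpf : p ∣ ep p * ep q := dvd_ep.trans (Dvd.intro _ rfl)
  have hqf : q ∣ ep p * ep q := dvd_ep.trans (Dvd.intro_left _ rfl)
  have hall : ∀ r, r.Prime → r ∣ ep p * ep q → r ∈ [p, q] := by
    intro r hr hrf
    have : r ∈ (ep p * ep q).primeFactors := Nat.mem_primeFactors.mpr ⟨hr, hrf, hf0⟩
    rw [hpf0] at this
    simpa using this
  generalize hfe : ep p * ep q = f at *
  haveI : NeZero f := ⟨hf0⟩
  have hcard : Nat.card (Kp f p) * Nat.card (Kp f q) = f.totient := by
    rw [card_Kp hp hpf, card_Kp hq hqf]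
    exact htot
  have hprime : ∀ r ∈ [p, q], r.Prime ∧ r ∣ f := by
    intro r hr
    simp only [List.mem_cons, List.not_mem_nil, or_false] at hr
    rcases hr with rfl | rfl
    · exact ⟨hp, hpf⟩
    · exact ⟨hq, hqf⟩
  have hI := indep_Kp [p, q] hprime (by simp [hpq])
  have hd : Disjoint (Kp f p) (Kp f q) := by
    have := hI.1
    simpa [spanL] using this
  have htop : Kp f p ⊔ Kp f q = ⊤ := by
    apply Subgroup.eq_top_of_card_eq
    rw [card_sup hd, hcard, Nat.card_eq_fintype_card, ZMod.card_units_eq_totient]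
  have hMD := MD_top hm F hF.odd hF.tate hs [p, q] hall
  simp only [List.map_cons, List.map_nil] at hMD
  obtain ⟨G1, G2, h1, h2, h3, h4, h5⟩ := split_two (-1) c1 c2 (Kp f p) (Kp f q) hd htop hc1 hc2 hc
    (fun u : (ZMod f)ˣ => F (jj hm (u : ZMod f))) hMD (odd_top hm hF.odd)
    (by simpa using he)
  have hP : ∃ F', Peeled f F F' := by
    refine Peeled.of_peel hm hF.odd hF.tate [p, q] hprime
      (fun r => if r = p then G1 else G2) ?_ ?_ ?_
    · intro r hr z hz u
      simp only [List.mem_cons, List.not_mem_nil, or_false] at hr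
      rcases hr with rfl | rfl
      · simp only [if_true]
        exact h1 z hz u
      · rw [if_neg (Ne.symm hpq)]
        exact h2 z hz u
    · intro u
      simp only [List.map_cons, List.map_nil, List.sum_cons, List.sum_nil, add_zero, if_true]
      rw [if_neg (Ne.symm hpq)]
      exact h3 u
    · intro r hr u
      simp only [List.mem_cons, List.not_mem_nil, or_false] at hr
      rcases hr with rfl | rfl
      · simp only [if_true]
        exact h4 u
      · rw [if_neg (Ne.symm hpq)]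
        exact h5 u
  obtain ⟨F', hr1, hr2, hr3, hr4, hr5⟩ := hP
  refine ⟨F', ⟨⟨?_, hr2, hr3⟩, hr4, hr5⟩⟩
  have e : F' = F - (F - F') := by abel
  rw [e]
  exact (X ⊔ relSub m).sub_mem hF.mem ((le_sup_right : relSub m ≤ X ⊔ relSub m) hr1)

end Pool.Agent.Lib.MP_938ce2_ag_h99v
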