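import Pool.Agent.Lib.MP_938ce2_ag_h99v.LD

/-!
Levels with one prime and levels `2 mod 4`.
-/

set_option autoImplicit false
set_option linter.style.haveILetI false
set_option linter.unusedSectionVars false

open Finset

namespace Pool.Agent.Lib.MP_938ce2_ag_h99v

open Pool.Agent.Lib.MP_938ce2_ag_h99 Pool.Agent.Lib.MP_938ce2_ag_h6
open Pool.Agent.Lib.MP_938ce2_ag_h99t

variable {m : ℕ} [NeZero m]

/-- Levels with one prime (`level_one` of h99/MainA.lean), and twice an odd number
(`level_even`). -/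
theorem rem_one {X : AddSubgroup (ZMod m → ℤ)} {f r : ℕ} (hf : f ∣ m) (hf1 : f ≠ 1)
    (hr : r.Prime) (hall : f % 4 = 2 ∨ ∀ s, s.Prime → s ∣ f → s = r) {F : ZMod m → ℤ}
    (hF : InX X F) (hs : ∀ a, F a ≠ 0 → f ∣ addOrderOf a → addOrderOf a = f) :
    ∃ F', Rem X f F F' := by
  have hf0 : NeZero f :=
    ⟨fun h => NeZero.ne m (by rw [h] at hf; exact Nat.eq_zero_of_zero_dvd hf)⟩
  have hfin : (∃ F', Peeled f F F') → ∃ F', Rem X f F F' := by
    rintro ⟨F', h1, h2, h3, h4, h5⟩
    refine ⟨F', ⟨?_, h2, h3⟩, h4, h5⟩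
    have h6 := (X ⊔ relSub m).sub_mem hF.mem ((le_sup_right : relSub m ≤ X ⊔ relSub m) h1)
    rwa [sub_sub_cancel] at h6
  apply hfin
  by_cases h4 : f % 4 = 2
  · exact level_even hf h4 F hF.odd hF.tate
  · have hall' : ∀ s, s.Prime → s ∣ f → s = r := by
      rcases hall with h | h
      · exact absurd h h4
      · exact h
    have hrf : r ∣ f := by
      obtain ⟨s, hs1, hs2⟩ := Nat.exists_prime_and_dvd hf1
      rw [← hall' s hs1 hs2]
      exact hs2
    exact level_one hf hr hrf (fun s h1 h2 => by rw [List.mem_singleton]; exact hall' s h1 h2)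
      F hF.odd hF.tate hs

end Pool.Agent.Lib.MP_938ce2_ag_h99v
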