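import Pool.Agent.Lib.MP_938ce2_ag_h99v.PlD

/-!
The elements `pt m f k`. Use `jj_intCast`, `addOrderOf_unit`, `exists_unit_of_order`.
-/

set_option autoImplicit false
set_option linter.style.haveILetI false
set_option linter.unusedSectionVars false

open Finset

namespace Pool.Agent.Lib.MP_938ce2_ag_h99v

open Pool.Agent.Lib.MP_938ce2_ag_h99 Pool.Agent.Lib.MP_938ce2_ag_h6
open Pool.Agent.Lib.MP_938ce2_ag_h99t

variable {m : ℕ} [NeZero m]

lemma pt_eq_jj {f : ℕ} (hf : f ∣ m) (k : ℤ) : pt m f k = jj hf (k : ZMod f) := by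
  unfold pt
  rw [jj_intCast]

lemma pt_neg (f : ℕ) (k : ℤ) : pt m f (-k) = - pt m f k := by
  unfold pt
  push_cast
  ring

lemma pt_congr {f : ℕ} (hf : f ∣ m) {a b : ℤ} (h : (f : ℤ) ∣ a - b) : pt m f a = pt m f b := by
  rw [pt_eq_jj hf, pt_eq_jj hf]
  congr 1
  rw [ZMod.intCast_eq_intCast_iff_dvd_sub]
  obtain ⟨c, hc⟩ := h
  exact ⟨-c, by linear_combination -hc⟩

lemma addOrderOf_pt {f : ℕ} (hf : f ∣ m) {k : ℤ} (hk : IsCoprime k (f : ℤ)) :
    addOrderOf (pt m f k) = f := by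
  rw [pt_eq_jj hf]
  obtain ⟨u, hu⟩ := (ZMod.coe_int_isUnit_iff_isCoprime k f).2 hk.symm
  rw [← hu]
  exact addOrderOf_unit hf u

/-- normal form of the elements of order `f` -/
lemma exists_pt {f : ℕ} {a : ZMod m} (h : addOrderOf a = f) :
    ∃ k : ℤ, IsCoprime k (f : ℤ) ∧ a = pt m f k := by
  have hf : f ∣ m := by
    rw [← h]
    exact addOrderOf_dvd_m a
  obtain ⟨u, hu⟩ := exists_unit_of_order hf h
  obtain ⟨k, hk⟩ := ZMod.intCast_surjective (u : ZMod f)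
  refine ⟨k, ?_, ?_⟩
  · exact ((ZMod.coe_int_isUnit_iff_isCoprime k f).1 (hk ▸ u.isUnit)).symm
  · rw [pt_eq_jj hf, hk, hu]

end Pool.Agent.Lib.MP_938ce2_ag_h99v
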