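import Pool.Agent.Lib.MP_938ce2_ag_h99v.Set2

/-!
Functions of integers placed at one order: definitions.
-/

set_option autoImplicit false
set_option linter.style.haveILetI false
set_option linter.unusedSectionVars false

open Finset

namespace Pool.Agent.Lib.MP_938ce2_ag_h99v

open Pool.Agent.Lib.MP_938ce2_ag_h99 Pool.Agent.Lib.MP_938ce2_ag_h6
open Pool.Agent.Lib.MP_938ce2_ag_h99t

variable {m : ℕ} [NeZero m]

/-- the element `k / f` -/
def pt (m f : ℕ) (k : ℤ) : ZMod m := ((((m / f : ℕ) : ℤ) * k : ℤ) : ZMod m)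

open Classical in
/-- the function `A` placed at the elements of order `f` -/
noncomputable def pl (m f : ℕ) [NeZero m] (A : ℤ → ℤ) : ZMod m → ℤ := fun a =>
  if addOrderOf a = f then A ((a.val / (m / f) : ℕ) : ℤ) else 0

/-- periodicity -/
def Per (f : ℕ) (A : ℤ → ℤ) : Prop := ∀ a b : ℤ, (f : ℤ) ∣ a - b → A a = A b

/-- oddness at the integers prime to `f` -/
def OddA (f : ℕ) (A : ℤ → ℤ) : Prop := ∀ k : ℤ, IsCoprime k (f : ℤ) → A (-k) = - A k

end Pool.Agent.Lib.MP_938ce2_ag_h99v
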