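import Pool.Agent.Lib.MP_938ce2_ag_h99v.RD

/-!
Constant sums at three times a prime.
-/

set_option autoImplicit false
set_option linter.style.haveILetI false
set_option linter.unusedSectionVars false

open Finset

namespace Pool.Agent.Lib.MP_938ce2_ag_h99v

open Pool.Agent.Lib.MP_938ce2_ag_h99 Pool.Agent.Lib.MP_938ce2_ag_h6
open Pool.Agent.Lib.MP_938ce2_ag_h99t

variable {m : ℕ} [NeZero m]

private lemma r01_mem {f q : ℕ} {k : ℤ} (h : (f : ℤ) ∣ (k - 1) * q) :
    ((k : ℤ) : ZMod f) * (q : ZMod f) = q := by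
  rw [← ZMod.intCast_zmod_eq_zero_iff_dvd] at h
  push_cast at h
  rw [sub_mul, one_mul, sub_eq_zero] at h
  exact h

/-- `MD_top` (h99/Level.lean or Fourier.lean, used in h99/MainA.lean) at level `3 q` with
`ps = [3, q]`: `E u - E (z u) - E (w u) + E (z w u) = 0` for `z` in `Kp f 3` (take `z = -1` modulo
`3`) and `w` in `Kp f q`; with oddness, `E (x) + E (-x)` does not depend on `x = 1` modulo `3`. -/
lemma cst_of {q : ℕ} (hq : q.Prime) (hq3 : 3 < q) (hm : 3 * q ∣ m) {E : ZMod m → ℤ}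
    (ho : OddF E) (hT : TateF E) (hs : ∀ a, E a ≠ 0 → addOrderOf a ≤ 3 * q) {k : ℤ}
    (hk1 : (3 : ℤ) ∣ k - 1) (hk2 : (q : ℤ) ∣ k + 1) :
    Cst E q (E (pt m (3 * q) 1) + E (pt m (3 * q) k)) := by
  intro x y hx hy hxy hqx
  haveI : NeZero (3 * q) := ⟨by positivity⟩
  have hall : ∀ p, p.Prime → p ∣ 3 * q → p ∈ [3, q] := by
    intro p hp hpd
    rcases (Nat.Prime.dvd_mul hp).mp hpd with h | h
    · rw [(Nat.prime_dvd_prime_iff_eq hp Nat.prime_three).mp h]
      simp
    · rw [(Nat.prime_dvd_prime_iff_eq hp hq).mp h]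
      simp
  have hMD := MD_top hm E ho hT (sup_of_le hs) [3, q] hall
  have c3 : ∀ {j : ℤ}, (3 : ℤ) ∣ j - 1 → IsCoprime j 3 := by
    rintro j ⟨s, hs⟩
    exact ⟨1, -s, by linear_combination hs⟩
  have hqp : _root_.Prime (q : ℤ) := Nat.prime_iff_prime_int.mp hq
  have cx : IsCoprime x (q : ℤ) := ((Prime.coprime_iff_not_dvd hqp).mpr hqx).symm
  have ck : IsCoprime k (q : ℤ) := by
    obtain ⟨s, hs⟩ := hk2
    exact ⟨-1, s, by linear_combination -hs⟩
  have hux : IsUnit ((x : ℤ) : ZMod (3 * q)) := by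
    rw [ZMod.coe_int_isUnit_iff_isCoprime]
    push_cast
    exact ((c3 hx).mul_right cx).symm
  have huk : IsUnit ((-k : ℤ) : ZMod (3 * q)) := by
    rw [ZMod.coe_int_isUnit_iff_isCoprime]
    push_cast
    exact ((c3 hk1).mul_right ck).symm.neg_right
  obtain ⟨w, hw⟩ := hux
  obtain ⟨z, hz⟩ := huk
  have hwK : w ∈ Kp (3 * q) q := by
    rw [mem_Kp, hw]
    apply r01_mem
    push_cast
    exact mul_dvd_mul_right hx _
  have hzK : z ∈ Kp (3 * q) 3 := by
    rw [mem_Kp, hz]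
    apply r01_mem
    push_cast
    rw [mul_comm (-k - 1)]
    apply mul_dvd_mul_left
    have : -k - 1 = -(k + 1) := by ring
    rw [this]
    exact (dvd_neg).mpr hk2
  have h1 := hMD 1 z hzK w hwK
  rw [List.map_nil] at h1
  simp only [MDat, mul_one, Units.val_mul, Units.val_one] at h1
  have e1 : jj hm (1 : ZMod (3 * q)) = pt m (3 * q) 1 := by
    rw [pt_eq_jj hm, Int.cast_one]
  have e2 : jj hm (z : ZMod (3 * q)) = - pt m (3 * q) k := by
    rw [hz, ← pt_eq_jj hm, pt_neg]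
  have e3 : jj hm (w : ZMod (3 * q)) = pt m (3 * q) x := by
    rw [hw, ← pt_eq_jj hm]
  have e4 : jj hm ((z : ZMod (3 * q)) * (w : ZMod (3 * q))) = - pt m (3 * q) y := by
    rw [hz, hw, ← Int.cast_mul, ← pt_eq_jj hm, ← pt_neg]
    apply pt_congr hm
    have hc : IsCoprime (3 : ℤ) (q : ℤ) := by
      have h3q : Nat.Coprime 3 q := (Nat.coprime_primes Nat.prime_three hq).mpr (by omega)
      exact_mod_cast Nat.isCoprime_iff_coprime.mpr h3q
    push_cast
    apply hc.mul_dvd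
    · have : -k * x - -y = (y - 1) - (k - 1) * x - (x - 1) := by ring
      rw [this]
      exact dvd_sub (dvd_sub hy (Dvd.dvd.mul_right hk1 x)) hx
    · have : -k * x - -y = (x + y) - (k + 1) * x := by ring
      rw [this]
      exact dvd_sub hxy (Dvd.dvd.mul_right hk2 x)
  rw [e1, e2, e3, e4, ho, ho] at h1
  linarith

end Pool.Agent.Lib.MP_938ce2_ag_h99v
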