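import Pool.Agent.Lib.MP_938ce2_ag_h99v.LD
import Pool.Agent.Lib.MP_938ce2_ag_h99v.P02
import Pool.Agent.Lib.MP_938ce2_ag_h99t.RefTheta

/-!
Reference functions at three times a prime: definition.
-/

set_option autoImplicit false
set_option linter.style.haveILetI false
set_option linter.unusedSectionVars false

open Finset

namespace Pool.Agent.Lib.MP_938ce2_ag_h99v

open Pool.Agent.Lib.MP_938ce2_ag_h99 Pool.Agent.Lib.MP_938ce2_ag_h6
open Pool.Agent.Lib.MP_938ce2_ag_h99t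

variable {m : ℕ} [NeZero m]

/-- the sums of the values at `x / (3 q)` and `y / (3 q)`, `x = y = 1` modulo `3`, `x + y = 0` modulo
`q`, are equal to `c` -/
def Cst (A : ZMod m → ℤ) (q : ℕ) (c : ℤ) : Prop :=
  ∀ x y : ℤ, (3 : ℤ) ∣ x - 1 → (3 : ℤ) ∣ y - 1 → (q : ℤ) ∣ x + y → ¬ (q : ℤ) ∣ x →
    A (pt m (3 * q) x) + A (pt m (3 * q) y) = c

end Pool.Agent.Lib.MP_938ce2_ag_h99v
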