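import Pool.Agent.Lib.MP_938ce2_ag_h99v.Theta1

/-!
The sets of units with prescribed signs, for arbitrary sets of primes.
-/

set_option autoImplicit false
set_option linter.style.haveILetI false
set_option linter.unusedSectionVars false

open Finset

namespace Pool.Agent.Lib.MP_938ce2_ag_h99v

open Pool.Agent.Lib.MP_938ce2_ag_h99 Pool.Agent.Lib.MP_938ce2_ag_h6
open Pool.Agent.Lib.MP_938ce2_ag_h99t

variable {m : ℕ} [NeZero m]

lemma ch_val_unit {J : Finset ℕ} (hJ : PJ J) (hm : fJ J ∣ m) (t : (ZMod m)ˣ) {q : ℕ}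
    (hq : q ∈ J) : ch q ((t : ZMod m).val : ℤ) = sg t q := by
  have h1 : ch q ((t : ZMod m).val : ℤ) = 1 ∨ ch q ((t : ZMod m).val : ℤ) = -1 := by
    apply ch_sign_of_coprime hJ _ hq
    exact Nat.Coprime.coprime_dvd_right hm (ZMod.val_coe_unit_coprime t)
  unfold sg
  rcases h1 with h1 | h1
  · rw [if_pos h1, h1]
    rfl
  · rw [if_neg (by rw [h1]; norm_num), h1]
    rfl

lemma mul_mem_BE {J : Finset ℕ} (hJ : PJ J) (hm : fJ J ∣ m) {ε : ℕ → ℤˣ} (t : (ZMod m)ˣ)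
    {x : ZMod m} (hx : x ∈ BE m J ε) : (t : ZMod m) * x ∈ BE m J (fun q => sg t q * ε q) := by
  obtain ⟨k, hk, h1, h2⟩ := exists_of_mem_BE hm hx
  have h3 : (t : ZMod m) * x = ((m / fJ J * ((t : ZMod m).val * k) : ℕ) : ZMod m) := by
    rw [h1]
    conv_lhs => rw [← ZMod.natCast_zmod_val (t : ZMod m)]
    push_cast
    ring
  rw [h3, mem_BE_iff hm]
  intro q hq
  push_cast
  rw [ch_mul, ch_val_unit hJ hm t hq, h2 q hq]

lemma sg_inv {J : Finset ℕ} (hJ : PJ J) (hm : fJ J ∣ m) (t : (ZMod m)ˣ) {q : ℕ} (hq : q ∈ J) :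
    sg t⁻¹ q * sg t q = 1 := by
  have h1 : (sg t⁻¹ q : ℤ) * (sg t q : ℤ) = 1 := by
    rw [← ch_val_unit hJ hm t hq, ← ch_val_unit hJ hm t⁻¹ hq, ← ch_mul]
    have h2 : ch q (((t⁻¹ : (ZMod m)ˣ) : ZMod m).val * (t : ZMod m).val : ℤ) = ch q 1 := by
      apply ch_congr
      have h3 : ((m : ℕ) : ℤ) ∣ (((t⁻¹ : (ZMod m)ˣ) : ZMod m).val * (t : ZMod m).val : ℤ) - 1 := by
        rw [← ZMod.intCast_zmod_eq_zero_iff_dvd]
        push_cast
        rw [ZMod.natCast_zmod_val, ZMod.natCast_zmod_val, Units.inv_mul, sub_self]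
      exact (Int.natCast_dvd_natCast.mpr ((ep_dvd_fJ hq).trans hm)).trans h3
    rw [h2]
    unfold ch
    split_ifs
    · simp
    · exact jacobiSym.one_left q
  rw [← Units.val_mul] at h1
  exact Units.val_eq_one.mp h1

lemma zero_notMem_BE {J : Finset ℕ} (hJ : PJ J) (hne : J.Nonempty) (hm : fJ J ∣ m)
    {ε : ℕ → ℤˣ} : (0 : ZMod m) ∉ BE m J ε := by
  intro h
  obtain ⟨q, hq⟩ := hne
  have h1 : (0 : ZMod m) = ((m / fJ J * 0 : ℕ) : ZMod m) := by simp
  rw [h1, mem_BE_iff hm] at h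
  have h2 := h q hq
  rw [ch_zero (hJ q hq) (dvd_zero q)] at h2
  rcases Int.units_eq_one_or (ε q) with h3 | h3 <;> rw [h3] at h2 <;> norm_num at h2

/-- the Tate sum of `BJ` -/
theorem sum_BJ {J : Finset ℕ} (hJ : PJ J) (hne : J.Nonempty) (hm : fJ J ∣ m) (t : (ZMod m)ˣ) :
    ((∑ a, oddPart (BJ m J) a * (((t : ZMod m) * a).val : ℤ) : ℤ) : ℚ) = 2 * m * Sf J (sg t) := by
  rw [sum_oddPart_mul (BJ m J) fun a => (((t : ZMod m) * a).val : ℤ), BJ_eq]
  show ((∑ a ∈ BE m J 1, ((((t : ZMod m) * a).val : ℤ) - (((t : ZMod m) * -a).val : ℤ)) : ℤ) : ℚ) = _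
  have h1 : ∀ a ∈ BE m J 1, ((((((t : ZMod m) * a).val : ℤ) - (((t : ZMod m) * -a).val : ℤ)) : ℤ) : ℚ)
      = 2 * m * ((((t : ZMod m) * a).val : ℚ) / m - 1 / 2) := by
    intro a ha
    have ha0 : a ≠ 0 := fun h => zero_notMem_BE hJ hne hm (h ▸ ha)
    have hta : (t : ZMod m) * a ≠ 0 := by
      intro h
      apply ha0
      have := congrArg (fun z => ((t⁻¹ : (ZMod m)ˣ) : ZMod m) * z) h
      simpa using this
    rw [mul_neg, neg_val_sum _ hta, Nat.cast_sub (ZMod.val_lt _).le]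
    have hm0 : (m : ℚ) ≠ 0 := by
      have := NeZero.ne m
      positivity
    push_cast
    field_simp
    ring
  rw [Int.cast_sum, sum_congr rfl h1, ← mul_sum, ← sum_BE hm (sg t)]
  congr 1
  refine sum_nbij' (fun a => (t : ZMod m) * a) (fun a => ((t⁻¹ : (ZMod m)ˣ) : ZMod m) * a)
    ?_ ?_ ?_ ?_ ?_
  · intro a ha
    have h2 := mul_mem_BE hJ hm t ha
    rwa [BE_congr (ε' := sg t) (fun q _ => by simp)] at h2
  · intro a ha
    have h2 := mul_mem_BE hJ hm t⁻¹ ha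
    rwa [BE_congr (ε' := 1) (fun q hq => sg_inv hJ hm t hq)] at h2
  · intro a _
    show ((t⁻¹ : (ZMod m)ˣ) : ZMod m) * ((t : ZMod m) * a) = a
    rw [← mul_assoc, Units.inv_mul, one_mul]
  · intro a _
    show (t : ZMod m) * (((t⁻¹ : (ZMod m)ˣ) : ZMod m) * a) = a
    rw [← mul_assoc, Units.mul_inv, one_mul]
  · intro a _
    rfl

/-- the support of `BJ` -/
theorem BJ_supp {J : Finset ℕ} (hJ : PJ J) (hm : fJ J ∣ m) {a : ZMod m}
    (ha : oddPart (BJ m J) a ≠ 0) : addOrderOf a = fJ J := by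
  have key : ∀ b : ZMod m, b ∈ BE m J 1 → addOrderOf b = fJ J := by
    intro b hb
    obtain ⟨k, hk, h1, h2⟩ := exists_of_mem_BE hm hb
    have h3 : Nat.Coprime k (fJ J) := by
      by_contra h3
      exact not_all hJ 1 h3 h2
    rw [h1, ← jj_natCast hm]
    exact addOrderOf_unit hm (ZMod.unitOfCoprime k h3)
  unfold oddPart at ha
  rw [BJ_eq] at ha
  by_cases h1 : a ∈ BE m J 1
  · exact key a h1
  · by_cases h2 : -a ∈ BE m J 1
    · rw [← addOrderOf_neg]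
      exact key _ h2
    · exfalso
      apply ha
      rw [Multiset.count_eq_zero.mpr (show a ∉ (BE m J 1).val from h1),
        Multiset.count_eq_zero.mpr (show -a ∉ (BE m J 1).val from h2)]
      simp

lemma fJ_ne {J T : Finset ℕ} (hT : PJ T) (hJT : J ⊆ T) (hne : J ≠ T) : fJ J ≠ fJ T := by
  have h1 : fJ T = fJ (T \ J) * fJ J := (prod_sdiff hJT).symm
  have h2 : (T \ J).Nonempty := by
    rw [sdiff_nonempty]
    intro h
    exact hne (hJT.antisymm h)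
  have h3 := two_lt_fJ (hT.mono sdiff_subset) h2
  have h4 := fJ_pos (hT.mono hJT)
  rw [h1]
  nlinarith


end Pool.Agent.Lib.MP_938ce2_ag_h99v
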