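import Pool.Agent.Lib.MP_938ce2_ag_h99v.Set1

/-!
Combinations of the sets with prescribed signs.
-/

set_option autoImplicit false
set_option linter.style.haveILetI false
set_option linter.unusedSectionVars false

open Finset

namespace Pool.Agent.Lib.MP_938ce2_ag_h99v

open Pool.Agent.Lib.MP_938ce2_ag_h99 Pool.Agent.Lib.MP_938ce2_ag_h6
open Pool.Agent.Lib.MP_938ce2_ag_h99t

variable {m : ℕ} [NeZero m]

/-- invariance of `BJ` under the units with all signs equal to one -/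
lemma BJ_inv {J T : Finset ℕ} (hT : PJ T) (hJT : J ⊆ T) (hm : fJ T ∣ m) {z : (ZMod m)ˣ}
    (hz : ∀ q ∈ T, ch q ((z : ZMod m).val : ℤ) = 1) (a : ZMod m) :
    oddPart (BJ m J) ((z : ZMod m) * a) = oddPart (BJ m J) a := by
  have hJ := hT.mono hJT
  have hJm := (fJ_dvd hJT).trans hm
  have hsg : ∀ q ∈ J, sg z q = 1 := by
    intro q hq
    unfold sg
    rw [if_pos (hz q (hJT hq))]
  have hsg' : ∀ q ∈ J, sg z⁻¹ q = 1 := by
    intro q hq
    have h1 := sg_inv hJ hJm z hq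
    rwa [hsg q hq, mul_one] at h1
  have key : ∀ b : ZMod m, (z : ZMod m) * b ∈ BE m J 1 ↔ b ∈ BE m J 1 := by
    intro b
    constructor
    · intro h
      have h1 := mul_mem_BE hJ hJm z⁻¹ h
      rw [← mul_assoc, Units.inv_mul, one_mul] at h1
      rwa [BE_congr (ε' := 1) (fun q hq => by rw [hsg' q hq, one_mul])] at h1
    · intro h
      have h1 := mul_mem_BE hJ hJm z h
      rwa [BE_congr (ε' := 1) (fun q hq => by rw [hsg q hq, one_mul])] at h1
  classical
  have hc : ∀ b : ZMod m, (BJ m J).count ((z : ZMod m) * b) = (BJ m J).count b := by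
    intro b
    rw [BJ_eq, Multiset.count_eq_of_nodup (BE m J 1).nodup,
      Multiset.count_eq_of_nodup (BE m J 1).nodup]
    exact if_congr (key b) rfl rfl
  unfold oddPart
  rw [← mul_neg, hc, hc]

/-- realization of the functions on signs -/
lemma exists_E1 {T : Finset ℕ} (hT : PJ T) (hm : fJ T ∣ m) {S : Finset ℕ → Prop}
    (hS : ∀ J, S J → J ⊆ T ∧ cI J (-1) = -1) {g : (ℕ → ℤˣ) → ℚ}
    (hg : g ∈ AddSubgroup.closure {g : (ℕ → ℤˣ) → ℚ | ∃ J, S J ∧ g = Sf J}) :
    ∃ E ∈ thetaSub1 m, OddF E ∧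
      (∀ t : (ZMod m)ˣ, ((∑ a, E a * (((t : ZMod m) * a).val : ℤ) : ℤ) : ℚ) = 2 * m * g (sg t)) ∧
      (∀ a, E a ≠ 0 → ∃ J, S J ∧ addOrderOf a = fJ J) ∧
      ∀ z : (ZMod m)ˣ, (∀ q ∈ T, ch q ((z : ZMod m).val : ℤ) = 1) →
        ∀ a, E ((z : ZMod m) * a) = E a := by
  induction hg using AddSubgroup.closure_induction with
  | mem g hg =>
    obtain ⟨J, hSJ, rfl⟩ := hg
    obtain ⟨hJT, hodd⟩ := hS J hSJ
    have hJ := hT.mono hJT
    have hJm := (fJ_dvd hJT).trans hm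
    exact ⟨oddPart (BJ m J), oddPart_BJ_mem1 hJ hJm, oddPart_odd _,
      fun t => sum_BJ hJ (nonempty_of_odd hodd) hJm t,
      fun a ha => ⟨J, hSJ, BJ_supp hJ hJm ha⟩, fun z hz a => BJ_inv hT hJT hm hz a⟩
  | zero =>
    exact ⟨0, (thetaSub1 m).zero_mem, fun a => by simp, fun t => by simp,
      fun a ha => absurd rfl ha, fun z _ a => rfl⟩
  | add g1 g2 _ _ h1 h2 =>
    obtain ⟨E1, a1, a2, a3, a4, a5⟩ := h1
    obtain ⟨E2, b1, b2, b3, b4, b5⟩ := h2
    refine ⟨E1 + E2, (thetaSub1 m).add_mem a1 b1, ?_, ?_, ?_, ?_⟩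
    · intro a
      rw [Pi.add_apply, Pi.add_apply, a2, b2]
      ring
    · intro t
      simp only [Pi.add_apply, add_mul, sum_add_distrib]
      rw [Int.cast_add, a3, b3]
      ring
    · intro a ha
      by_cases h : E1 a = 0
      · apply b4
        rwa [Pi.add_apply, h, zero_add] at ha
      · exact a4 a h
    · intro z hz a
      rw [Pi.add_apply, Pi.add_apply, a5 z hz, b5 z hz]
  | neg g _ h =>
    obtain ⟨E1, a1, a2, a3, a4, a5⟩ := h
    refine ⟨-E1, (thetaSub1 m).neg_mem a1, ?_, ?_, ?_, ?_⟩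
    · intro a
      rw [Pi.neg_apply, Pi.neg_apply, a2]
    · intro t
      simp only [Pi.neg_apply, neg_mul, sum_neg_distrib]
      rw [Int.cast_neg, a3]
      ring
    · intro a ha
      apply a4
      rwa [Pi.neg_apply, neg_ne_zero] at ha
    · intro z hz a
      rw [Pi.neg_apply, Pi.neg_apply, a5 z hz]

end Pool.Agent.Lib.MP_938ce2_ag_h99v
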