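import Pool.Agent.Lib.MP_938ce2_ag_h99v.Ch1

/-!
The sum for a set of primes is an integral combination of those of its subsets with an odd product
character.
-/

set_option autoImplicit false
set_option linter.unusedSectionVars false
set_option linter.style.haveILetI false

open Finset

namespace Pool.Agent.Lib.MP_938ce2_ag_h99v

open Pool.Agent.Lib.MP_938ce2_ag_h99 Pool.Agent.Lib.MP_938ce2_ag_h99t

lemma not_all {J : Finset ℕ} (hJ : PJ J) (ε : ℕ → ℤˣ) {k : ℕ} (hk : ¬ Nat.Coprime k (fJ J)) :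
    ¬ ∀ q ∈ J, ch q k = ε q := by
  intro h
  apply hk
  rw [coprime_fJ_iff hJ]
  intro p hp hpk
  have h1 := h p hp
  rw [ch_zero (hJ p hp) hpk] at h1
  rcases Int.units_eq_one_or (ε p) with h2 | h2 <;> rw [h2] at h1 <;> norm_num at h1

lemma two_pow_Sf {J : Finset ℕ} (hJ : PJ J) (ε : ℕ → ℤˣ) :
    (2 : ℚ) ^ J.card * Sf J ε = ∑ I ∈ J.powerset, ((∏ q ∈ I, (ε q : ℤ) : ℤ) : ℚ) * C 1 J I := by
  unfold Sf C
  simp only [mul_sum]
  rw [sum_comm, sum_filter, one_mul]
  refine sum_congr rfl fun k _ => ?_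
  by_cases hk : Nat.Coprime k (fJ J)
  · have h1 := prod_one_add_eq (J := J) ε (k := (k : ℤ)) fun q hq => ch_sign_of_coprime hJ hk hq
    rw [prod_one_add] at h1
    have h2 : ∑ I ∈ J.powerset, ((∏ q ∈ I, (ε q : ℤ) : ℤ) : ℚ) *
        (if Nat.Coprime k (fJ J) then (cI I k : ℚ) * ((k : ℚ) / (fJ J : ℕ) - 1 / 2) else 0)
        = ((∑ I ∈ J.powerset, ∏ q ∈ I, (ε q : ℤ) * ch q k : ℤ) : ℚ)
          * ((k : ℚ) / (fJ J : ℕ) - 1 / 2) := by
      rw [Int.cast_sum, sum_mul]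
      refine sum_congr rfl fun I _ => ?_
      rw [if_pos hk, prod_mul_distrib, Int.cast_mul, mul_assoc]
      rfl
    rw [h2, h1]
    split_ifs with h3
    · push_cast
      rfl
    · simp
  · rw [if_neg (not_all hJ ε hk)]
    symm
    apply sum_eq_zero
    intro I _
    rw [if_neg hk, mul_zero]

lemma prod_sub_eq {J I : Finset ℕ} (hJ : PJ J) (hIJ : I ⊆ J) :
    ∏ p ∈ J \ I, (1 - (cI I p : ℚ)) = 2 ^ (J \ I).card * (dd J I : ℚ) := by
  unfold dd
  rw [← prod_const, Int.cast_prod, ← prod_mul_distrib]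
  refine prod_congr rfl fun p hp => ?_
  have hp' := mem_sdiff.mp hp
  have h1 : cI I p = 1 ∨ cI I p = -1 := by
    apply cI_sign
    intro q hq
    apply ch_sign (hJ q (hIJ hq))
    intro h2
    have h3 := (Nat.prime_dvd_prime_iff_eq (hJ q (hIJ hq)) (hJ p hp'.1)).mp
      (Int.natCast_dvd_natCast.mp h2)
    exact hp'.2 (h3 ▸ hq)
  rcases h1 with h1 | h1 <;> rw [h1] <;> norm_num

lemma cI_neg_one {I : Finset ℕ} (hI : PJ I) : cI I (-1) = 1 ∨ cI I (-1) = -1 := by
  apply cI_sign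
  intro q hq
  apply ch_sign (hI q hq)
  intro h
  have h1 := Int.natCast_dvd.mp h
  have h2 := Nat.dvd_one.mp (by simpa using h1)
  exact (hI q hq).one_lt.ne' h2

lemma nonempty_of_odd {I : Finset ℕ} (h : cI I (-1) = -1) : I.Nonempty := by
  by_contra hne
  rw [not_nonempty_iff_eq_empty] at hne
  rw [hne] at h
  unfold cI at h
  norm_num at h

lemma Sf_eq {J : Finset ℕ} (hJ : PJ J) (hne : J.Nonempty) :
    Sf J = ∑ I ∈ J.powerset.filter (fun I => cI I (-1) = -1), dd J I • hh I := by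
  funext ε
  have h1 := two_pow_Sf hJ ε
  have h2 : ∑ I ∈ J.powerset, ((∏ q ∈ I, (ε q : ℤ) : ℤ) : ℚ) * C 1 J I
      = (2 : ℚ) ^ J.card * ∑ I ∈ J.powerset.filter (fun I => cI I (-1) = -1), (dd J I : ℚ) * hh I ε := by
    rw [mul_sum, sum_filter]
    refine sum_congr rfl fun I hI => ?_
    have hIJ := mem_powerset.mp hI
    split_ifs with hodd
    · rw [C_red _ J hJ hIJ rfl, prod_sub_eq hJ hIJ]
      unfold hh
      have h3 : (J \ I).card + I.card = J.card := card_sdiff_add_card_eq_card hIJ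
      rw [← h3, pow_add]
      field_simp
    · rw [C_even hJ hne hIJ ((cI_neg_one (hJ.mono hIJ)).resolve_right hodd), mul_zero]
  rw [h2] at h1
  have h3 : (2 : ℚ) ^ J.card ≠ 0 := by positivity
  have h4 := mul_left_cancel₀ h3 h1
  rw [h4, Finset.sum_apply]
  refine sum_congr rfl fun I _ => ?_
  rw [Pi.smul_apply, zsmul_eq_mul]

lemma hh_mem {T : Finset ℕ} (hT : PJ T) : ∀ (n : ℕ) (I : Finset ℕ), I.card = n → I ⊆ T →
    cI I (-1) = -1 →
    hh I ∈ AddSubgroup.closure {g : (ℕ → ℤˣ) → ℚ | ∃ J, J ⊆ T ∧ cI J (-1) = -1 ∧ g = Sf J} := by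
  intro n
  induction n using Nat.strong_induction_on with
  | _ n ih =>
    intro I hn hIT hodd
    have hne : I.Nonempty := nonempty_of_odd hodd
    have h1 := Sf_eq (hT.mono hIT) hne
    have hmem : I ∈ I.powerset.filter (fun I => cI I (-1) = -1) :=
      mem_filter.mpr ⟨mem_powerset.mpr (Subset.refl I), hodd⟩
    rw [← add_sum_erase _ _ hmem, dd_self, one_smul] at h1
    have h2 : hh I = Sf I - ∑ x ∈ (I.powerset.filter (fun I => cI I (-1) = -1)).erase I, dd I x • hh x := by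
      rw [h1]
      abel
    rw [h2]
    apply AddSubgroup.sub_mem
    · exact AddSubgroup.subset_closure ⟨I, hIT, hodd, rfl⟩
    · apply AddSubgroup.sum_mem
      intro x hx
      obtain ⟨hxI, hx2⟩ := mem_erase.mp hx
      obtain ⟨hx3, hx4⟩ := mem_filter.mp hx2
      have hxs := mem_powerset.mp hx3
      apply AddSubgroup.zsmul_mem
      exact ih x.card (by rw [← hn]; exact card_lt_card (hxs.ssubset_of_ne hxI)) x rfl
        (hxs.trans hIT) hx4

theorem Sf_mem {T : Finset ℕ} (hT : PJ T) (hne : T.Nonempty) :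
    Sf T ∈ AddSubgroup.closure {g : (ℕ → ℤˣ) → ℚ | ∃ J, J ⊆ T ∧ cI J (-1) = -1 ∧ g = Sf J} := by
  rw [Sf_eq hT hne]
  apply AddSubgroup.sum_mem
  intro x hx
  obtain ⟨hx3, hx4⟩ := mem_filter.mp hx
  exact AddSubgroup.zsmul_mem _ (hh_mem hT _ x rfl (mem_powerset.mp hx3) hx4) _

end Pool.Agent.Lib.MP_938ce2_ag_h99v
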