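import Pool.Agent.Lib.MP_938ce2_ag_h99v.T3D
import Pool.Agent.Lib.MP_938ce2_ag_h99v.T01

/-!
Periodicity and oddness of the functions for three primes.
-/

set_option autoImplicit false
set_option linter.style.haveILetI false
set_option linter.unusedSectionVars false

open Finset

namespace Pool.Agent.Lib.MP_938ce2_ag_h99v

open Pool.Agent.Lib.MP_938ce2_ag_h99 Pool.Agent.Lib.MP_938ce2_ag_h6
open Pool.Agent.Lib.MP_938ce2_ag_h99t

private lemma T3_th {f r : ℕ} (h : ep r ∣ f) {a b : ℤ} (hab : (f : ℤ) ∣ a - b) : th r a = th r b :=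
  th_per r a b ((Int.natCast_dvd_natCast.mpr h).trans hab)

private lemma T3_hf {f r : ℕ} (h : ep r ∣ f) {a b : ℤ} (hab : (f : ℤ) ∣ a - b) : hf r a = hf r b :=
  hf_per r a b ((Int.natCast_dvd_natCast.mpr h).trans hab)

private lemma T3_ndvd {r f : ℕ} (hr : r.Prime) (h : r ∣ f) {k : ℤ} (hk : IsCoprime k (f : ℤ)) :
    ¬ (r : ℤ) ∣ k := by
  intro h1
  have h2 := hk.isUnit_of_dvd' h1 (Int.natCast_dvd_natCast.mpr h)
  exact (Nat.prime_iff_prime_int.mp hr).not_isUnit h2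

lemma a3_per {q p : ℕ} (f : ℕ) (h1 : ep q ∣ f) (h2 : ep p ∣ f) : Per f (a3 q p) := by
  intro a b hab
  unfold a3
  rw [T3_th h1 hab, T3_th h2 hab, T3_hf h2 hab]

lemma b3_per {q p : ℕ} (f : ℕ) (h1 : ep q ∣ f) (h2 : ep p ∣ f) : Per f (b3 q p) := by
  intro a b hab
  unfold b3
  rw [T3_th h1 hab, T3_th h2 hab, T3_hf h2 hab]

lemma a3_odd {q p : ℕ} (hq : q.Prime) (hp : p.Prime) (h1 : q = 2 ∨ q % 4 = 3) (hp4 : p % 4 = 1) :
    OddA (ep q * ep p) (a3 q p) := by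
  intro k hk
  have k0 := T3_ndvd hq (p_dvd_ep.trans (Nat.dvd_mul_right _ _)) hk
  have k1 := T3_ndvd hp (p_dvd_ep.trans (Nat.dvd_mul_left _ _)) hk
  unfold a3
  rw [th_neg_three hq h1 k0, th_neg_one hp hp4, hf_neg hp (by omega) k1]
  ring

lemma b3_odd {q p : ℕ} (hq : q.Prime) (hp : p.Prime) (h1 : q = 2 ∨ q % 4 = 3) (hp4 : p % 4 = 1) :
    OddA (ep q * ep p) (b3 q p) := by
  intro k hk
  have k0 := T3_ndvd hq (p_dvd_ep.trans (Nat.dvd_mul_right _ _)) hk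
  have k1 := T3_ndvd hp (p_dvd_ep.trans (Nat.dvd_mul_left _ _)) hk
  unfold b3
  rw [th_neg_three hq h1 k0, th_neg_one hp hp4, hf_neg hp (by omega) k1]
  ring

end Pool.Agent.Lib.MP_938ce2_ag_h99v
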