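import Pool.Agent.Lib.MP_938ce2_ag_h99v.T03
import Pool.Agent.Lib.MP_938ce2_ag_h99v.P03
import Pool.Agent.Lib.MP_938ce2_ag_h99v.P04

/-!
The set with three primes and the two pairs.
-/

set_option autoImplicit false
set_option linter.style.haveILetI false
set_option linter.unusedSectionVars false

open Finset

namespace Pool.Agent.Lib.MP_938ce2_ag_h99v

open Pool.Agent.Lib.MP_938ce2_ag_h99 Pool.Agent.Lib.MP_938ce2_ag_h6
open Pool.Agent.Lib.MP_938ce2_ag_h99t

variable {m : ℕ} [NeZero m]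

private lemma T4_mono {f g : ℕ} (h : f ∣ g) {A : ℤ → ℤ} (hA : Per f A) : Per g A := fun a b hab =>
  hA a b ((Int.natCast_dvd_natCast.mpr h).trans hab)

private lemma T4_sub {f : ℕ} {A B : ℤ → ℤ} (hA : Per f A) (hB : Per f B) :
    Per f (fun k => A k - B k) := by
  intro a b hab
  show A a - B a = A b - B b
  rw [hA a b hab, hB a b hab]

private lemma T4_add {f : ℕ} {A B : ℤ → ℤ} (hA : Per f A) (hB : Per f B) :
    Per f (fun k => A k + B k) := by
  intro a b hab
  show A a + B a = A b + B b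
  rw [hA a b hab, hB a b hab]

private lemma T4_mul {f : ℕ} {A B : ℤ → ℤ} (hA : Per f A) (hB : Per f B) :
    Per f (fun k => A k * B k) := by
  intro a b hab
  show A a * B a = A b * B b
  rw [hA a b hab, hB a b hab]

private lemma T4_dvd (r : ℕ) : r ∣ ep r := by
  unfold ep
  split_ifs with h
  · subst h
    exact ⟨2, rfl⟩
  · exact dvd_rfl

private lemma T4_ndvd {r f : ℕ} (hr : r.Prime) (h : r ∣ f) {k : ℤ} (hk : IsCoprime k (f : ℤ)) :
    ¬ (r : ℤ) ∣ k := by
  intro h1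
  have h2 := hk.isUnit_of_dvd' h1 (Int.natCast_dvd_natCast.mpr h)
  exact (Nat.prime_iff_prime_int.mp hr).not_isUnit h2

private lemma T4_nd1 {r a : ℕ} (hr : r.Prime) (ha : a.Prime) (h : r ≠ a) : ¬ r ∣ ep a := by
  unfold ep
  split_ifs with h2
  · subst h2
    intro h3
    have h4 : r ∣ 2 * 2 := h3
    rcases (Nat.Prime.dvd_mul hr).mp h4 with h5 | h5 <;>
      exact h ((Nat.prime_dvd_prime_iff_eq hr ha).mp h5)
  · exact fun h5 => h ((Nat.prime_dvd_prime_iff_eq hr ha).mp h5)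

private lemma T4_nd2 {r a b : ℕ} (hr : r.Prime) (ha : a.Prime) (hb : b.Prime) (h1 : r ≠ a)
    (h2 : r ≠ b) : ¬ r ∣ ep a * ep b := by
  intro h
  rcases (Nat.Prime.dvd_mul hr).mp h with h | h
  · exact T4_nd1 hr ha h1 h
  · exact T4_nd1 hr hb h2 h

private lemma T4_set {q q0 p : ℕ} (hq : q.Prime) (hq0 : q0.Prime) (hp : p.Prime)
    (h1 : q = 2 ∨ q % 4 = 3) (h2 : q0 = 2 ∨ q0 % 4 = 3) (hp4 : p % 4 = 1) (hne : q ≠ q0)
    (hm : ep q * (ep q0 * ep p) ∣ m) :
    oddPart (BJ m {q, q0, p}) =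
      pl m (ep q * (ep q0 * ep p)) (a3 q p) + pl m (ep q * (ep q0 * ep p)) (b3 q0 p) := by
  have hn2 : q ∉ ({q0, p} : Finset ℕ) := by
    simp only [mem_insert, mem_singleton, not_or]
    exact ⟨hne, by rintro rfl; omega⟩
  have hn3 : q0 ∉ ({p} : Finset ℕ) := by
    rw [mem_singleton]
    rintro rfl
    omega
  have hf : fJ ({q, q0, p} : Finset ℕ) = ep q * (ep q0 * ep p) := by
    unfold fJ
    rw [prod_insert hn2, prod_insert hn3, prod_singleton]
  have hJ : PJ ({q, q0, p} : Finset ℕ) := by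
    intro r hr
    simp only [mem_insert, mem_singleton] at hr
    rcases hr with rfl | rfl | rfl <;> assumption
  have d0 : ep q ∣ ep q * (ep q0 * ep p) := ⟨ep q0 * ep p, by ring⟩
  have d2 : ep q0 ∣ ep q * (ep q0 * ep p) := ⟨ep q * ep p, by ring⟩
  have d3 : ep p ∣ ep q * (ep q0 * ep p) := ⟨ep q * ep q0, by ring⟩
  have hfun : (fun k => (if ∀ r ∈ ({q, q0, p} : Finset ℕ), ch r k = 1 then (1 : ℤ) else 0)
      - (if ∀ r ∈ ({q, q0, p} : Finset ℕ), ch r (-k) = 1 then 1 else 0)) =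
      fun k => th q k * (th q0 k * th p k) -
        th q (-k) * (th q0 (-k) * th p (-k)) := by
    have key : ∀ k : ℤ, (if ∀ r ∈ ({q, q0, p} : Finset ℕ), ch r k = 1 then (1 : ℤ) else 0) =
        th q k * (th q0 k * th p k) := by
      intro k
      simp only [forall_mem_insert, mem_singleton, forall_eq]
      unfold th
      by_cases c0 : ch q k = 1 <;> by_cases c2 : ch q0 k = 1 <;>
        by_cases c3 : ch p k = 1 <;> simp [c0, c2, c3]
    funext k
    rw [key, key]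
  rw [BJ_pl hJ ⟨q, by simp⟩ (by rw [hf]; exact hm), hf, hfun, ← pl_add]
  generalize hF : ep q * (ep q0 * ep p) = F at d0 d2 d3 hm ⊢
  have hneg : ∀ {r : ℕ}, ep r ∣ F →
      Per F (th r) ∧ Per F (fun k => th r (-k)) := by
    intro r hr
    have h3 : Per F (th r) := T4_mono hr (th_per r)
    refine ⟨h3, fun a b hab => ?_⟩
    apply h3
    have h4 : -a - -b = -(a - b) := by ring
    rw [h4]
    exact (dvd_neg).mpr hab
  have a0 := hneg d0
  have a2 := hneg d2
  have a3' := hneg d3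
  refine pl_congr hm (T4_sub (T4_mul a0.1 (T4_mul a2.1 a3'.1))
    (T4_mul a0.2 (T4_mul a2.2 a3'.2))) (T4_add (a3_per _ d0 d3) (b3_per _ d2 d3)) ?_
  intro k hk
  have k0 := T4_ndvd hq ((T4_dvd q).trans d0) hk
  have k1 := T4_ndvd hq0 ((T4_dvd q0).trans d2) hk
  show th q k * (th q0 k * th p k) -
        th q (-k) * (th q0 (-k) * th p (-k)) = a3 q p k + b3 q0 p k
  rw [th_neg_three hq h1 k0, th_neg_three hq0 h2 k1, th_neg_one hp hp4]
  unfold a3 b3
  ring

/-- Up to relations the set `BJ m {q, q0, p}` is the sum of two functions with two primes. By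
`BJ_pl` and `pl_congr` it is `pl m (fJ T) (a3 q p) + pl m (fJ T) (b3 q0 p)`; then `peel_pl` at `q0`
and at `q`. -/
theorem three_peel {q q0 p : ℕ} (hq : q.Prime) (hq0 : q0.Prime) (hp : p.Prime)
    (h1 : q = 2 ∨ q % 4 = 3) (h2 : q0 = 2 ∨ q0 % 4 = 3) (hp4 : p % 4 = 1) (hne : q ≠ q0)
    (hm : ep q * (ep q0 * ep p) ∣ m) :
    oddPart (BJ m {q, q0, p}) - (pl m (ep q * ep p) (fun k => a3 q p k - a3 q p (q0 * k))
      + pl m (ep q0 * ep p) (fun k => b3 q0 p k - b3 q0 p (q * k))) ∈ relSub m := by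
  have nqp : q ≠ p := by rintro rfl; omega
  have nq0p : q0 ≠ p := by rintro rfl; omega
  have r1 := peel_pl (m := m) (f' := ep q * ep p) hq0 (T4_nd2 hq0 hq hp hne.symm nq0p)
    (by rw [show ep q0 * (ep q * ep p) = ep q * (ep q0 * ep p) by ring]; exact hm)
    (a3_per _ (Nat.dvd_mul_right _ _) (Nat.dvd_mul_left _ _)) (a3_odd hq hp h1 hp4)
  have r2 := peel_pl (m := m) (f' := ep q0 * ep p) hq (T4_nd2 hq hq0 hp hne nqp) hm
    (b3_per _ (Nat.dvd_mul_right _ _) (Nat.dvd_mul_left _ _)) (b3_odd hq0 hp h2 hp4)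
  rw [T4_set hq hq0 hp h1 h2 hp4 hne hm]
  have e1 : ep q0 * (ep q * ep p) = ep q * (ep q0 * ep p) := by ring
  have r3 : pl m (ep q * (ep q0 * ep p)) (a3 q p) -
      pl m (ep q * ep p) (fun k => a3 q p k - a3 q p (q0 * k)) ∈ relSub m := by
    have e2 : pl m (ep q * (ep q0 * ep p)) (a3 q p) = pl m (ep q0 * (ep q * ep p)) (a3 q p) := by
      rw [e1]
    rw [e2]
    exact r1
  have hsum := (relSub m).add_mem r3 r2
  convert hsum using 1
  abel

end Pool.Agent.Lib.MP_938ce2_ag_h99v
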