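import Pool.Agent.Lib.MP_938ce2_ag_h99v.T03

/-!
Parities of the functions for three primes.
-/

set_option autoImplicit false
set_option linter.style.haveILetI false
set_option linter.unusedSectionVars false

open Finset

namespace Pool.Agent.Lib.MP_938ce2_ag_h99v

open Pool.Agent.Lib.MP_938ce2_ag_h99 Pool.Agent.Lib.MP_938ce2_ag_h6
open Pool.Agent.Lib.MP_938ce2_ag_h99t

private lemma vals {q p : ℕ} (hp : p.Prime) (hp4 : p % 4 = 1) {k : ℤ}
    (hk1 : (ep q : ℤ) ∣ k - 1) (hk2 : (ep p : ℤ) ∣ k + 1) {a : ℤ} (ha : ¬ (p : ℤ) ∣ a) :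
    th q (a * k) = th q a ∧ th p (a * k) = th p a ∧ hf p (a * k) = 1 - hf p a := by
  have h1 : (ep q : ℤ) ∣ a * k - a := by
    have : a * k - a = a * (k - 1) := by ring
    rw [this]
    exact Dvd.dvd.mul_left hk1 a
  have h2 : (ep p : ℤ) ∣ a * k - -a := by
    have : a * k - -a = a * (k + 1) := by ring
    rw [this]
    exact Dvd.dvd.mul_left hk2 a
  refine ⟨th_per q _ _ h1, ?_, ?_⟩
  · rw [th_per p _ _ h2, th_neg_one hp hp4]
  · rw [hf_per p _ _ h2, hf_neg hp (by omega) ha]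

private lemma th_one (p : ℕ) : th p 1 = 1 := by
  unfold th ch
  rw [if_pos]
  split_ifs
  · simp
  · exact jacobiSym.one_left p

private lemma one_ndvd {p : ℕ} (hp : p.Prime) : ¬ (p : ℤ) ∣ 1 := by
  intro h
  have h1 : p ∣ 1 := by exact_mod_cast h
  exact hp.one_lt.ne' (Nat.dvd_one.mp h1)

/-- If `k` is `1` modulo `ep q` and `-1` modulo `p`, then `a3 q p 1 + a3 q p k` is `th p 1 = 1`
modulo two, and `a3 q p q0 + a3 q p (q0 k)` is `th p q0`. -/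
lemma a3_par {q q0 p : ℕ} (hq : q.Prime) (hp : p.Prime) (h1 : q = 2 ∨ q % 4 = 3) (hp4 : p % 4 = 1)
    (hq0 : ¬ (p : ℤ) ∣ q0) {k : ℤ} (hk1 : (ep q : ℤ) ∣ k - 1) (hk2 : (ep p : ℤ) ∣ k + 1) :
    (ch p q0 = -1 → Odd ((a3 q p 1 - a3 q p (q0 * 1)) + (a3 q p k - a3 q p (q0 * k)))) ∧
    (ch p q0 = 1 → Even ((a3 q p 1 - a3 q p (q0 * 1)) + (a3 q p k - a3 q p (q0 * k)))) := by
  obtain ⟨v1, v2, v3⟩ := vals (q := q) hp hp4 hk1 hk2 (one_ndvd hp)
  obtain ⟨w1, w2, w3⟩ := vals (q := q) hp hp4 hk1 hk2 hq0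
  rw [one_mul] at v1 v2 v3
  have e1 := th_one q
  have e2 := th_one p
  unfold a3
  rw [mul_one, v1, v2, v3, w1, w2, w3, e1, e2]
  constructor
  · intro h
    have h0 : th p q0 = 0 := by
      unfold th
      rw [h]
      norm_num
    rw [h0]
    exact ⟨0, by ring⟩
  · intro h
    have h0 : th p q0 = 1 := by
      unfold th
      rw [if_pos h]
    rw [h0]
    exact ⟨1 - th q q0, by ring⟩

lemma b3_par {q q0 p : ℕ} (hq : q.Prime) (hp : p.Prime) (h1 : q = 2 ∨ q % 4 = 3) (hp4 : p % 4 = 1)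
    (hq0 : ¬ (p : ℤ) ∣ q0) {k : ℤ} (hk1 : (ep q : ℤ) ∣ k - 1) (hk2 : (ep p : ℤ) ∣ k + 1) :
    (ch p q0 = -1 → Odd ((b3 q p 1 - b3 q p (q0 * 1)) + (b3 q p k - b3 q p (q0 * k)))) ∧
    (ch p q0 = 1 → Even ((b3 q p 1 - b3 q p (q0 * 1)) + (b3 q p k - b3 q p (q0 * k)))) := by
  obtain ⟨v1, v2, v3⟩ := vals (q := q) hp hp4 hk1 hk2 (one_ndvd hp)
  obtain ⟨w1, w2, w3⟩ := vals (q := q) hp hp4 hk1 hk2 hq0
  rw [one_mul] at v1 v2 v3
  have e1 := th_one q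
  have e2 := th_one p
  unfold b3
  rw [mul_one, v1, v2, v3, w1, w2, w3, e1, e2]
  constructor
  · intro h
    have h0 : th p q0 = 0 := by
      unfold th
      rw [h]
      norm_num
    rw [h0]
    exact ⟨0, by ring⟩
  · intro h
    have h0 : th p q0 = 1 := by
      unfold th
      rw [if_pos h]
    rw [h0]
    exact ⟨1 - th q q0, by ring⟩

end Pool.Agent.Lib.MP_938ce2_ag_h99v
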