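import Pool.Agent.Lib.MP_938ce2_ag_h99v.T04
import Pool.Agent.Lib.MP_938ce2_ag_h99v.T05
import Pool.Agent.Lib.MP_938ce2_ag_h99v.T02
import Pool.Agent.Lib.MP_938ce2_ag_h99v.LD

/-!
The explicit function for three primes.
-/

set_option autoImplicit false
set_option linter.style.haveILetI false
set_option linter.unusedSectionVars false

open Finset

namespace Pool.Agent.Lib.MP_938ce2_ag_h99v

open Pool.Agent.Lib.MP_938ce2_ag_h99 Pool.Agent.Lib.MP_938ce2_ag_h6
open Pool.Agent.Lib.MP_938ce2_ag_h99t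

variable {m : ℕ} [NeZero m]

private lemma t06_rel_odd {F : ZMod m → ℤ} (h : F ∈ relSub m) : OddF F := by
  unfold relSub at h
  induction h using AddSubgroup.closure_induction with
  | mem x hx =>
    obtain ⟨p, g, -, -, hg, -, rfl⟩ := hx
    exact hg.rel p
  | zero => intro a; simp
  | add x y _ _ hx hy =>
    intro a
    rw [Pi.add_apply, Pi.add_apply, hx a, hy a]
    ring
  | neg x _ hx =>
    intro a
    rw [Pi.neg_apply, Pi.neg_apply, hx a]

private lemma t06_sub {J : Finset ℕ} {a b c : ℕ} (hJ : J ⊆ {a, b, c}) (hb : b ∉ J) :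
    J ⊆ {a, c} := by
  intro x hx
  have h1 := hJ hx
  simp only [mem_insert, mem_singleton] at h1 ⊢
  rcases h1 with h | h | h
  · exact Or.inl h
  · exact absurd (h ▸ hx) hb
  · exact Or.inr h

/-- the sets with an odd character contain exactly one of `q`, `q0` -/
private lemma t06_class {q q0 p : ℕ} (hq : q.Prime) (hq0 : q0.Prime) (hp : p.Prime)
    (h1 : q = 2 ∨ q % 4 = 3) (h2 : q0 = 2 ∨ q0 % 4 = 3) (hp4 : p % 4 = 1) (hne : q ≠ q0)
    (hqp : q ≠ p) (hq0p : q0 ≠ p) {J : Finset ℕ} (hJ : J ⊆ {q, q0, p}) (hodd : cI J (-1) = -1) :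
    J ⊆ {q, p} ∨ J ⊆ {q0, p} := by
  by_cases c0 : q ∈ J
  · by_cases c1 : q0 ∈ J
    · exfalso
      have hpp : ch p (-1) = 1 := ch_neg_one_four hp hp4
      by_cases c2 : p ∈ J
      · have h3 : J = {q, q0, p} := by
          apply hJ.antisymm
          intro z hz
          simp only [mem_insert, mem_singleton] at hz
          rcases hz with rfl | rfl | rfl <;> assumption
        rw [h3] at hodd
        unfold cI at hodd
        rw [prod_insert (by simp [hne, hqp]), prod_pair hq0p, ch_neg_one hq h1,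
          ch_neg_one hq0 h2, hpp] at hodd
        norm_num at hodd
      · have h3 : J = {q, q0} := by
          apply Subset.antisymm
          · intro z hz
            have := hJ hz
            simp only [mem_insert, mem_singleton] at this ⊢
            rcases this with h | h | h
            · exact Or.inl h
            · exact Or.inr h
            · exact absurd (h ▸ hz) c2
          · intro z hz
            simp only [mem_insert, mem_singleton] at hz
            rcases hz with rfl | rfl <;> assumption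
        rw [h3] at hodd
        unfold cI at hodd
        rw [prod_pair hne, ch_neg_one hq h1, ch_neg_one hq0 h2] at hodd
        norm_num at hodd
    · exact Or.inl (t06_sub hJ c1)
  · right
    intro x hx
    have h3 := hJ hx
    simp only [mem_insert, mem_singleton] at h3 ⊢
    rcases h3 with h | h | h
    · exact absurd (h ▸ hx) c0
    · exact Or.inl h
    · exact Or.inr h

private lemma t06_cop {a b : ℕ} {k : ℤ} (h1 : (a : ℤ) ∣ k - 1) (h2 : (b : ℤ) ∣ k + 1) :
    IsCoprime k ((a * b : ℕ) : ℤ) := by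
  push_cast
  refine IsCoprime.mul_right ?_ ?_
  · obtain ⟨s, hs⟩ := h1
    exact ⟨1, -s, by linear_combination hs⟩
  · obtain ⟨s, hs⟩ := h2
    exact ⟨-1, s, by linear_combination -hs⟩

private lemma t06_per {f : ℕ} {A : ℤ → ℤ} (h : Per f A) (c : ℤ) :
    Per f (fun k => A k - A (c * k)) := by
  intro x y hxy
  have h1 : (f : ℤ) ∣ c * x - c * y := by
    rw [← mul_sub]
    exact hxy.mul_left c
  show A x - A (c * x) = A y - A (c * y)
  rw [h x y hxy, h _ _ h1]

private lemma t06_ndvd {p q : ℕ} (hp : p.Prime) (hq : q.Prime) (h : q ≠ p) : ¬ (p : ℤ) ∣ q := by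
  intro hd
  rw [Int.natCast_dvd_natCast, Nat.prime_dvd_prime_iff_eq hp hq] at hd
  exact h hd.symm

/-- Let `T = {q, q0, p}` and `E0` from `exists_E1` for `g = Sf T` (`Sf_mem`; the sets `J ⊆ T` with
`cI J (-1) = -1` are `{q}, {q0}, {q, p}, {q0, p}`). Then
`F = pl m (ep q * ep p) (a3 q p k - a3 q p (q0 k)) + pl m (ep q0 * ep p) (b3 q0 p k - b3 q0 p (q k))
- E0` works (`three_peel`, `oddPart_BJ_mem1`, `sum_BJ`, `TateF_of_mem_relSub`, `a3_par`, `b3_par`,
`flip_E`, `pl_pt`, `pl_of_ne`). -/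
theorem theta_three {X : AddSubgroup (ZMod m → ℤ)}
    (hX : ∀ F ∈ thetaSub1 m, TateF F → F ∈ X) {q q0 p : ℕ} (hq : q.Prime) (hq0 : q0.Prime)
    (hp : p.Prime) (h1 : q = 2 ∨ q % 4 = 3) (h2 : q0 = 2 ∨ q0 % 4 = 3) (hp4 : p % 4 = 1)
    (hne : q ≠ q0) (hm : ep q * (ep q0 * ep p) ∣ m) (hs0 : ch p q0 = -1) :
    ∃ F : ZMod m → ℤ, InX X F ∧
      (∀ a, F a ≠ 0 → addOrderOf a ∣ ep q * ep p ∨ addOrderOf a ∣ ep q0 * ep p) ∧
      ParO F q p ∧ (ch p q = 1 → ParE F q0 p) ∧ (ch p q = -1 → ParO F q0 p) := by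
  have hqp : q ≠ p := by rintro rfl; omega
  have hq0p : q0 ≠ p := by rintro rfl; omega
  have hT : PJ ({q, q0, p} : Finset ℕ) := by
    intro x hx
    simp only [mem_insert, mem_singleton] at hx
    rcases hx with rfl | rfl | rfl <;> assumption
  have hfT : fJ ({q, q0, p} : Finset ℕ) = ep q * (ep q0 * ep p) := by
    unfold fJ
    rw [prod_insert (by simp [hne, hqp]), prod_pair hq0p]
  have hTm : fJ ({q, q0, p} : Finset ℕ) ∣ m := by rw [hfT]; exact hm
  obtain ⟨E0, hE1, hE2, hE3, hE4, hE5⟩ := exists_E1 hT hTm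
    (S := fun J => J ⊆ {q, q0, p} ∧ cI J (-1) = -1) (fun J hJ => hJ) (g := Sf {q, q0, p}) (by
      have h := Sf_mem hT ⟨q, by simp⟩
      refine AddSubgroup.closure_mono ?_ h
      rintro g ⟨J, a1, a2, a3⟩
      exact ⟨J, ⟨a1, a2⟩, a3⟩)
  set H : ZMod m → ℤ := oddPart (BJ m {q, q0, p}) with hH
  set G : ZMod m → ℤ := pl m (ep q * ep p) (fun k => a3 q p k - a3 q p (q0 * k))
      + pl m (ep q0 * ep p) (fun k => b3 q0 p k - b3 q0 p (q * k)) with hG
  have hHG : H - G ∈ relSub m := three_peel hq hq0 hp h1 h2 hp4 hne hm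
  have hHodd : OddF H := oddPart_odd _
  have hHmem : H ∈ thetaSub1 m := oddPart_BJ_mem1 hT hTm
  have hHE : TateF (H - E0) := by
    intro t
    have a1 := sum_BJ hT ⟨q, by simp⟩ hTm t
    have a3 := hE3 t
    have a4 : ((∑ a, (H - E0) a * (((t : ZMod m) * a).val : ℤ) : ℤ) : ℚ) = 0 := by
      have a5 : (∑ a, (H - E0) a * (((t : ZMod m) * a).val : ℤ) : ℤ)
          = (∑ a, oddPart (BJ m {q, q0, p}) a * (((t : ZMod m) * a).val : ℤ))
            - ∑ a, E0 a * (((t : ZMod m) * a).val : ℤ) := by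
        rw [← sum_sub_distrib]
        refine sum_congr rfl fun a _ => ?_
        rw [hH, Pi.sub_apply]
        ring
      rw [a5]
      rw [Int.cast_sub, a1, a3]
      ring
    exact_mod_cast a4
  have hXm : H - E0 ∈ X := hX _ (AddSubgroup.sub_mem _ hHmem hE1) hHE
  have hFeq : G - E0 = (H - E0) - (H - G) := by abel
  have hEsupp : ∀ a, E0 a ≠ 0 → addOrderOf a ∣ ep q * ep p ∨ addOrderOf a ∣ ep q0 * ep p := by
    intro a ha
    obtain ⟨J, ⟨b1, b2⟩, b4⟩ := hE4 a ha
    rw [b4]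
    rcases t06_class hq hq0 hp h1 h2 hp4 hne hqp hq0p b1 b2 with b3 | b3
    · left
      have c1 := fJ_dvd b3
      have c2 : fJ ({q, p} : Finset ℕ) = ep q * ep p := by
        unfold fJ
        rw [prod_pair hqp]
      rwa [c2] at c1
    · right
      have c1 := fJ_dvd b3
      have c2 : fJ ({q0, p} : Finset ℕ) = ep q0 * ep p := by
        unfold fJ
        rw [prod_pair hq0p]
      rwa [c2] at c1
  have hm1 : ep q * ep p ∣ m := by
    refine Dvd.dvd.trans ⟨ep q0, by ring⟩ hm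
  have hm2 : ep q0 * ep p ∣ m := by
    refine Dvd.dvd.trans ⟨ep q, by ring⟩ hm
  have hepp : 0 < ep p := by
    unfold ep
    split_ifs
    · norm_num
    · exact hp.pos
  have m1 : ep q * ep p ≠ ep q0 * ep p := by
    intro h
    have h3 : ep q = ep q0 := Nat.eq_of_mul_eq_mul_right hepp h
    unfold ep at h3
    split_ifs at h3 with c1 c2 c2
    · exact hne (c1.trans c2.symm)
    · rcases h2 with h2 | h2
      · exact c2 h2
      · omega
    · rcases h1 with h1 | h1
      · exact c1 h1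
      · omega
    · exact hne h3
  have hGapp : ∀ a, G a = pl m (ep q * ep p) (fun k => a3 q p k - a3 q p (q0 * k)) a
      + pl m (ep q0 * ep p) (fun k => b3 q0 p k - b3 q0 p (q * k)) a := fun a => rfl
  have hG0 : ∀ a, addOrderOf a ≠ ep q * ep p → addOrderOf a ≠ ep q0 * ep p → G a = 0 := by
    intro a c1 c2
    rw [hGapp, pl_of_ne c1, pl_of_ne c2]
    norm_num
  have hG1 : ∀ k : ℤ, IsCoprime k ((ep q * ep p : ℕ) : ℤ) → G (pt m (ep q * ep p) k) =
      a3 q p k - a3 q p (q0 * k) := by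
    intro k hk
    have c1 := addOrderOf_pt hm1 hk
    rw [hGapp, pl_of_ne (f := ep q0 * ep p) (by rw [c1]; exact m1),
      pl_pt hm1 (t06_per (a3_per _ (Dvd.intro _ rfl) (Dvd.intro_left _ rfl)) _) hk]
    ring
  have hG2 : ∀ k : ℤ, IsCoprime k ((ep q0 * ep p : ℕ) : ℤ) → G (pt m (ep q0 * ep p) k) =
      b3 q0 p k - b3 q0 p (q * k) := by
    intro k hk
    have c1 := addOrderOf_pt hm2 hk
    rw [hGapp, pl_of_ne (f := ep q * ep p) (by rw [c1]; exact m1.symm),
      pl_pt hm2 (t06_per (b3_per _ (Dvd.intro _ rfl) (Dvd.intro_left _ rfl)) _) hk]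
    ring
  have hone : ∀ n : ℕ, IsCoprime (1 : ℤ) (n : ℤ) := fun n => isCoprime_one_left
  refine ⟨G - E0, ⟨?_, ?_, ?_⟩, ?_, ?_, ?_, ?_⟩
  · rw [hFeq]
    exact AddSubgroup.sub_mem _ (AddSubgroup.mem_sup_left hXm) (AddSubgroup.mem_sup_right hHG)
  · rw [hFeq]
    exact (hHodd.sub hE2).sub (t06_rel_odd hHG)
  · rw [hFeq]
    exact hHE.sub (TateF_of_mem_relSub hHG)
  · intro a ha
    by_cases c0 : E0 a = 0
    · by_cases c1 : addOrderOf a = ep q * ep p
      · left
        rw [c1]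
      by_cases c2 : addOrderOf a = ep q0 * ep p
      · right
        rw [c2]
      exfalso
      apply ha
      rw [Pi.sub_apply, c0, hG0 a c1 c2, sub_zero]
    · exact hEsupp a c0
  · intro k hk1 hk2
    have hk := t06_cop hk1 hk2
    rw [Pi.sub_apply, Pi.sub_apply, hG1 k hk, hG1 1 (hone _),
      flip_E hT hTm hE5 (by simp) (by simp) hqp hp4 hk1 hk2]
    obtain ⟨r, hr⟩ := (a3_par hq hp h1 hp4 (t06_ndvd hp hq0 hq0p) hk1 hk2).1 hs0
    exact ⟨r - E0 (pt m (ep q * ep p) 1), by linear_combination hr⟩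
  · intro s k hk1 hk2
    have hk := t06_cop hk1 hk2
    rw [Pi.sub_apply, Pi.sub_apply, hG2 k hk, hG2 1 (hone _),
      flip_E hT hTm hE5 (by simp) (by simp) hq0p hp4 hk1 hk2]
    obtain ⟨r, hr⟩ := (b3_par hq0 hp h2 hp4 (t06_ndvd hp hq hqp) hk1 hk2).2 s
    exact ⟨r - E0 (pt m (ep q0 * ep p) 1), by linear_combination hr⟩
  · intro s k hk1 hk2
    have hk := t06_cop hk1 hk2
    rw [Pi.sub_apply, Pi.sub_apply, hG2 k hk, hG2 1 (hone _),
      flip_E hT hTm hE5 (by simp) (by simp) hq0p hp4 hk1 hk2]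
    obtain ⟨r, hr⟩ := (b3_par hq0 hp h2 hp4 (t06_ndvd hp hq hqp) hk1 hk2).1 s
    exact ⟨r - E0 (pt m (ep q0 * ep p) 1), by linear_combination hr⟩

end Pool.Agent.Lib.MP_938ce2_ag_h99v
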