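import Pool.Agent.Lib.MP_938ce2_ag_h99v.TD

/-!
The functions for three primes.
-/

set_option autoImplicit false
set_option linter.style.haveILetI false
set_option linter.unusedSectionVars false

open Finset

namespace Pool.Agent.Lib.MP_938ce2_ag_h99v

open Pool.Agent.Lib.MP_938ce2_ag_h99 Pool.Agent.Lib.MP_938ce2_ag_h6
open Pool.Agent.Lib.MP_938ce2_ag_h99t

/-- first function -/
def a3 (q p : ℕ) (k : ℤ) : ℤ := th q k * th p k - th p k * hf p k

/-- second function -/
def b3 (q p : ℕ) (k : ℤ) : ℤ := th q k * th p k - th p k * (1 - hf p k)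

end Pool.Agent.Lib.MP_938ce2_ag_h99v
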