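import Pool.Agent.Lib.MP_938ce2_ag_h99v.PlD

/-!
Indicator functions of integers.
-/

set_option autoImplicit false
set_option linter.style.haveILetI false
set_option linter.unusedSectionVars false

open Finset

namespace Pool.Agent.Lib.MP_938ce2_ag_h99v

open Pool.Agent.Lib.MP_938ce2_ag_h99 Pool.Agent.Lib.MP_938ce2_ag_h6
open Pool.Agent.Lib.MP_938ce2_ag_h99t

/-- the indicator of `ch p k = 1` -/
def th (p : ℕ) (k : ℤ) : ℤ := if ch p k = 1 then 1 else 0

/-- the indicator of the first half -/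
def hf (p : ℕ) (k : ℤ) : ℤ := if 2 * (k % (ep p : ℤ)) < (ep p : ℤ) then 1 else 0

end Pool.Agent.Lib.MP_938ce2_ag_h99v
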